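import Pool.Agent.P.MP_8b7eba_nt.KV.Iface

/-! Step DERA. -/

set_option autoImplicit false

namespace Pool.Agent.P.MP_8b7eba_nt.R2.G.KV

open scoped Matrix
open MP_9c97e9_nt (Pt pm Is)
open Filter TSPLIT TINVP

open Classical in
theorem t_DERA (hHPI : S_HPI) (hREPA : S_REPA) : S_DERA := by
  intro D H hS n k m hn hm
  have hc : R3.cd D.m * pn n k ≠ 0 := mul_ne_zero (cd_ne _) (pn_ne n k)
  have hd := dvd_mul_right (R3.cd D.m) (pn n k)
  have h1 := hREPA D.l _ hc 1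
  have ex : ∀ q, ∃ t : GQ, ∀ l ∈ n, (l.w k).p = q → l.t k = t := fun q => by
    by_cases h : ∃ l ∈ n, (l.w k).p = q
    · obtain ⟨l, hl, rfl⟩ := h
      exact ⟨l.t k, fun l' hl' e => by rw [List.inj_on_of_nodup_map (nodup hn k) hl' hl e]⟩
    · exact ⟨1, fun l hl e => absurd ⟨l, hl, e⟩ h⟩
  choose t ht using ex
  have one : ∀ {c : ℕ}, c ≠ 0 → ∀ g ∈ D.GK, ac g (HP (1 : RC D.l c)) = HP (ar D.l c g)⁻¹ :=
    fun hc g hg => by rw [ac_hp hc hg, THE1.r8]
  unfold KV.Der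
  rw [Z0, cd_eq, fn_prod hn]
  generalize R3.cd D.m * pn n k = c at h1 hc hd
  have := finite_RC (l := D.l) hc
  have := Fintype.ofFinite (RC D.l c)
  have inj : Function.Injective (sec D.toPre c) := fun a b e => by
    rw [← THE1.r4 a, ← (sec_spec hc a).2, e, (sec_spec hc b).2, THE1.r4]
  refine ⟨_, ⟨HP (1 : RC D.l c), Finset.univ.image (sec D.toPre c),
    fun q s => (dlg (H.N q) (t q) s : ℕ), h1, fun s hs => ?_, fun g hg => ?_, fun q hq => ?_, rfl⟩,
    ?_⟩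
  · obtain ⟨a, -, rfl⟩ := Finset.mem_image.1 hs
    exact (fx_GK _).2 (sec_spec hc a).1
  · have hg := (fx_GK D.toPre).1 hg
    have e : ∀ a, ac (sec D.toPre c a) (HP (1 : RC D.l c)) = HP a := fun a => by
      rw [one hc _ (sec_spec hc a).1, (sec_spec hc a).2, THE1.r4]
    refine ⟨sec D.toPre c (ar D.l c g)⁻¹, ⟨Finset.mem_image_of_mem _ (Finset.mem_univ _),
      (e _).trans (one hc g hg).symm⟩, fun s ⟨s1, s2⟩ => ?_⟩
    obtain ⟨a, -, rfl⟩ := Finset.mem_image.1 s1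
    rw [hHPI D.l c hc ((e a).symm.trans (s2.trans (one hc g hg)))]
  · obtain ⟨l, hl, rfl⟩ := mem_fn.1 hq
    beta_reduce
    rw [← ht _ l hl rfl]
    have q0 := (l.w k).prime.ne_zero
    obtain ⟨a1, -, a3, -, a5, a4, -⟩ := g_DLG D H l k 1 _ _ rfl rfl (Nat.coprime_one_left _)
      one_ne_zero (l.w k).prime.not_dvd_one
    have a6 := H.le 1 a3
    have dv : 2 ^ m ∣ 2 ^ padicValNat 2 ((l.w k).p + 1) := pow_dvd_pow 2 (by omega)
    simp only [fx_GK D.toPre]
    refine ⟨fun g h hg hh => ?_, ⟨l.t k, a6, ?_⟩, fun g hg h => ?_⟩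
    · rw [← Nat.cast_add]
      exact (ZMod.natCast_eq_natCast_iff _ _ _).2 (((a4 g hg).2.2 h hh).of_dvd dv)
    · have b : dlg (H.N (l.w k).p) (l.t k) (l.t k) ≤ 1 := Nat.sInf_le (by simp)
      have b' : dlg (H.N (l.w k).p) (l.t k) (l.t k) ≠ 0 := fun e => by
        have b2 := (a4 _ a6).2.1
        rw [e, pow_zero, inv_one, one_mul, ← pow_one (l.t k), a5, Nat.dvd_one,
          Nat.pow_eq_one] at b2
        omega
      rw [show dlg (H.N (l.w k).p) (l.t k) (l.t k) = 1 by omega, Nat.cast_one]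
    · have b := hHPI D.l _ q0 ((one q0 g hg).symm.trans (h _ (hREPA D.l _ q0 1)))
      have b1 : g ∈ H.N (l.w k).p := (hS.mem q0).2 ⟨hg, by
        rw [← THE1.r4 (ar _ _ g), b, THE1.r3]; exact one_mem _⟩
      have b2 : dlg (H.N (l.w k).p) (l.t k) g ≤ 0 := Nat.sInf_le (by simpa using b1)
      rw [Nat.le_zero.1 b2, Nat.cast_zero]
  · rw [Finset.sum_image fun a _ b _ e => inj e, ZW, finsum_eq_sum_of_fintype]
    refine (congrArg (· ∈ DV D.toPre m) (Finset.sum_sub_distrib (G := EO) _ _)).mp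
      (sum_mem fun a _ => ?_)
    have a1 := sec_spec (P := D.toPre) hc a
    generalize sec D.toPre c a = s at a1
    have b : ∏ q ∈ fn n k, ((dlg (H.N q) (t q) s : ℕ) : ZMod (2 ^ m)) = (wt H n k s : ℤ) := by
      rw [fn, List.prod_toFinset _ (nodup hn k), List.map_map, wt, Int.cast_natCast,
        Nat.cast_list_prod, List.map_map]
      exact congrArg List.prod (List.map_congr_left fun l hl => by
        simp only [Function.comp_apply, ht _ l hl rfl])
    have b1 : (2 : ℤ) ^ m ∣ ((∏ q ∈ fn n k, ((dlg (H.N q) (t q) s : ℕ) : ZMod (2 ^ m))).val : ℤ) -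
        wt H n k s := by
      exact_mod_cast (ZMod.intCast_eq_intCast_iff_dvd_sub _ _ (2 ^ m)).1 (b.symm.trans (by simp))
    have b2 := DV.smul (b1.mul_left (chi D.m a)) (HP_mem (P := D.toPre) hc a)
    rw [fx_sd D.hdm, sd_eq D.toPrg hc hd a1.1, a1.2, ((g_CHI D.l D.m c D.hy.sq hd).2.2.1 _).2.1]
    have b3 : ac s (HP (1 : RC D.l c)) = HP a := by rw [one hc s a1.1, a1.2, THE1.r4]
    rw [mul_sub, sub_smul] at b2
    change _ • ac s _ - _ ∈ _
    rwa [b3]

end Pool.Agent.P.MP_8b7eba_nt.R2.G.KV
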