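import Pool.Agent.P.MP_8b7eba_nt.KV.Iface

/-! Step DERB. -/

set_option autoImplicit false

namespace Pool.Agent.P.MP_8b7eba_nt.R2.G.KV

open scoped Matrix
open MP_9c97e9_nt (Pt pm Is)
open Filter TSPLIT TINVP

namespace DERBc

variable {P : Pre} {m q : ℕ} {lam : GQ → ZMod (2 ^ m)}

theorem pow (h : ∀ g k, KV.Fx (-P.l) g → KV.Fx (-P.l) k → lam (g * k) = lam g + lam k) {g : GQ}
    (hg : g ∈ P.GK) (i : ℕ) : lam (g ^ i) = i * lam g := by
  induction i with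
  | zero => simpa using h 1 1 ((fx_GK P).2 (one_mem _)) ((fx_GK P).2 (one_mem _))
  | succ i ih =>
    rw [pow_succ, h _ _ ((fx_GK P).2 (pow_mem hg i)) ((fx_GK P).2 hg), ih, Nat.cast_succ, add_mul,
      one_mul]

theorem zero (hR : S_REPB) (hq : q ≠ 0)
    (h : ∀ g k, KV.Fx (-P.l) g → KV.Fx (-P.l) k → lam (g * k) = lam g + lam k)
    (h0 : ∀ g, KV.Fx (-P.l) g → (∀ x : EO, KV.Heeg P.l (rH P.l 1) q x → ac g x = x) → lam g = 0)
    {g : GQ} (hg : g ∈ P.GK) (ho : ar P.l q g ∈ Od P.l q) : lam g = 0 := by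
  obtain ⟨r, r1, r2⟩ := mem_Od'.1 ho
  have h1 := h0 (g ^ r) ((fx_GK P).2 (pow_mem hg r)) fun x hx => by
    have e : ∀ a : RC P.l q, ac (g ^ r) (HP a) = HP a := fun a => by
      rw [ac_hp hq (pow_mem hg r), THE1.ar_pow (isAr P hq) hg, r2, THE1.r3, THE1.r2]
    obtain ⟨a, rfl | rfl⟩ := hR P.l q hq x hx
    · exact e a
    · rw [map_neg, e]
  rw [pow h hg] at h1
  exact ((ZMod.unitOfCoprime r (Nat.Coprime.pow_right m
    (Nat.coprime_two_right.2 r1))).mul_right_eq_zero).1 h1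

end DERBc

open DERBc Classical in
theorem t_DERB (hHPI : S_HPI) (hREPB : S_REPB) : S_DERB := by
  intro D H hS n k m M P hn hM ⟨y, S, lam, h1, h2, h3, h4, h5⟩ hZ
  rw [cd_eq, fn_prod hn] at h1
  have hc : R3.cd D.m * pn n k ≠ 0 := mul_ne_zero (cd_ne _) (pn_ne n k)
  have hw := (hS.wi n k).mono (dvd_mul_left _ (R3.cd D.m)) hc
  have hd := dvd_mul_right (R3.cd D.m) (pn n k)
  rw [Z0] at hZ
  generalize R3.cd D.m * pn n k = c at h1 hc hw hd hZ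
  have := finite_RC (l := D.l) hc
  have hA := isAr D.toPre hc
  simp only [fx_GK D.toPre] at h2 h3
  obtain ⟨a₀, ε, hε, rfl⟩ : ∃ (a : RC D.l c) (ε : ℤ), ε * ε = 1 ∧ y = ε • HP a := by
    obtain ⟨a, rfl | rfl⟩ := hREPB D.l c hc y h1
    exacts [⟨a, 1, rfl, (one_smul _ _).symm⟩, ⟨a, -1, rfl, (neg_one_smul _ _).symm⟩]
  have key : ∀ g ∈ D.GK, ∀ s ∈ D.GK, ac s (ε • HP a₀) = ac g (ε • HP a₀) ↔
      (ar D.l c s)⁻¹ = (ar D.l c g)⁻¹ := fun g hg s hs => by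
    rw [map_zsmul, map_zsmul, ac_hp hc hg, ac_hp hc hs]
    refine ⟨fun e => (Group.mulRight_bijective a₀).1 (hHPI D.l c hc ?_), fun e => by rw [e]⟩
    simpa only [smul_smul, hε, one_smul] using congrArg (ε • ·) e
  obtain ⟨U, hU⟩ : ∃ U : ℤ, ∀ s ∈ D.GK, ∏ q ∈ fn n k, lam q s = (wt H n k s * U : ℤ) := by
    obtain ⟨U, hU⟩ := ZMod.intCast_surjective (n.map fun l => lam (l.w k).p (l.t k)).prod
    refine ⟨U, fun s hs => ?_⟩
    rw [fn, List.prod_toFinset _ (nodup hn k), List.map_map, Int.cast_mul, hU, wt, Int.cast_natCast,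
      Nat.cast_list_prod, List.map_map, ← List.prod_map_mul]
    refine congrArg List.prod (List.map_congr_left fun l hl => ?_)
    obtain ⟨a1, -, a2⟩ := h4 _ (mem_fn.2 ⟨l, hl, rfl⟩)
    obtain ⟨-, -, a3, -, -, a4, -⟩ := g_DLG D H l k 1 _ _ rfl rfl (Nat.coprime_one_left _)
      one_ne_zero (l.w k).prime.not_dvd_one
    have a5 := (hS.mem (l.w k).prime.ne_zero).1 (a4 s hs).2.1
    have a6 := a1 _ _ ((fx_GK _).2 (pow_mem (H.le 1 a3) (dlg (H.N (l.w k).p) (l.t k) s)))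
      ((fx_GK _).2 a5.1)
    rw [mul_inv_cancel_left, zero hREPB (l.w k).prime.ne_zero a1 a2 a5.1 a5.2, add_zero,
      DERBc.pow a1 (H.le 1 a3)] at a6
    exact a6
  have e : ac (sec D.toPre c a₀) (ZW D.toPrg c (wt H n k)) =
      ∑ s ∈ S, (sd D.dm s * wt H n k s) • ac s (HP a₀) := by
    rw [ZW, (ac _).map_finsum (Set.toFinite _), ← finsum_mem_coe_finset, ← finsum_mem_univ]
    refine (finsum_mem_eq_of_bijOn (fun s => (ar D.l c s)⁻¹) ⟨fun _ _ => Set.mem_univ _,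
      fun s hs s' hs' e => ?_, fun b _ => ?_⟩ fun s hs => ?_).symm
    · exact (h3 s (h2 s hs)).unique ⟨hs, rfl⟩ ⟨hs', (key _ (h2 s hs) _ (h2 s' hs')).2 e.symm⟩
    · obtain ⟨s, ⟨s1, s2⟩, -⟩ := h3 _ (sec_spec hc b).1
      exact ⟨s, s1, ((key _ (sec_spec hc b).1 _ (h2 s s1)).1 s2).trans (by
        rw [(sec_spec hc b).2, THE1.r4])⟩
    · rw [map_zsmul, ac_hp hc (h2 s hs), ac_hp hc (sec_spec hc _).1, (sec_spec hc _).2, THE1.r4,
        mul_comm a₀, sd_eq D.toPrg hc hd (h2 s hs),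
        ((g_CHI D.l D.m c D.hy.sq hd).2.2.1 _).2.1,
        hw _ (sec_spec hc _).1 _ (h2 s hs) (by rw [(sec_spec hc _).2, THE1.r4])]
  have h6 : P - (ε * U) • ac (sec D.toPre c a₀) (ZW D.toPrg c (wt H n k)) ∈ DV D.toPre m := by
    have h7 : P = ∑ s ∈ S, (sd D.dm s * ((∏ q ∈ fn n k, lam q s).val : ℤ)) • ac s (ε • HP a₀) :=
      h5.trans (Finset.sum_congr rfl fun s _ => by rw [fx_sd D.hdm]; rfl)
    rw [h7, e, Finset.smul_sum, ← Finset.sum_sub_distrib]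
    refine sum_mem fun s hs => ?_
    have a : (2 : ℤ) ^ m ∣ ((∏ q ∈ fn n k, lam q s).val : ℤ) - wt H n k s * U := by
      exact_mod_cast (ZMod.intCast_eq_intCast_iff_dvd_sub _ _ (2 ^ m)).1
        ((hU s (h2 s hs)).symm.trans (by simp))
    have b := DV.smul (a.mul_left (ε * sd D.dm s)) (AbP.ac (HP_mem hc a₀) s)
    convert b using 1
    rw [map_zsmul]
    module
  simpa using add_mem (DV.mono h6 hM) (zsmul_mem (DV.ac hZ (sec D.toPre c a₀)) (ε * U))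

end Pool.Agent.P.MP_8b7eba_nt.R2.G.KV
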