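import Pool.Agent.P.MP_8b7eba_nt.KV.Iface

/-! Step E2. -/

set_option autoImplicit false

namespace Pool.Agent.P.MP_8b7eba_nt.R2.G.KV

open scoped Matrix
open MP_9c97e9_nt (Pt pm Is)
open Filter TSPLIT TINVP

namespace E2c

theorem sect {w : Pl} (T : Tate w) (k : ℕ) (P : EO) :
    ∃ v : V2, ‖v‖ ≤ 1 ∧ (2 ^ k • P = 0 → T.pt (((2 : ℚ_[2]) ^ k)⁻¹ • v) = P) := by
  by_cases h : 2 ^ k • P = 0
  · obtain ⟨v, rfl⟩ := T.surj P k h
    refine ⟨(2 : ℚ_[2]) ^ k • v, ?_, fun _ => by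
      rw [inv_smul_smul₀ (pow_ne_zero _ two_ne_zero)]⟩
    rw [norm_smul, norm_pow, Csum.norm_two, inv_pow, inv_mul_le_one₀ (by positivity)]
    exact T.pt_pow.1 h
  · exact ⟨0, by simp, fun h' => absurd h' h⟩

theorem near {b : ℚ_[2]} (h : ‖b‖ ≤ 1) : ∃ n : ℤ, ‖b - n‖ ≤ 2⁻¹ ∧ (b = 1 → n = 1) := by
  by_cases e : b = 1
  · exact ⟨1, by simp [e], fun _ => rfl⟩
  · rcases Csum.half h with h | h
    · exact ⟨0, by simpa using h, fun a => absurd a e⟩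
    · exact ⟨1, by simpa using h, fun _ => rfl⟩

theorem hf {v : V2} (h : ‖v‖ ≤ 2⁻¹) : ‖(2 : ℚ_[2])⁻¹ • v‖ ≤ 1 := by
  rw [norm_smul, norm_inv, Csum.norm_two, inv_inv]
  linarith

theorem step {w : Pl} (T : Tate w) {b : ℚ_[2]} {n : ℤ} {u : V2} (k : ℕ) (h : ‖b - n‖ ≤ 2⁻¹)
    (hu : ‖u‖ ≤ 1) : T.pt ((2 : ℚ_[2])⁻¹ • b • u) =
      (n * 2 ^ k) • T.pt (((2 : ℚ_[2]) ^ (k + 1))⁻¹ • u) := by
  rw [← map_zsmul, ← Int.cast_smul_eq_zsmul ℚ_[2], T.pt_eq, smul_smul ((n * 2 ^ k : ℤ) : ℚ_[2]),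
    show ((n * 2 ^ k : ℤ) : ℚ_[2]) * ((2 : ℚ_[2]) ^ (k + 1))⁻¹ = 2⁻¹ * n by
      push_cast; field_simp; ring, mul_smul, ← smul_sub, ← sub_smul]
  refine hf ?_
  rw [norm_smul]
  exact (mul_le_of_le_one_right (norm_nonneg _) hu).trans h

end E2c

theorem t_E2 (hE2A : S_E2A) (hE2B : S_E2B) :
    S_E2 := by
  intro w T δ m r hw hδ hm hC
  choose c hc hI using hC
  choose sc s1 s2 using E2c.sect T
  have e0 : ∀ i k g, T.pt (((2 : ℚ_[2]) ^ k)⁻¹ • sc k (c k i g)) = c k i g := fun i k g =>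
    s2 k _ ((hc k i).2 g)
  have hF : ∀ i, Fam T δ fun k g => sc k (c k i g) := fun i =>
    ⟨fun k g => s1 _ _, fun k => (hc k i).1.sm.comp _, fun k => by
      simpa only [e0] using (hc k i).1⟩
  refine ⟨fun i g => ul fun k => sc k (c k i (g k)), fun i => ?_, fun a ha => ?_⟩
  · obtain ⟨h1, h2, h3⟩ := hE2A w T δ m _ _ hw hδ (hF i) rfl
    exact ⟨h1, h2, hE2B w T δ m _ _ hδ hm (hF i) rfl h1, h3⟩
  by_contra h0
  obtain ⟨j, hj⟩ := Function.ne_iff.1 h0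
  have : Nonempty (Fin r) := ⟨j⟩
  obtain ⟨i0, hi⟩ := Finite.exists_max fun i => ‖a i‖
  have a0 : 0 < ‖a i0‖ := (norm_pos_iff.2 hj).trans_le (hi j)
  have hR : Rep ⊤ (T.rq δ) := T.rep (hδ ▸ fix_int m)
  obtain ⟨v, hv⟩ := ha.smul hR (a i0)⁻¹
  have b1 : ∀ i, ‖(a i0)⁻¹ * a i‖ ≤ 1 := fun i => by
    rw [norm_mul, norm_inv, inv_mul_le_one₀ a0]; exact hi i
  choose n n1 n2 using fun i => E2c.near (b1 i)
  have hA : Ap (fun _ => ⊤) (fun k g => ∑ i, ((a i0)⁻¹ * a i) • sc k (c k i g))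
      ((a i0)⁻¹ • ∑ i, a i • fun g : GS => ul fun k => sc k (c k i (g k))) := by
    refine ⟨⟨∑ _i : Fin r, 1, fun k g => norm_sum_le_of_le _ fun i _ => ?_⟩, fun k =>
      ((Sm.pi fun i => (hF i).sm k).comp fun f => ∑ i, ((a i0)⁻¹ * a i) • f i).uc, fun g hg => ?_⟩
    · rw [norm_smul]
      exact mul_le_one₀ (b1 i) (norm_nonneg _) (s1 _ _)
    · simp only [Pi.smul_apply, Finset.sum_apply, Finset.smul_sum, smul_smul]
      exact tendsto_finsetSum _ fun i _ =>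
        ((ap_ul (hF i).bd fun k => ((hF i).sm k).uc).lim g hg).const_smul _
  have h1 := Cob.near hR hA (H' := fun _ => ⊤) (.of_forall fun _ => le_rfl)
    (fun g _ => hv g trivial) (ε := 2⁻¹) (by norm_num)
  obtain ⟨k, k1, k2⟩ := (h1.and (ev_ge 1)).exists
  obtain ⟨k, rfl⟩ := Nat.exists_eq_add_of_le' k2
  obtain ⟨l, hl⟩ := pow_unbounded_of_one_lt ‖(2 : ℚ_[2])⁻¹ • v‖ one_lt_two
  have h3 := hI (k + 1) (fun i => n i * 2 ^ k) (T.pt ((2 : ℚ_[2])⁻¹ • v)) l (T.pt_pow.2 hl.le)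
    (fun g => by
      have := T.pt_eq.2 ((congrArg _ (smul_sub _ _ _)).symm.trans_le (E2c.hf (k1 g trivial)))
      rw [Finset.smul_sum, map_sum, smul_sub, map_sub, ← map_smul, T.rq_apply, ← T.tgal] at this
      rw [← this]
      exact Finset.sum_congr rfl fun i _ => by rw [E2c.step T k (n1 i) (s1 _ _), e0]) i0
  rw [n2 i0 (inv_mul_cancel₀ (norm_pos_iff.1 a0)), one_mul] at h3
  have := Int.le_of_dvd (by positivity) h3
  rw [pow_succ] at this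
  have : (0 : ℤ) < 2 ^ k := by positivity
  omega

end Pool.Agent.P.MP_8b7eba_nt.R2.G.KV
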