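import Pool.Agent.P.MP_8b7eba_nt.KV.Iface

/-! Step E2A. -/

set_option autoImplicit false

namespace Pool.Agent.P.MP_8b7eba_nt.R2.G.KV

open scoped Matrix
open MP_9c97e9_nt (Pt pm Is)
open Filter TSPLIT TINVP Topology

namespace E2Ac

variable {w₂ : Pl} {T : Tate w₂} {δ : Om} {m : ℤ} {u : ℕ → GQ → V2}

theorem small {ε : ℝ} (hε : 0 < ε) : ∀ᶠ k : ℕ in UF, ((2 : ℝ) ^ k)⁻¹ ≤ ε :=
  ((tendsto_inv_atTop_zero.comp (tendsto_pow_atTop_atTop_of_one_lt one_lt_two)).mono_left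
    UF_le).eventually (ge_mem_nhds hε)

theorem co (h : Fam T δ u) (k : ℕ) (g g' : GQ) :
    ‖u k (g * g') - u k g - T.rq δ g (u k g')‖ ≤ (2 ^ k)⁻¹ := by
  refine R2.TKLOC.le_of ((T.ker _).1 ?_)
  have := (h.sel k).co g g'
  rw [smul_sub, smul_sub, map_sub, map_sub, SM.TKUM1.tac_pt, this]
  abel

theorem e1 (h : Fam T δ u) {w : Pl} (hw : ¬ w.p ∣ 15) {g : GQ} (hg : g ∈ w.I) (hd : g δ = δ)
    (k : ℕ) : E1 w (T.pt (((2 : ℚ_[2]) ^ k)⁻¹ • u k g)) := by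
  obtain ⟨P, hP⟩ := (h.sel k).loc w
  have := hP g (w.I_le_D hg)
  rw [this, tac_apply, sd_eq_one.2 hd, one_smul]
  exact (a_CF.cong w hw).2 g hg _

theorem row {g : GQ} (hg : g ∈ w₂.D) (v : V2) : T.rq δ g v 1 = T.rd δ g 1 1 * v 1 := by
  simp [Tate.rq_apply, Matrix.mulVec, dotProduct, SelA.rd_up T δ hg]

theorem lim1 {f : ℕ → V2} {a : V2} (h : Tendsto f UF (𝓝 a)) :
    Tendsto (fun k => f k 1) UF (𝓝 (a 1)) := ((continuous_apply 1).tendsto _).comp h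

theorem rowS (hR : Rep ⊤ (T.rq δ)) {g : GS} (hg : g ∈ S1 w₂.D) (v : V2) :
    rS (T.rq δ) g v 1 = rS (T.rq δ) g ![0, 1] 1 * v 1 := by
  refine tendsto_nhds_unique (lim1 (hR.tendsto g (tendsto_const_nhds (x := v))))
    (((lim1 (hR.tendsto g (tendsto_const_nhds (x := ![0, 1])))).mul_const (v 1)).congr' ?_)
  refine (mem_St.1 hg).mono fun k hk => ?_
  simp only [row hk]
  simp

theorem rowI (hR : Rep ⊤ (T.rq δ)) {g : GS} (hg : ∀ᶠ k in UF, g k ∈ w₂.I ∧ g k δ = δ) (v : V2) :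
    rS (T.rq δ) g v 1 = v 1 := by
  refine tendsto_nhds_unique (lim1 (hR.tendsto g (tendsto_const_nhds (x := v))))
    (tendsto_const_nhds.congr' (hg.mono fun k hk => ?_))
  simp only [row (w₂.I_le_D hk.1), SelA.rd_fix T hk.2, T.un _ hk.1, one_mul]

end E2Ac

theorem t_E2A :
    S_E2A := by
  intro w₂ T δ m u x h2 hδ h hx
  have hF := a_CF
  have hR : Rep ⊤ (T.rq δ) := T.rep (by rw [hδ]; exact fix_int m)
  have hA : Ap (fun _ => ⊤) u x := hx ▸ ap_ul h.bd fun k => (h.sm k).uc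
  have top : ∀ g : GS, g ∈ St fun _ => (⊤ : Subgroup GQ) := fun g => .of_forall fun _ => trivial
  have hz : PZ (fun _ => ⊤) (T.rq δ) x := pz_of_ac hR hA fun ε hε =>
    (E2Ac.small hε).mono fun k hk g _ g' _ => (E2Ac.co h k g g').trans hk
  refine ⟨hz, fun w g hg => ?_, ?_⟩
  · refine tendsto_nhds_unique (hA.lim g (top g)) (R2.TKLOC.lim0 (hg.mono fun k a => ?_))
    have a1 : (w k).p ≠ 2 := fun e => a.2 (Dvd.dvd.mul_right (by rw [e]; norm_num) _)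
    have a2 : ¬ (w k).p ∣ 15 := fun e =>
      a.2 ((Int.natCast_dvd_natCast.2 (e.mul_left 2)).mul_right _)
    obtain ⟨j, hj⟩ := T.tors (((2 : ℚ_[2]) ^ k)⁻¹ • u k (g k))
    exact R2.TKLOC.le_of ((T.ker _).1 ((hF.e1g _).2.2.2.2.2 a1 _ j (E2Ac.e1 h a2 a.1
      (Pl.I_fix hF.tame hF.res a1 hδ (fun e => a.2 (e.mul_left _)) a.1) k) hj))
  · have h0 : ∀ g : GS, (∀ᶠ k in UF, g k ∈ w₂.I ∧ g k δ = δ) → x g 1 = 0 := fun g hg =>
      tendsto_nhds_unique (E2Ac.lim1 (hA.lim g (top g))) (R2.TKLOC.lim0 (hg.mono fun k a =>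
        R2.TKLOC.le_of ((T.e1 _).1 (E2Ac.e1 h (by rw [h2]; norm_num) a.1 a.2 k))))
    obtain ⟨f, fD, f1⟩ := R3.exists_ne T h2 δ
    have f3 := sub_ne_zero.2 f1
    refine ⟨![0, x (cs f) 1 / (T.rd δ f 1 1 - 1)], fun g hg => ?_⟩
    have hn : ∀ᶠ k in UF, (g * cs f * g⁻¹ * (cs f)⁻¹) k ∈ w₂.I ∧
        (g * cs f * g⁻¹ * (cs f)⁻¹) k δ = δ := (mem_St.1 hg).mono fun k a =>
      ⟨Pl.comm_mem hF.frob a fD, R3.comm_fix hδ (g k) f⟩
    have hc : ∀ g g' : GS, x (g * g') = x g + rS (T.rq δ) g (x g') := fun g g' =>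
      hz.2 g (top g) g' (top g')
    have a0 : x (g * cs f) = x (g * cs f * g⁻¹ * (cs f)⁻¹ * (cs f * g)) := by
      congr 1
      group
    rw [hc, hc, hc (cs f) g, rS_cs] at a0
    have a1 := congrFun a0 1
    rw [Pi.add_apply, Pi.add_apply, h0 _ hn, E2Ac.rowI hR hn, E2Ac.rowS hR hg, Pi.add_apply,
      E2Ac.row fD] at a1
    rw [Pi.sub_apply, Pi.sub_apply, E2Ac.rowS hR hg]
    simp only [Matrix.cons_val_one, Matrix.cons_val_zero]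
    field_simp
    linear_combination -a1

end Pool.Agent.P.MP_8b7eba_nt.R2.G.KV
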