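import Pool.Agent.P.MP_8b7eba_nt.KV.Iface

/-! Step E2B. -/

set_option autoImplicit false

namespace Pool.Agent.P.MP_8b7eba_nt.R2.G.KV

open scoped Matrix
open MP_9c97e9_nt (Pt pm Is)
open Filter TSPLIT TINVP

namespace E2Bc

open Topology

variable {w₂ w : Pl} {T : Tate w₂} {δ : Om}

/-- one level: the cocycle is nearly a coboundary on inertia -/
theorem lev (hw : w.p ∣ 15) (h : ∀ g ∈ w.I, g δ = δ) {c : GQ → V2} (hb : ∀ g, ‖c g‖ ≤ 1) (k : ℕ)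
    (hc : SelC δ fun g => T.pt (((2 : ℚ_[2]) ^ k)⁻¹ • c g)) :
    ∃ v : V2, ‖v‖ ≤ 4 ∧ ∀ g ∈ w.I, ‖c g - (T.rq δ g v - v)‖ ≤ (2 ^ k)⁻¹ := by
  obtain ⟨Q, hQ⟩ := hc.loc w
  have h6 : (2 ^ k : ℚ_[2]) ≠ 0 := pow_ne_zero k two_ne_zero
  have h0 : ∀ g ∈ w.I, T.pt (((2 : ℚ_[2]) ^ k)⁻¹ • c g) = ac g Q - Q := fun g hg => by
    rw [hQ g (w.I_le_D hg), tac_apply, sd_eq_one.2 (h g hg), one_smul]
  have h1 : ∀ g ∈ w.I, ac g (2 ^ k • Q) = 2 ^ k • Q := fun g hg => by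
    rw [map_nsmul, ← sub_eq_zero, ← smul_sub, ← h0 g hg, ← TLOC2.pt_nat, smul_smul]
    simpa using (T.ker _).2 (hb g)
  obtain ⟨P', S, h2, h3, h4⟩ := a_CF.half w hw _ h1 k
  have h5 : 2 ^ (k + 2) • (Q - P') = 0 := by
    rw [pow_add, mul_nsmul, nsmul_sub, h4, add_sub_cancel_left]
    exact h3
  obtain ⟨x, hx⟩ := T.surj _ _ h5
  rw [← hx, T.pt_pow] at h5
  refine ⟨(2 ^ k : ℚ_[2]) • x, ?_, fun g hg => TKLOC.le_of ?_⟩
  · rw [norm_smul, norm_pow, Csum.norm_two, inv_pow, inv_mul_le_iff₀ (by positivity)]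
    exact h5.trans_eq (by ring)
  · rw [Tate.rq_apply, SelA.rd_fix T (h g hg), Matrix.mulVec_smul, ← smul_sub, smul_sub,
      inv_smul_smul₀ h6, ← T.pt_eq, h0 g hg, map_sub, ← T.gal, hx, map_sub, h2 g hg,
      sub_sub_sub_cancel_right]

/-- extension from inertia to the decomposition group -/
theorem ext (hR : Rep ⊤ (T.rq δ)) (hw : w.p ∣ 15) (h : ∀ g ∈ w.I, g δ = δ) {x : GS → V2}
    (hx : PZ (fun _ => ⊤) (T.rq δ) x) (hv : Cob (S1 w.I) (T.rq δ) x) :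
    Cob (S1 w.D) (T.rq δ) x := by
  have hF := a_CF
  obtain ⟨v, hv⟩ := hv
  have h2 : w.p ≠ 2 := fun e => by rw [e] at hw; omega
  have h1 : (w.p : ℚ_[2]) ≠ 1 := by exact_mod_cast w.prime.one_lt.ne'
  have h1' : -(w.p : ℚ_[2]) ≠ 1 := by
    have : -(w.p : ℤ) ≠ 1 := by omega
    exact_mod_cast this
  obtain ⟨e, -, -, -, -, ht, hφ⟩ := hF.unip _ T w hw
  obtain ⟨t, tI, tβ⟩ := Pl.exists_gen hF.tame hF.res h2
  obtain ⟨φ, fr⟩ := Pl.exists_frob hF.frob w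
  have mt : ∀ g : GS, g ∈ S1 ⊤ := fun g => .of_forall fun _ => trivial
  obtain ⟨y, hy⟩ : ∃ y : GS → V2, ∀ g, y g = x g - (rS (T.rq δ) g v - v) := ⟨_, fun _ => rfl⟩
  have z1 : ∀ g h, y (g * h) = y g + rS (T.rq δ) g (y h) := fun g h => by
    simp only [hy, hx.2 g (mt g) h (mt h), hR.rS_mul (mt g) (mt h), hR.rS_sub]
    abel
  have z2 : ∀ g ∈ S1 w.I, y g = 0 := fun g hg => by rw [hy, hv g hg, sub_self]
  have z3 : ∀ g ∈ S1 w.D, ∀ i ∈ S1 w.I, rS (T.rq δ) i (y g) = y g := fun g hg i hi => by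
    have b : g⁻¹ * i * g ∈ S1 w.I := ((mem_St.1 hg).and (mem_St.1 hi)).mono fun k a => by
      simpa using Pl.conj_mem_I (w.D.inv_mem a.1) a.2
    have a1 := z1 i g
    have a2 := z1 g (g⁻¹ * i * g)
    rw [z2 i hi, zero_add] at a1
    rw [z2 _ b, rS_zero, add_zero, show g * (g⁻¹ * i * g) = i * g by group] at a2
    rw [← a1, a2]
  obtain ⟨l, l1, hl⟩ : ∃ l : ℚ_[2], l ≠ 1 ∧ T.rq δ φ e = l • e := by
    rw [Tate.rq_apply, Tate.rd, Matrix.smul_mulVec]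
    rcases hφ φ fr with a | a <;> rcases sd_cases δ φ with b | b <;> rw [a, b]
    · exact ⟨_, h1, by simp⟩
    · exact ⟨_, h1', by simp⟩
    · exact ⟨_, h1', by simp⟩
    · exact ⟨_, h1, by simp⟩
  refine ⟨v + (l - 1)⁻¹ • y (cs φ), fun g hg => ?_⟩
  obtain ⟨s, hs⟩ := (ht t tI tβ).2 (y g) (by
    have := z3 g hg (cs t) (cs_mem.2 tI)
    rwa [rS_cs, Tate.rq_apply, SelA.rd_fix T (h t tI)] at this)
  have a1 : y g + rS (T.rq δ) g (y (cs φ)) = y (g * cs φ * g⁻¹ * (cs φ)⁻¹) +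
      rS (T.rq δ) (g * cs φ * g⁻¹ * (cs φ)⁻¹) (y (cs φ * g)) := by
    rw [← z1, ← z1]
    congr 1
    group
  have a2 : g * cs φ * g⁻¹ * (cs φ)⁻¹ ∈ S1 w.I :=
    (mem_St.1 hg).mono fun k a => Pl.comm_mem hF.frob a fr.1
  have a3 : rS (T.rq δ) (cs φ) (y g) = l • y g := by rw [rS_cs, hs, map_smul, hl, smul_comm]
  rw [z2 _ a2, z3 _ (mul_mem (cs_mem.2 fr.1) hg) _ a2, zero_add, z1, a3] at a1
  have a4 : rS (T.rq δ) g (y (cs φ)) - y (cs φ) = (l - 1) • y g := by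
    rw [sub_smul, one_smul, sub_eq_sub_iff_add_eq_add, add_comm _ (y g), a1, add_comm]
  rw [hR.rS_add, hR.rS_smul, add_sub_add_comm, ← smul_sub, a4,
    inv_smul_smul₀ (sub_ne_zero.2 l1), hy, add_sub_cancel]

end E2Bc

theorem t_E2B :
    S_E2B := by
  intro w₂ T δ m u x hδ hm hu hx hz w a2 hw
  have hF := a_CF
  have hR : Rep ⊤ (T.rq δ) := T.rep (by rw [hδ]; exact fix_int m)
  have hp : Prime (w.p : ℤ) := Nat.prime_iff_prime_int.1 w.prime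
  by_cases ad : (w.p : ℤ) ∣ m
  · obtain ⟨t, tI, tβ⟩ := Pl.exists_gen hF.tame hF.res a2
    exact R3.sah2 a2 (hR.mono le_top) tI tβ (R3.ram_gen T hδ hm a2 ad tI tβ)
      (hz.mono fun _ => le_top)
  · have a15 : w.p ∣ 15 := by exact_mod_cast (hp.dvd_or_dvd hw).resolve_right ad
    have hI : ∀ g ∈ w.I, g δ = δ := fun g hg => Pl.I_fix hF.tame hF.res a2 hδ ad hg
    choose v hv hv' using fun k => E2Bc.lev (T := T) a15 hI (hu.bd k) k (hu.sel k)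
    have h2 := tendsto_ul (f := v) (.of_forall hv)
    refine E2Bc.ext hR a15 hI hz ⟨ul v, fun g hg => ?_⟩
    have h3 := tendsto_ul (f := fun k => u k (g k)) (.of_forall fun k => hu.bd k (g k))
    rw [hx]
    exact eq_of_sub_eq_zero (tendsto_nhds_unique (h3.sub ((hR.tendsto g h2).sub h2))
      (TKLOC.lim0 ((mem_St.1 hg).mono fun k a => hv' k _ a)))

end Pool.Agent.P.MP_8b7eba_nt.R2.G.KV
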