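import Pool.Agent.P.MP_8b7eba_nt.R3.ATRESK

/-! The eigenspaces of the Selmer group over the quadratic field and the Selmer groups of the two
twists. -/

set_option autoImplicit false

namespace Pool.Agent.P.MP_8b7eba_nt.R2.G

open Finset Filter TSPLIT TRESK
open scoped Matrix

namespace KRk

variable {D : Dat} {r : ℕ}

theorem nz_sum (a : Fin r → ℚ_[2]) (x : Fin r → GS → V2) :
    D.nz p1 (∑ i, a i • x i) = ∑ i, a i • D.nz p1 (x i) := by
  let L : (GS → V2) →ₗ[ℚ_[2]] GS → V2 :=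
    ⟨⟨D.nz p1, Dat.nz_add isPsi_one⟩, Dat.nz_smul isPsi_one⟩
  exact (map_sum L _ _).trans (sum_congr rfl fun i _ => L.map_smul _ _)

theorem pz_sum {R : GQ → V2 →ₗ[ℚ_[2]] V2} (hR : Rep ⊤ R) (a : Fin r → ℚ_[2]) {x : Fin r → GS → V2}
    (h : ∀ i, PZ (fun _ => ⊤) R (x i)) : PZ (fun _ => ⊤) R (∑ i, a i • x i) :=
  sum_induction _ _ (fun _ _ => PZ.add hR) pz_zero fun i _ => (h i).smul hR _

theorem up {δ : Om} {m : ℤ} (hr : D.T.rq δ D.z = D.r p1 D.z) {x X : Fin r → GS → V2}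
    (hx : ∀ i, D.Sel p1 [] (x i)) (hl : LinearIndependent ℚ_[2] x)
    (e : ∀ i, ∀ g ∈ S1 D.GK, X i g = x i g + x i g) (hX : ∀ i, R3.SelQ D.T δ m (X i)) :
    ∃ X : Fin r → GS → V2, (∀ i, R3.SelQ D.T δ m (X i)) ∧
      ∀ a : Fin r → ℚ_[2], Cob ⊤ (D.T.rq δ) (∑ i, a i • X i) → a = 0 := by
  refine ⟨X, hX, fun a ha => funext (Fintype.linearIndependent_iff.1 hl a (funext fun g => ?_))⟩
  have zK : cs D.z ∈ S1 D.GK := cs_mem.2 D.zK
  have h1 := cob_zero hr ha (by simp [e _ _ zK, fun i => (hx i).1.nz]) g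
  by_cases hg : g ∈ S1 D.GK
  · refine (smul_eq_zero.1 ((two_smul ℚ_[2] _).trans ?_)).resolve_left two_ne_zero
    rw [← h1, Finset.sum_apply, Finset.sum_apply, ← sum_add_distrib]
    exact sum_congr rfl fun i _ => by rw [Pi.smul_apply, Pi.smul_apply, e i g hg, smul_add]
  · simp [fun i => (hx i).1.off g hg]

theorem down (hP : CP) {δ : Om} {m : ℤ} {ε : ℚ_[2]} (hδ : δ ^ 2 = m) (hm : m ≠ 0)
    (hr : ∀ g ∈ D.GK, D.T.rq δ g = D.r p1 g) (ht : ∀ v, D.T.rq δ tau v = ε • D.r p1 tau v)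
    {X : Fin r → GS → V2} (hX : ∀ i, R3.SelQ D.T δ m (X i))
    (hl : ∀ a : Fin r → ℚ_[2], Cob ⊤ (D.T.rq δ) (∑ i, a i • X i) → a = 0) :
    ∃ x : Fin r → GS → V2, (∀ i, D.Sel p1 [] (x i) ∧
      D.nz p1 (D.xt (x i)) = ((sd D.dm tau : ℚ_[2]) * ε) • x i) ∧ LinearIndependent ℚ_[2] x := by
  have hR : Rep ⊤ (D.T.rq δ) := D.T.rep (by rw [hδ]; exact fix_int m)
  have R := rep D
  refine ⟨fun i => D.nz p1 (X i), fun i => ⟨sel hP hδ hm hr ht (hX i), ?_⟩,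
    Fintype.linearIndependent_iff.2 fun a ha => congrFun (hl a (glob hR hr
      (pz_sum hR a fun i => (hX i).pz) ?_))⟩
  · obtain ⟨u, hu⟩ := key hP.toCB hR hr ht (hX i).pz
    obtain ⟨v, hv⟩ := D.nz_eq (X i) isPsi_one
    obtain ⟨w, hw⟩ := Cob.xtG (x := D.nz p1 (X i) + (-1 : ℚ_[2]) • X i) hP.toCB isPsi_one le_rfl
      (fun g hg => conjS hP.toCB hg)
      ⟨v, fun g hg => by rw [Pi.add_apply, hv g hg, neg_one_smul, Pi.neg_apply]; abel⟩
    rw [← Dat.nz_smul isPsi_one]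
    set s : ℚ_[2] := ((sd D.dm tau : ℤ) : ℚ_[2]) with hs
    have ss : s * s = 1 := by rw [hs]; exact_mod_cast sd_sq D.dm tau
    refine Dat.nz_congr isPsi_one ⟨w - s • u, fun g hg => ?_⟩
    have a : D.xt (X i) g = s • (s • D.xt (X i)) g := by
      rw [Pi.smul_apply, smul_smul, ss, one_smul]
    have b := hw g hg
    rw [Dat.xt_add, Dat.xt_smul, Pi.add_apply, Pi.smul_apply, a, xt_eq, hu g hg] at b
    replace b : _ = rS (D.r p1) g w - w := b
    rw [Pi.sub_apply, Pi.smul_apply, R.rS_sub, R.rS_smul]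
    linear_combination (norm := module) b
  · obtain ⟨v, hv⟩ := D.nz_eq (∑ i, a i • X i) isPsi_one
    refine ⟨-v, fun g hg => ?_⟩
    have := hv g hg
    rw [nz_sum, ha, Pi.zero_apply, eq_comm, add_eq_zero_iff_eq_neg] at this
    rw [this, R.rS_neg]
    abel

/-- the dimensions of the eigenspaces are the ranks of the two Selmer groups -/
theorem eg_iff (hP : CP) (hS : SPLIT) (D : Dat) (r : ℕ) :
    (∃ ε : ℚ_[2], (ε = 1 ∨ ε = -1) ∧ ∃ x : Fin r → GS → V2, (∀ i, D.Sel p1 [] (x i) ∧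
      D.nz p1 (D.xt (x i)) = ε • x i) ∧ LinearIndependent ℚ_[2] x) ↔
    (∃ X : Fin r → GS → V2, (∀ i, R3.SelQ D.T D.dm D.m (X i)) ∧
      ∀ a : Fin r → ℚ_[2], Cob ⊤ (D.T.rq D.dm) (∑ i, a i • X i) → a = 0) ∨
    ∃ X : Fin r → GS → V2, (∀ i, R3.SelQ D.T (D.dm * D.sk) (-D.l * D.m) (X i)) ∧
      ∀ a : Fin r → ℚ_[2], Cob ⊤ (D.T.rq (D.dm * D.sk)) (∑ i, a i • X i) → a = 0 := by
  constructor
  · rintro ⟨ε, hε, x, hx, hl⟩
    choose xp xm a1 a2 e using fun i => hS D (x i) (hx i).1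
    simp only [Dat.nz_smul isPsi_one, fun i => (hx i).2, smul_smul] at e
    have hs : (sd D.dm tau : ℚ_[2]) * ε = 1 ∨ (sd D.dm tau : ℚ_[2]) * ε = -1 := by
      rcases sd_cases D.dm tau with b | b <;> rcases hε with a | a <;> simp [a, b]
    refine hs.imp (fun s => up (by rw [D.r_one]) (fun i => (hx i).1) hl (fun i g hg => ?_) a1)
      fun s => up (rq_sk D D.zK) (fun i => (hx i).1) hl (fun i g hg => ?_) a2
    · rw [(e i g hg).1, s, one_smul]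
    · rw [(e i g hg).2, s, neg_one_smul, Pi.neg_apply, sub_neg_eq_add]
  · rintro (⟨X, h1, h2⟩ | ⟨X, h1, h2⟩)
    · refine ⟨_, ?_, down hP (ε := 1) D.hdm D.dm_ne.2.2 (fun g _ => by rw [D.r_one])
        (fun v => by rw [D.r_one, one_smul]) h1 h2⟩
      rcases sd_cases D.dm tau with b | b <;> simp [b]
    · refine ⟨_, ?_, down hP (ε := -1) (by rw [mul_pow, D.hdm, D.hsk]; push_cast; ring)
        (mul_ne_zero (by simpa using D.lp.ne_zero) D.dm_ne.2.2) (fun g => rq_sk D)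
        (fun v => ?_) h1 h2⟩
      · rcases sd_cases D.dm tau with b | b <;> simp [b]
      · rw [D.r_one, Tate.rq_apply, Tate.rq_apply, Tate.rd, Tate.rd, sd_sk,
          sd_eq_neg.2 (show tau D.sk ≠ D.sk from (hP.karith _).2.1)]
        simp [Matrix.neg_mulVec]

end KRk

end Pool.Agent.P.MP_8b7eba_nt.R2.G
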