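import Pool.Agent.P.MP_8b7eba_nt.KV.Iface
import Pool.Agent.P.MP_8b7eba_nt.KV.Rk

/-! Step EGB. -/

set_option autoImplicit false

namespace Pool.Agent.P.MP_8b7eba_nt.R2.G.KV

open scoped Matrix
open MP_9c97e9_nt (Pt pm Is)
open Filter TSPLIT TINVP

theorem t_EGB : S_EGB := fun D r h => by
  obtain ⟨ε, rfl | rfl, a⟩ := (KRk.eg_iff a_CP (t_SPLIT a_CP t_SAH2) D r).2 h
  exacts [.inl a, .inr a]

end Pool.Agent.P.MP_8b7eba_nt.R2.G.KV
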