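import Pool.Agent.P.MP_8b7eba_nt.KV.Iface

/-! Step FIB. -/

set_option autoImplicit false

namespace Pool.Agent.P.MP_8b7eba_nt.R2.G.KV

open scoped Matrix
open MP_9c97e9_nt (Pt pm Is)
open Filter TSPLIT TINVP

namespace FIBc

theorem key (P : Prg) {c q : ℕ} {w : GQ → ℤ} (hc : c * q ≠ 0) (hd : R3.cd P.m ∣ c)
    (hw : Wi P.toPre c w) (b : RC P.l (c * q)) :
    chi P.m b * w (sec P.toPre (c * q) b) = chi P.m (pr (Nat.dvd_mul_right c q) b) *
      w (sec P.toPre c (pr (Nat.dvd_mul_right c q) b)) := by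
  have h0 := left_ne_zero_of_mul hc
  rw [(g_CHI P.l P.m c P.hy.sq hd).2.2.2]
  congr 1
  refine hw _ (sec_spec hc b).1 _ (sec_spec h0 _).1 ?_
  rw [← (isAr P.toPre hc).pr c (Nat.dvd_mul_right c q) _ (sec_spec hc b).1, (sec_spec hc b).2,
    (sec_spec h0 _).2, THE1.r9]

end FIBc

theorem t_FIB :
    S_FIB := by
  classical
  intro P c q w hc hd hw
  have := finite_RC (l := P.l) hc
  have := finite_RC (l := P.l) (left_ne_zero_of_mul hc)
  have := Fintype.ofFinite (RC P.l c)
  have := Fintype.ofFinite (RC P.l (c * q))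
  constructor
  · rw [ZW, finsum_eq_sum_of_fintype, finsum_eq_sum_of_fintype,
      ← Finset.sum_fiberwise Finset.univ (pr (l := P.l) (Nat.dvd_mul_right c q))]
    refine Finset.sum_congr rfl fun a _ => ?_
    rw [← Finset.coe_filter_univ, finsum_mem_coe_finset, Finset.smul_sum]
    refine Finset.sum_congr rfl fun b hb => ?_
    rw [← (Finset.mem_filter.1 hb).2, FIBc.key P hc hd hw]
  · rw [ZW, finsum_eq_sum_of_fintype, finsum_eq_sum_of_fintype,
      ← Finset.sum_fiberwise Finset.univ (pr (l := P.l) (Nat.dvd_mul_right c q)), Finset.smul_sum]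
    refine Finset.sum_congr rfl fun a _ => ?_
    rw [← TTRI.card_fibre hc a, Nat.card_eq_fintype_card, Fintype.card_subtype, ← Finset.sum_const]
    refine Finset.sum_congr rfl fun b hb => ?_
    rw [← (Finset.mem_filter.1 hb).2, FIBc.key P hc hd hw]

end Pool.Agent.P.MP_8b7eba_nt.R2.G.KV
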