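import Pool.Agent.P.MP_8b7eba_nt.KV.Iface

/-! Step INV0. -/

set_option autoImplicit false

namespace Pool.Agent.P.MP_8b7eba_nt.R2.G.KV

open scoped Matrix
open MP_9c97e9_nt (Pt pm Is)
open Filter TSPLIT TINVP

namespace INV0c

variable {P : Prg} {c : ℕ} {w w' : GQ → ℤ}

theorem zw_add (hc : c ≠ 0) (w w' : GQ → ℤ) :
    ZW P c (fun s => w s + w' s) = ZW P c w + ZW P c w' := by
  have := finite_RC (l := P.l) hc
  simp only [ZW, mul_add, add_smul]
  exact finsum_add_distrib (Set.toFinite _) (Set.toFinite _)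

theorem zw_dvd (hc : c ≠ 0) {k : ℕ} (h : ∀ s ∈ P.GK, 2 ^ k ∣ w s) : ZW P c w ∈ DV P.toPre k :=
  finsum_induction (· ∈ DV P.toPre k) (zero_mem _) (fun _ _ => add_mem)
    fun a => DV.smul ((h _ (sec_spec hc a).1).mul_left _) (HP_mem hc a)

theorem wi_mul {Q : Pre} (h : Wi Q c w) (h' : Wi Q c w') : Wi Q c fun s => w s * w' s :=
  fun g hg s hs e => by
    change w g * w' g = w s * w' s
    rw [h g hg s hs e, h' g hg s hs e]

theorem wi_shift {Q : Pre} (hc : c ≠ 0) (h : Wi Q c w) {u : GQ} (hu : u ∈ Q.GK) :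
    Wi Q c fun s => w (u * s) := fun g hg s hs e =>
  h _ (mul_mem hu hg) _ (mul_mem hu hs) (by
    rw [(isAr Q hc).mul _ hu _ hg, (isAr Q hc).mul _ hu _ hs, e])

variable {D : Dat} {H : Heeg D.toPrg D.a}

theorem trace (hFIB : S_FIB) (H : Heeg D.toPrg D.a) (l : Kp D) (k : ℕ) (hc : c ≠ 0)
    (hd : R3.cd D.m ∣ c) (hq : ¬ (l.w k).p ∣ c) (hw : Wi D.toPre c w) :
    ZW D.toPrg (c * (l.w k).p) w ∈ DV D.toPre k := by
  have hp := (l.w k).prime
  have := finite_RC (l := D.l) hc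
  have h1 : ¬ (l.w k).p ∣ 30 * D.l * c := fun h => (hp.dvd_mul.1 h).elim
    (fun h => l.big k (Dvd.dvd.mul_right (by exact_mod_cast h) _)) hq
  have h2 := (g_DLG D H l k 1 _ _ rfl rfl (Nat.coprime_one_left _) one_ne_zero
    (fun h => hp.one_lt.ne' (Nat.dvd_one.1 h))).2.1
  rw [(hFIB D.toPrg c _ w (mul_ne_zero hc hp.ne_zero) hd hw).1]
  refine finsum_induction (· ∈ DV D.toPre k) (zero_mem _) (fun _ _ => add_mem) fun a => ?_
  rw [(g_TRI D.toPre c (l.w k) a ⟨hc, trivial⟩ h1 fun h => l.out k (h (l.fr k).1)).1]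
  exact zsmul_mem (DV.smul ((pow_dvd_pow 2 k.le_succ).trans h2) (HP_mem hc a)) _

theorem tele (hFIB : S_FIB) (hS : Std H) (k : ℕ) {u : GQ} (hu : u ∈ D.GK) (n : List (Kp D))
    (hn : Ok n) : ∀ (c : ℕ) (h : GQ → ℤ), c ≠ 0 → R3.cd D.m ∣ c → (∀ l ∈ n, ¬ (l.w k).p ∣ c) →
      Wi D.toPre c h → ZW D.toPrg (c * pn n k) (fun s => h s * (wt H n k (u * s) - wt H n k s)) ∈
        DV D.toPre k := by
  induction n with
  | nil => exact fun c h hc _ _ _ => zw_dvd (mul_ne_zero hc (pn_ne _ k)) fun s _ => by simp [wt]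
  | cons l n ih =>
    intro c h hc hd hq hw
    obtain ⟨o1, o2⟩ := List.pairwise_cons.1 hn
    have hp := (l.w k).prime
    have c0 := mul_ne_zero hc (pn_ne (l :: n) k)
    have c1 := mul_ne_zero hc (pn_ne n k)
    have c2 := mul_ne_zero hc hp.ne_zero
    have e0 : pn (l :: n) k = (l.w k).p * pn n k := by simp [pn]
    let d : GQ → ℤ := fun s => dlg (H.N (l.w k).p) (l.t k) s
    have e : (fun s => h s * (wt H (l :: n) k (u * s) - wt H (l :: n) k s)) = fun s =>
        (h s * wt H n k (u * s) * (d (u * s) - (d u + d s)) +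
          d u * (h s * wt H n k (u * s))) + h s * d s * (wt H n k (u * s) - wt H n k s) := by
      funext s
      rw [wt_cons, wt_cons]
      ring
    rw [e, zw_add c0, zw_add c0]
    refine add_mem (add_mem (zw_dvd c0 fun s hs => Dvd.dvd.mul_left ?_ _) ?_) ?_
    · obtain ⟨a, -, -, -, -, b, -⟩ := g_DLG D H l k 1 _ _ rfl rfl (Nat.coprime_one_left _)
        one_ne_zero (fun h => hp.one_lt.ne' (Nat.dvd_one.1 h))
      have := ((b u hu).2.2 s hs).symm.dvd
      push_cast at this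
      exact (pow_dvd_pow 2 (by omega)).trans this
    · rw [show c * pn (l :: n) k = c * pn n k * (l.w k).p by rw [e0]; ring]
      refine trace hFIB H l k c1 (hd.mul_right _) (fun a => (hp.dvd_mul.1 a).elim
        (hq l (by simp)) fun a => ?_) (wi_mul (fun _ _ _ _ _ => rfl) (wi_mul
          (hw.mono (dvd_mul_right _ _) c1)
          (wi_shift c1 ((hS.wi n k).mono (dvd_mul_left _ _) c1) hu)))
      obtain ⟨q, hq, a⟩ := (Prime.dvd_prod_iff hp.prime).1 a
      obtain ⟨l', hl', rfl⟩ := List.mem_map.1 hq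
      exact o1 l' hl' k ((Nat.prime_dvd_prime_iff_eq hp (l'.w k).prime).1 a)
    · rw [show c * pn (l :: n) k = c * (l.w k).p * pn n k by rw [e0]; ring]
      refine ih o2 _ _ c2 (hd.mul_right _) (fun l' hl' a => ((l'.w k).prime.dvd_mul.1 a).elim
        (hq l' (by simp [hl'])) fun a => o1 l' hl' k
          ((Nat.prime_dvd_prime_iff_eq (l'.w k).prime hp).1 a).symm)
        (wi_mul (hw.mono (dvd_mul_right _ _) c2) fun g hg s hs a => ?_)
      have := (hS.wi [l] k).mono (N' := c * (l.w k).p) (by simp [pn]) c2 g hg s hs a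
      simpa [wt, d] using this

end INV0c

open INV0c in
theorem t_INV0 (hFIB : S_FIB) :
    S_INV0 := by
  intro D H hS n k hn g hg
  have c0 := mul_ne_zero (cd_ne D.toPrg) (pn_ne n k)
  have := tele hFIB hS k (inv_mem hg) n hn (R3.cd D.m) (fun _ => 1) (cd_ne D.toPrg) dvd_rfl
    (fun l _ a => ?_) fun _ _ _ _ _ => rfl
  · rw [Z0, tac_ZW D.toPrg c0 (dvd_mul_right _ _) ((hS.wi n k).mono (dvd_mul_left _ _) c0) hg]
    convert this using 1
    rw [sub_eq_iff_eq_add, ← zw_add c0]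
    simp
  · have hp := (l.w k).prime
    have h2 : (l.w k).p ≠ 2 := fun e => l.big k (by
      rw [e]; exact ⟨15 * D.l * D.m, by push_cast; ring⟩)
    obtain ⟨-, -, k1, k2, -⟩ := g_KC D.m D.hy.sq
    refine (hp.dvd_mul.1 (a.trans k1)).elim (fun b => h2 ?_)
      fun b => l.big k (((k2 _ hp h2).1 b).mul_left _)
    exact (Nat.prime_dvd_prime_iff_eq hp Nat.prime_two).1
      (hp.dvd_of_dvd_pow (show _ ∣ 2 ^ 3 from b))

end Pool.Agent.P.MP_8b7eba_nt.R2.G.KV
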