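import Pool.Agent.P.MP_8b7eba_nt.KV.Iface
import Pool.Agent.P.MP_8b7eba_nt.QT.DefS
import Pool.Agent.P.MP_9c97e9_nt.KT.TLAL
import Pool.Agent.P.MP_9c97e9_nt.KT.TDEC
import Pool.Agent.P.MP_9c97e9_nt.KT.TLAP

/-! Step IOT. -/

set_option autoImplicit false

namespace Pool.Agent.P.MP_8b7eba_nt.R2.G.KV

open scoped Matrix
open MP_9c97e9_nt (Pt pm Is)
open Filter TSPLIT TINVP

namespace IOTc

open MP_9c97e9_nt KT KT.TLAL Classical

theorem lal {W : WeierstrassCurve ℤ} {e₁ e₂ e₃ : ℚ} (h : Split W e₁ e₂ e₃) (K : Type) [Field K]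
    [CharZero K] (hA : Apx K) (c : GQ → Pt W Om) (i : ℕ) (hc : ∀ g, 2 ^ i • c g = 0)
    (hl : LocTriv W K c) : ∃ P : Pt W Om, ∀ (σ : Gal K) (τ : GQ),
      (∀ x, emb ℚ K (τ x) = σ (emb ℚ K x)) → c τ = pm W (τ : Om →+* Om) P - P := by
  obtain ⟨P, hP⟩ := hl
  have r : Rt (W := W) (K := K) (2 ^ i • P) := fun σ => by
    obtain ⟨τ, hτ⟩ := exists_restrict (k := ℚ) σ
    rw [map_nsmul, ← sub_eq_zero, ← nsmul_sub, ← hP σ τ hτ, ← map_nsmul, hc, map_zero]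
  obtain ⟨R₁, R₂, a1, r2, e⟩ := iter h hA i r
  obtain ⟨Q, hQ⟩ := al_pow h i (Q := P - R₂) (by rwa [nsmul_sub, e, add_sub_cancel_right])
  refine ⟨Q, fun σ τ hτ => pm_injective (emb ℚ K) ?_⟩
  rw [hP σ τ hτ, map_sub, pm_compat hτ, hQ, map_sub, r2 σ]
  abel

theorem splitQ {d : ℤ} (hd : d ≠ 0) : Split (Wd d) (-21 * d : ℚ) (-102 * d) (123 * d) := by
  have hd' : (d : ℚ) ≠ 0 := Int.cast_ne_zero.2 hd
  refine ⟨two_ne_zero, fun e => hd' ?_, fun e => hd' ?_, fun e => hd' ?_, ?_, ?_, ?_⟩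
  · linear_combination e / 81
  · linear_combination -e / 144
  · linear_combination -e / 225
  all_goals simp only [Wd]; push_cast; ring

end IOTc

open IOTc TSHA MP_9c97e9_nt Classical in
theorem t_IOT :
    S_IOT := by
  intro d δ hd hδ
  have hd' : (d : Om) ≠ 0 := Int.cast_ne_zero.2 hd
  have h0 : δ ≠ 0 := fun e => hd' (by rw [← hδ, e]; simp)
  have hF : Fix ⊤ (δ ^ 2) := fun g _ => by rw [hδ, map_intCast]
  have hu : (3 * δ) ^ 2 = 9 * d := by rw [← hδ]; ring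
  have hs : Split (Wd d) ((3 * δ) ^ 2 * 0 + -21 * d) ((3 * δ) ^ 2 * -9 + -21 * d)
      ((3 * δ) ^ 2 * 16 + -21 * (d : Om)) := by
    rw [hu]
    refine ⟨two_ne_zero, fun e => hd' ?_, fun e => hd' ?_, fun e => hd' ?_, ?_, ?_, ?_⟩
    · linear_combination e / 81
    · linear_combination -e / 144
    · linear_combination -e / 225
    all_goals simp only [Wd]; push_cast; ring
  obtain ⟨ι, bij, hι⟩ := exists_iso split15 hs (mul_ne_zero three_ne_zero h0)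
  have eqv : ∀ (g : GQ) (P : EO), pm (Wd d) g (ι P) = ι (tac δ g P) := fun g P => by
    rcases zero_or_is P with rfl | ⟨x, η, hP⟩
    · simp
    have h1 := (hι _ _ _ hP).map (K := Om) g
    have h2 := sd_apply hF g
    have h3 := is_ac g hP
    refine h1.unique hs ?_
    rw [tac_apply]
    rcases sd_cases δ g with e | e <;> rw [e] at h2 ⊢
    · convert hι _ _ _ h3 using 1 <;> simp [h2, map_ofNat]
    · rw [neg_smul, one_smul]
      convert hι _ _ _ h3.neg using 1 <;> simp [h2, map_ofNat]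
      ring
  refine ⟨AddEquiv.ofBijective ι bij, eqv, fun c => ⟨fun hc => ?_, fun hc ⟨i, hi⟩ => ?_⟩⟩
  · change (fun g => 2 • ι (c g)) ∈ _
    have co : ∀ σ τ : GQ, ι (c (σ * τ)) = ι (c σ) + pm (Wd d) σ (ι (c τ)) := fun σ τ => by
      rw [hc.co, map_add, eqv]
    obtain ⟨σ₀, h1, h2⟩ := real_two
    refine ⟨⟨(sm_top_iff.1 hc.sm).comp fun P => 2 • ι P, fun σ τ => ?_, loc_two h1 h2 co,
      fun p _ => ?_⟩, fun g _ => ?_⟩
    · simp only [co, smul_add, map_nsmul]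
    · obtain ⟨w, hw⟩ := place p (emb ℚ ℚ_[p])
      obtain ⟨P, hP⟩ := hc.loc w
      refine ⟨pm _ (emb ℚ ℚ_[p]) (2 • ι P), fun σ τ h => ?_⟩
      beta_reduce
      rw [← pm_compat h, hP τ (hw σ τ h), map_sub, ← eqv, smul_sub, map_sub,
        map_nsmul (pm (Wd d) (τ : Om →+* Om))]
    · obtain ⟨i, hi⟩ := hc.tor
      refine ⟨i, ?_⟩
      change 2 ^ i • 2 • ι (c g) = 0
      rw [smul_comm, ← map_nsmul, hi, map_zero, smul_zero]
  · have hC : (fun g => ι (c g)) ∈ shaCocycles (Wd d) := hc.1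
    have co : ∀ g h, c (g * h) = c g + tac δ g (c h) := fun g h =>
      bij.1 (by rw [map_add, ← eqv]; exact hC.2.1 g h)
    refine ⟨sm_top_iff.2 ?_, co, ⟨i, hi⟩, fun w => ?_⟩
    · exact (hC.1.desc c ι bij.1 :)
    have := Fact.mk w.prime
    obtain ⟨P, hP⟩ := lal (splitQ hd) ℚ_[w.p] (KT.t_LAP.2 w.p) (fun g => ι (c g)) i
      (fun g => by rw [← map_nsmul, hi, map_zero]) (hC.2.2.2 w.p)
    obtain ⟨P, rfl⟩ := bij.2 P
    let w' : Pl := ⟨w.p, w.prime, (PadicAlgCl.valued w.p).v.comap (emb ℚ ℚ_[w.p]), by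
      rw [Valuation.comap_apply, map_natCast, ← one_div]
      exact PadicAlgCl.valuation_p w.p⟩
    refine TLOC2.LT.of_eq (w₂ := w') a_CP hF co ⟨P, fun g hg => bij.1 ?_⟩ rfl
    obtain ⟨σ, hσ⟩ := KT.t_DEC w.p w' rfl g hg
    rw [map_sub, ← eqv]
    exact hP σ g hσ

end Pool.Agent.P.MP_8b7eba_nt.R2.G.KV
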