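import Pool.Agent.P.MP_8b7eba_nt.R3.ATKZ

/-! The patched class vanishes if and only if the derived points are divisible. -/

set_option autoImplicit false

namespace Pool.Agent.P.MP_8b7eba_nt.R2.G

open scoped NNReal Matrix
open Filter Topology Polynomial Module TSPLIT

namespace KUn

variable {D : Dat} {H : Heeg D.toPrg D.a} {n : List (Kp D)} {v : KA}

theorem kolx (hF : CF) (hKTRIV : KTRIV) (hINVP : INVP) (hKPZ : KPZ) (hKLOC : KLOC)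
    (hKREL : KREL) (D : Dat) (H : Heeg D.toPrg D.a) :
    ∃ v : List (Kp D) → KA, (∀ n, Ok n → D.KD H n (v n)) ∧ D.Kol v := by
  have h0 : ∀ n : List (Kp D), ∃ v : KA, (∀ k g j, ‖v k g j‖ ≤ 1) ∧ (Ok n → D.KD H n v) := fun n => by
    by_cases h : Ok n
    · obtain ⟨v, hv⟩ := (hINVP D H n 0 h).2.2.2.2
      exact ⟨v, fun k => (hv k).2.1, fun _ => hv⟩
    · exact ⟨0, fun _ _ _ => by simp, fun h' => absurd h' h⟩
  choose v hb hv using h0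
  refine ⟨v, hv, hb, fun A _ _ _ _ ψ hψ n hn => ?_⟩
  obtain ⟨l1, l2, l3, l4⟩ := hKLOC D H n _ hn (hv n hn) A ψ hψ
  obtain ⟨r1, r2⟩ := hKREL D H n _ hn (hv n hn) A ψ hψ
  have hph : ∀ (l : Kp D) (x : GS → Fin 2 → A), D.nz ψ x l.ph = x l.ph := fun l x =>
    Dat.nz_of_triv (Dat.rS_ph hF.toCA hψ l 0).1 fun u => (Dat.rS_ph hF.toCA hψ l u).2
  refine ⟨⟨⟨((hKPZ D H n _ hn (hv n hn)).2 A ψ hψ).2.nzG hψ, fun g hg => if_neg hg,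
    Dat.nz_z hψ _, fun w g hg => ?_, fun w hw => ?_, fun l hl => (hph l _).trans (r1 l hl)⟩,
    fun g hg => ?_, fun g hg => ?_⟩, fun l hl => ?_⟩
  · exact (Dat.nz_of_triv (hg.mono fun k a => a.1.2)
      (Dat.rS_unr hF hψ (hg.mono fun k a => ⟨a.1, a.2.1⟩))).trans (l1 w g hg)
  · obtain ⟨u, hu⟩ := D.nz_eq (raw ψ (v n)) hψ
    obtain ⟨u', hu'⟩ := (l2 w hw).add (D.rep hψ) (y := fun g => rS (D.r ψ) g u - u) ⟨u, fun _ _ => rfl⟩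
    refine ⟨u', fun g hg => (hu g (S1_mono (w.I_le_D.trans (D.spD w ?_)) hg)).trans (hu' g hg)⟩
    exact ((Int.natCast_dvd_natCast.2 hw.1).trans (by norm_num)).mul_right _
  · exact (congrFun (Dat.ln_nz hψ hg) 1).trans (l3 g hg)
  · exact (congrFun (Dat.ln_xt_nz hF.toCB hψ hg) 1).trans (l4 g hg)
  · obtain ⟨t1, -, t2, -⟩ := hKTRIV D l A ψ hψ
    refine (Dat.nz_of_triv (t2.mono fun k a => a.2)
      (t1 _ (t2.mono fun k a => ⟨a.1.1, a.2⟩))).trans ((r2 l _ hl (hv _ hl)).trans ?_)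
    rw [Dat.kap, hph]

theorem level (hI : INVP) (hn : Ok n) (hv : D.KD H n v) {k M : ℕ} (hM : M ≤ k) :
    ∃ (Q : EO) (R : GQ → EO), 2 ^ M • Q = ∑ j, D.PP H n k j ∧ ∀ g ∈ D.GK,
      (∀ s ∈ H.N (D.ck n k), ac s (R g) = R g) ∧ (g ∈ H.N (D.ck n k) → R g = 0) ∧
      D.T.pt ((2 ^ M : ℚ_[2])⁻¹ • ∑ j ∈ Finset.range (2 ^ k), v k g j) =
        tac D.dm g Q - Q - R g := by
  obtain ⟨-, -, Q, R, h⟩ := hv k
  obtain ⟨⟨-, -, h1⟩, h2, -⟩ := hI D H n k hn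
  obtain ⟨i, rfl⟩ := Nat.exists_eq_add_of_le hM
  refine ⟨2 ^ i • ∑ j, Q j, fun g => 2 ^ i • ∑ j, R g j, ?_, fun g hg => ⟨fun s hs => ?_,
    fun e => ?_, ?_⟩⟩
  · rw [← mul_nsmul', ← pow_add, Finset.smul_sum, Finset.sum_congr rfl fun j _ => (h j).1]
  · rw [map_nsmul, map_sum, Finset.sum_congr rfl fun j _ => ((h j).2 g hg).1 s hs]
  · beta_reduce
    rw [Finset.sum_eq_zero fun j _ => ((h j).2 g hg).2.1 (by
      rw [(h1 g e).1, sub_zero, tac_apply, sd_eq_one.2 (h1 g e).2, one_smul, h2 j g e]), smul_zero]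
  · rw [show (2 ^ M : ℚ_[2])⁻¹ = ((2 ^ i : ℕ) : ℚ_[2]) * (2 ^ (M + i))⁻¹ by
      push_cast; rw [pow_add]; field_simp, mul_smul, Nat.cast_smul_eq_nsmul, map_nsmul, map_nsmul,
      ← smul_sub, ← smul_sub, sum_val, Finset.smul_sum, map_sum,
      Finset.sum_congr rfl fun j _ => ((h j).2 g hg).2.2,
      Finset.sum_sub_distrib, Finset.sum_sub_distrib, ← map_sum]
    exact congrArg (fun P => 2 ^ i • (tac D.dm g P - ∑ j, Q j - ∑ j, R g j))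
      (Equiv.sum_comp (Equiv.subRight (D.ak (M + i) g)) Q)

theorem pt_fin (u : V2) : ∃ i : ℕ, 2 ^ i • D.T.pt u = 0 := by
  obtain ⟨i, hi⟩ := pow_unbounded_of_one_lt ‖u‖ (one_lt_two (α := ℝ))
  exact ⟨i, D.T.pt_pow.2 hi.le⟩

theorem fin_of {P : EO} {i : ℕ} (h : 2 ^ i • P = 0) : IsOfFinAddOrder P :=
  isOfFinAddOrder_iff_nsmul_eq_zero.2 ⟨_, Nat.two_pow_pos i, h⟩

theorem n2 (M : ℕ) (u : V2) : ‖(2 ^ M : ℚ_[2])⁻¹ • u‖ = 2 ^ M * ‖u‖ := by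
  rw [norm_smul, norm_inv, norm_pow, Csum.norm_two, inv_pow, inv_inv]

theorem lim (hv : D.KD H n v) (g : GS) :
    Tendsto (fun k => ∑ j ∈ Finset.range (2 ^ k), v k (g k) j) UF (𝓝 (raw p1 v g)) :=
  (tendsto_raw isPsi_one (fun k => (hv k).2.1) g).congr fun k => by
    ext i
    simp

/-- if the patched class vanishes, the derived points are divisible -/
theorem una (hI : INVP) (hn : Ok n) (hv : D.KD H n v) (h0 : D.kap p1 v = 0) (M : ℕ) :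
    ∀ᶠ k in UF, ∃ Q : EO, (∀ s ∈ H.N (D.ck n k), ac s Q = Q) ∧
      IsOfFinAddOrder (∑ j, D.PP H n k j - 2 ^ M • Q) := by
  obtain ⟨u, hu⟩ := D.nz_eq (raw p1 v) isPsi_one
  have h1 : ∀ᶠ k in UF, ∀ g ∈ D.GK,
      ‖∑ j ∈ Finset.range (2 ^ k), v k g j - (D.r p1 g (-u) - -u)‖ ≤ (2 ^ M)⁻¹ := by
    refine ev_forall (H := fun _ => D.GK) (p := fun k g =>
      ‖∑ j ∈ Finset.range (2 ^ k), v k g j - (D.r p1 g (-u) - -u)‖ ≤ (2 ^ M)⁻¹) fun g hg =>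
      PatA.near (lim hv g) ?_ (by positivity)
    have e := hu g hg
    rw [show D.nz p1 (raw p1 v) = 0 from h0, Pi.zero_apply, eq_comm, add_eq_zero_iff_eq_neg] at e
    rw [e]
    refine (((rep D).tendsto g (tendsto_const_nhds (x := u))).sub_const u).neg.congr fun k => ?_
    rw [map_neg]
    abel
  filter_upwards [h1, ev_ge M] with k a1 a2
  obtain ⟨Q, R, b1, b2⟩ := level hI hn hv a2
  refine ⟨Q - D.T.pt ((2 ^ M : ℚ_[2])⁻¹ • -u), fun s hs => ?_, ?_⟩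
  · obtain ⟨-, c1, c2⟩ := b2 s (H.le _ hs)
    have c3 : D.T.pt ((2 ^ M : ℚ_[2])⁻¹ • ∑ j ∈ Finset.range (2 ^ k), v k s j) =
        D.T.pt ((2 ^ M : ℚ_[2])⁻¹ • (D.r p1 s (-u) - -u)) := by
      rw [D.T.pt_eq, ← smul_sub, n2, ← le_div_iff₀' (by positivity), one_div]
      exact a1 s (H.le _ hs)
    rw [c2, c1 hs, sub_zero, smul_sub, ← map_smul, map_sub, D.r_one, Tate.rq_apply, ← Tate.tgal,
      tac_apply, tac_apply, sd_eq_one.2 ((hI D H n k hn).1.2.2 s hs).2, one_smul, one_smul] at c3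
    rw [map_sub]
    exact sub_eq_sub_iff_sub_eq_sub.1 c3
  · obtain ⟨i, hi⟩ := pt_fin (D := D) ((2 ^ M : ℚ_[2])⁻¹ • -u)
    refine fin_of (i := i) ?_
    rw [smul_sub (2 ^ M), b1, sub_sub_cancel, smul_comm, hi, smul_zero]

/-- the torsion which is fixed by the commutators is bounded -/
theorem tors (D : Dat) : ∃ e : ℕ, ∀ (i : ℕ) (P : EO),
    (∀ g ∈ D.GK, ∀ h ∈ D.GK, ac (g * h * g⁻¹ * h⁻¹) P = P) → 2 ^ i • P = 0 → 2 ^ e • P = 0 := by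
  obtain ⟨g, hg, h, hh, hd⟩ := D.h0
  obtain ⟨C, hC, hL⟩ := PatA.bound (Matrix.toLin' (D.T.rho (g * h * g⁻¹ * h⁻¹) - 1)⁻¹)
  obtain ⟨e, he⟩ := pow_unbounded_of_one_lt C (one_lt_two (α := ℝ))
  refine ⟨e, fun i P hP h0 => ?_⟩
  obtain ⟨v, rfl⟩ := D.T.surj P i h0
  have h1 := hP g hg h hh
  rw [D.T.gal, D.T.pt_eq] at h1
  have h2 := hL ((D.T.rho (g * h * g⁻¹ * h⁻¹) - 1) *ᵥ v)
  rw [Matrix.toLin'_apply, Matrix.mulVec_mulVec, Matrix.nonsing_inv_mul _ (Ne.isUnit hd),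
    Matrix.one_mulVec, Matrix.sub_mulVec, Matrix.one_mulVec] at h2
  rw [D.T.pt_pow]
  exact h2.trans ((mul_le_of_le_one_right hC.le h1).trans he.le)

theorem level2 (hI : INVP) (hn : Ok n) (hv : D.KD H n v) {e : ℕ} (he : ∀ (i : ℕ) (P : EO),
    (∀ g ∈ D.GK, ∀ h ∈ D.GK, ac (g * h * g⁻¹ * h⁻¹) P = P) → 2 ^ i • P = 0 → 2 ^ e • P = 0)
    {k M : ℕ} (hM : M ≤ k) {Q' : EO}
    (h1 : ∀ g ∈ D.GK, ∀ h ∈ D.GK, ac (g * h * g⁻¹ * h⁻¹) Q' = Q')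
    (h2 : IsOfFinAddOrder (∑ j, D.PP H n k j - 2 ^ M • Q')) : ∃ u : V2, ‖u‖ ≤ 2 ∧ ∀ g ∈ D.GK,
      ‖(2 ^ e : ℚ_[2]) • ∑ j ∈ Finset.range (2 ^ k), v k g j - (D.r p1 g u - u)‖ ≤ (2 ^ M)⁻¹ := by
  obtain ⟨Q, R, b1, b2⟩ := level hI hn hv hM
  obtain ⟨m, hm, hm'⟩ := isOfFinAddOrder_iff_nsmul_eq_zero.1 h2
  obtain ⟨a, o, ho, rfl⟩ := Nat.exists_eq_two_pow_mul_odd hm.ne'
  have h3 : 2 ^ (a + M) • o • (Q - Q') = 0 := by
    rw [pow_add, mul_nsmul', smul_comm (2 ^ M), smul_sub (2 ^ M), b1, ← mul_nsmul', hm']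
  obtain ⟨u, hu⟩ := D.T.surj _ _ h3
  have n1 : ‖(o : ℚ_[2])‖ = 1 := Padic.norm_natCast_eq_one_iff.2 (Nat.coprime_two_left.2 ho)
  have n0 : (o : ℚ_[2]) ≠ 0 := norm_ne_zero_iff.1 (by rw [n1]; exact one_ne_zero)
  have n3 : ‖(2 ^ M : ℚ_[2]) * (o : ℚ_[2])⁻¹‖ = (2 ^ M)⁻¹ := by
    rw [norm_mul, norm_inv, n1, norm_pow, Csum.norm_two, inv_pow, inv_one, mul_one]
  have key : ∀ g ∈ D.GK, ‖(2 ^ e : ℚ_[2]) • ∑ j ∈ Finset.range (2 ^ k), v k g j -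
      (D.r p1 g (((2 ^ M : ℚ_[2]) * (o : ℚ_[2])⁻¹ * 2 ^ e) • u) -
        ((2 ^ M : ℚ_[2]) * (o : ℚ_[2])⁻¹ * 2 ^ e) • u)‖ ≤ (2 ^ M)⁻¹ := fun g hg => by
    obtain ⟨c1, -, c2⟩ := b2 g hg
    have c3 : D.T.pt ((o : ℚ_[2]) • (2 ^ M : ℚ_[2])⁻¹ • ∑ j ∈ Finset.range (2 ^ k), v k g j -
        (D.r p1 g u - u)) = o • (tac D.dm g Q' - Q' - R g) := by
      rw [Nat.cast_smul_eq_nsmul, map_sub, map_nsmul, map_sub, D.r_one, Tate.rq_apply, ← Tate.tgal,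
        hu, c2, map_nsmul, map_sub]
      module
    obtain ⟨i, hi⟩ := pt_fin (D := D) ((o : ℚ_[2]) • (2 ^ M : ℚ_[2])⁻¹ •
      ∑ j ∈ Finset.range (2 ^ k), v k g j - (D.r p1 g u - u))
    have c4 := he i _ (fun x hx y hy => by
      have m : ∀ x ∈ D.GK, g⁻¹ * x * g ∈ D.GK := fun x hx =>
        D.GK.mul_mem (D.GK.mul_mem (D.GK.inv_mem hg) hx) hg
      rw [c3, map_nsmul, map_sub, map_sub, h1 x hx y hy, c1 _ (H.ab _ x hx y hy), tac_apply,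
        map_zsmul, ← ac_mul, show x * y * x⁻¹ * y⁻¹ * g = g * ((g⁻¹ * x * g) * (g⁻¹ * y * g) *
          (g⁻¹ * x * g)⁻¹ * (g⁻¹ * y * g)⁻¹) by group, ac_mul, h1 _ (m x hx) _ (m y hy)]) hi
    rw [← map_nsmul, D.T.ker, ← Nat.cast_smul_eq_nsmul ℚ_[2], Nat.cast_pow, Nat.cast_ofNat] at c4
    have c5 : (2 ^ e : ℚ_[2]) = (2 ^ M : ℚ_[2]) * (o : ℚ_[2])⁻¹ * 2 ^ e * (o * (2 ^ M)⁻¹) := by
      field_simp
    rw [map_smul, ← smul_sub]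
    nth_rewrite 1 [c5]
    rw [mul_smul, mul_smul (o : ℚ_[2]), ← smul_sub, mul_smul, norm_smul, n3]
    exact mul_le_of_le_one_right (by positivity) c4
  refine ⟨_, ?_, key⟩
  generalize ((2 ^ M : ℚ_[2]) * (o : ℚ_[2])⁻¹ * 2 ^ e) • u = w at key
  have c1 := (key _ D.zK).trans (inv_le_one_of_one_le₀ (one_le_pow₀ one_le_two))
  rw [← rS_cs, Dat.rS_z isPsi_one, ← neg_add', ← two_smul ℚ_[2]] at c1
  have c2 : ‖(2 ^ e : ℚ_[2]) • ∑ j ∈ Finset.range (2 ^ k), v k D.z j‖ ≤ 1 := by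
    rw [norm_smul, norm_pow, Csum.norm_two]
    exact mul_le_one₀ (pow_le_one₀ (by norm_num) (by norm_num)) (norm_nonneg _)
      (IsUltrametricDist.norm_sum_le_of_forall_le_of_nonneg zero_le_one fun j _ => (hv k).2.1 _ j)
  have c3 := (IsUltrametricDist.norm_add_le_max _ (-_)).trans (max_le c1 (by rwa [norm_neg]))
  rw [← sub_eq_add_neg, sub_sub_cancel_left, neg_neg, norm_smul, Csum.norm_two] at c3
  linarith

/-- if the derived points are divisible, the patched class vanishes -/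
theorem unb (hI : INVP) (hn : Ok n) (hv : D.KD H n v) (h0 : ∀ M : ℕ, ∀ᶠ k in UF, ∃ Q : EO,
    (∀ g ∈ D.GK, ∀ h ∈ D.GK, ac (g * h * g⁻¹ * h⁻¹) Q = Q) ∧
      IsOfFinAddOrder (∑ j, D.PP H n k j - 2 ^ M • Q)) : D.kap p1 v = 0 := by
  classical
  have hR := rep D
  obtain ⟨e, he⟩ := tors D
  obtain ⟨i, i1, i2⟩ := ev_diag fun M => (ev_ge M).and (h0 M)
  have h3 : ∀ᶠ k in UF, ∃ u : V2, ‖u‖ ≤ 2 ∧ ∀ g ∈ D.GK, ‖(2 ^ e : ℚ_[2]) •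
      ∑ j ∈ Finset.range (2 ^ k), v k g j - (D.r p1 g u - u)‖ ≤ (2 ^ i k)⁻¹ := i2.mono fun k a => by
    obtain ⟨a1, Q, a2, a3⟩ := a _ le_rfl
    exact level2 hI hn hv he a1 a2 a3
  obtain ⟨u, hu⟩ := h3.choice
  have l2 := tendsto_ul (hu.mono fun k a => a.1)
  have h1 : Cob (S1 D.GK) (D.r p1) ((2 ^ e : ℚ_[2]) • raw p1 v) := by
    refine ⟨ul u, fun g hg => ?_⟩
    have a1 := (((lim hv g).const_smul (2 ^ e : ℚ_[2])).sub ((hR.tendsto g l2).sub l2)).norm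
    have a2 : Tendsto (fun k : ℕ => ((2 : ℝ) ^ i k)⁻¹) UF (𝓝 0) :=
      (tendsto_inv_atTop_zero.comp (tendsto_pow_atTop_atTop_of_one_lt one_lt_two)).comp i1
    have a3 := le_of_tendsto_of_tendsto a1 a2 ((Eventually.and hg hu).mono fun k a => a.2.2 _ a.1)
    rw [Pi.smul_apply]
    exact sub_eq_zero.1 (norm_le_zero_iff.1 a3)
  have h2 := h1.smul hR (2 ^ e : ℚ_[2])⁻¹
  rw [inv_smul_smul₀ (pow_ne_zero _ two_ne_zero)] at h2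
  have c4 : D.nz p1 (raw p1 v) = D.nz p1 0 := Dat.nz_congr isPsi_one (by rwa [sub_zero])
  rw [Dat.kap, c4, Dat.nz_self (x := 0) rfl fun _ _ => rfl]

end KUn

end Pool.Agent.P.MP_8b7eba_nt.R2.G
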