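import Pool.Agent.P.MP_8b7eba_nt.KV.Iface

/-! Step KPA. -/

set_option autoImplicit false

namespace Pool.Agent.P.MP_8b7eba_nt.R2.G.KV

open scoped Matrix
open MP_9c97e9_nt (Pt pm Is)
open Filter TSPLIT TINVP

namespace KPAc

open TKTRIV

variable {D : Dat} {k m : ℕ} {y : GQ}

theorem four (hy : y ∈ Zk D k) (hk : 1 ≤ k) : 4 ∣ (cyc y : ℤ_[2]) - 1 := by
  have h1 := hy.2.1 0 0
  have h2 := D.T.four y 0 0
  simp only [Matrix.sub_apply, Matrix.one_apply_eq, Matrix.of_apply, Matrix.cons_val',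
    Matrix.cons_val_zero, Matrix.cons_val_fin_one] at h1 h2
  have h3 : ((2 : ℝ) ^ (k + 1))⁻¹ ≤ 4⁻¹ := by
    rw [show (4 : ℝ) = 2 ^ 2 by norm_num]
    gcongr
    · norm_num
    · omega
  have h4 : ‖cq y - 1‖ ≤ 4⁻¹ := by
    rw [show cq y - 1 = (D.T.rho y 0 0 - 1) + -(D.T.rho y 0 0 - cq y) by ring]
    exact (IsUltrametricDist.norm_add_le_max _ _).trans
      (max_le (h1.trans h3) (by rwa [norm_neg]))
  have h5 := (PadicInt.norm_le_pow_iff_mem_span_pow ((cyc y : ℤ_[2]) - 1) 2).1 (by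
    rw [PadicInt.norm_def]
    refine le_trans (le_of_eq ?_) (h4.trans (le_of_eq (by norm_num)))
    simp [cq])
  rw [Ideal.mem_span_singleton] at h5
  refine dvd_trans (dvd_of_eq ?_) h5
  norm_num

theorem tors (hy : y ∈ Zk D k) (hm : m ≤ k) {P : EO} (hP : 2 ^ m • P = 0) : ac y P = P := by
  obtain ⟨u, rfl⟩ := D.T.surj P m hP
  rw [← map_nsmul, D.T.ker, ← Nat.cast_smul_eq_nsmul ℚ_[2], norm_smul, Nat.cast_pow,
    Nat.cast_ofNat, norm_pow, Csum.norm_two, inv_pow, inv_mul_le_iff₀ (by positivity),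
    mul_one] at hP
  rw [D.T.gal, D.T.pt_eq, show D.T.rho y *ᵥ u - u = (D.T.rho y - 1) *ᵥ u by
    rw [Matrix.sub_mulVec, Matrix.one_mulVec]]
  refine (pi_norm_le_iff_of_nonneg zero_le_one).2 fun i => ?_
  have h : ∀ j, ‖(D.T.rho y - 1) i j * u j‖ ≤ 1 := fun j => by
    rw [norm_mul]
    refine (mul_le_mul (hy.2.1 i j) ((norm_le_pi_norm u j).trans hP) (norm_nonneg _)
      (by positivity)).trans ?_
    rw [inv_mul_le_iff₀ (by positivity), mul_one]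
    gcongr
    · norm_num
    · omega
  rw [Matrix.mulVec, dotProduct, Fin.sum_univ_two]
  exact (IsUltrametricDist.norm_add_le_max _ _).trans (max_le (h 0) (h 1))

theorem grp {l c : ℕ} [Hl l] (a : RC l c) {n : ℕ} (h : a ^ (2 * n + 1) = 1) :
    (a ^ (n + 1))⁻¹ * a * (a ^ (n + 1))⁻¹ = 1 := by
  have e : (a ^ (n + 1))⁻¹ = a ^ n := inv_eq_of_mul_eq_one_right (G := RC l c) (by
    rw [← pow_add, ← h]
    congr 1
    ring)
  rw [e, ← pow_succ, ← pow_add, ← h]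
  congr 1
  ring

end KPAc

theorem t_KPA (hREPB : S_REPB) :
    S_KPA := by
  intro D hP l k m hk hm
  have hx := TKTRIV.frob a_CP l k
  have ht : tau ∉ D.GK := (a_CP.karith D.toPre).2.1
  have hc : 2 ^ (k + 2) ≠ 0 := by positivity
  have hA := isAr D.toPre hc
  obtain ⟨r, ⟨n, rfl⟩, hr⟩ := mem_Od'.1 ((hP k _ hx.1).2 ⟨hx.2.2.1, KPAc.four hx hk⟩)
  set x := tau * l.F k with hxd
  set g := x ^ (n + 1) with hgd
  have hg : g ∈ TKTRIV.Zk D k := pow_mem hx _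
  have e : tau * (g * l.F k * g⁻¹) = tau * g * tau⁻¹ * x * g⁻¹ := by rw [hxd]; group
  have hg' : tau * g * tau⁻¹ ∈ TKTRIV.Zk D k := (TKTRIV.on D k).1.conj_mem g hg tau
  have hy : tau * (g * l.F k * g⁻¹) ∈ TKTRIV.Zk D k := by
    rw [e]
    exact mul_mem (mul_mem hg' hx) (inv_mem hg)
  have ha : ar D.l (2 ^ (k + 2)) (tau * (g * l.F k * g⁻¹)) = 1 := by
    rw [e, hA.mul _ (mul_mem hg'.1 hx.1) _ (inv_mem hg.1), hA.mul _ hg'.1 _ hx.1,
      (hA.dih tau ht).2 g hg.1, THE1.ar_inv hA hg.1, hgd, THE1.ar_pow hA hx.1]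
    exact KPAc.grp _ hr
  have ha' : ar D.l (2 ^ m) (tau * (g * l.F k * g⁻¹)) = 1 := by
    rw [← hA.pr (2 ^ m) (pow_dvd_pow 2 (by omega)) _ hy.1, ha, map_one]
  have hF := (l.fr k).smul g
  refine ⟨(l.w k).prime, l.big k, (g • l.w k).v, g * l.F k * g⁻¹, tau, (g • l.w k).vp,
    Pl.mem_D.1 hF.1, fun z hz => by simpa using hF.2 z hz, a_CA.tau.1,
    (fx_iff D.hdm).2 hy.2.2.2, (fx_GK D.toPre).2 hy.1, fun P h => ?_⟩
  have key : ac (tau * (g * l.F k * g⁻¹)) P = P := by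
    rcases h with h | h
    · exact KPAc.tors hy hm h
    · obtain ⟨a, h | h⟩ := hREPB D.l (2 ^ m) (by positivity) P h
      · rw [h, ac_hp (by positivity) hy.1, ha', THE1.r3, THE1.r2]
      · rw [h, map_neg, ac_hp (by positivity) hy.1, ha', THE1.r3, THE1.r2]
  show ac (g * l.F k * g⁻¹) P = ac tau P
  conv_rhs => rw [← key, ← ac_mul, ← mul_assoc, a_CA.tau.2.1, one_mul]

end Pool.Agent.P.MP_8b7eba_nt.R2.G.KV
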