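import Pool.Agent.P.MP_8b7eba_nt.KV.Iface

/-! Step KPB. -/

set_option autoImplicit false

namespace Pool.Agent.P.MP_8b7eba_nt.R2.G.KV

open scoped Matrix
open MP_9c97e9_nt (Pt pm Is)
open Filter TSPLIT TINVP

namespace KPBc

theorem one (hHPI : S_HPI) (hREPA : S_REPA) (D : Dat) (hP : Pw D.toPre D.a) {k m q : ℕ}
    (hk : k + 2 ≤ m) (h : KV.KP D.l (rH D.l 1) D.m m q) :
    ∃ (w : Pl) (F t : GQ), w.p = q ∧ ¬ (w.p : ℤ) ∣ 30 * D.l * D.m ∧ w.IsFrob 1 F ∧ F ∉ D.GK ∧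
      t ∈ w.I ∧ (∀ β : Om, β ^ 2 = w.p → t β = -β) ∧
      (∀ i j, ‖(D.T.rho F - D.T.rho tau) i j‖ ≤ (2 ^ (k + 1))⁻¹) ∧ 2 ^ k ∣ D.a (tau * F) ∧
      (tau * F) D.dm = D.dm := by
  obtain ⟨hq, hn, v, σ, τ, hv, h1, h2, h3, h4, h5, h6⟩ := h
  obtain rfl : tau = τ := AlgEquiv.ext fun x => io.injective ((a_CA.tau.1 x).trans (h3 x).symm)
  have h7 : ∀ P : EO, 2 ^ m • P = 0 ∨ KV.Heeg D.l (rH D.l 1) (2 ^ m) P → ac σ P = ac tau P := h6
  have hK : tau * σ ∈ D.GK := (fx_GK D.toPre).1 h5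
  let w : Pl := ⟨q, hq, v, hv⟩
  obtain ⟨t, t1, t2⟩ := Pl.exists_gen a_CA.tame a_CA.res (w := w) fun e => hn (by
    rw [show q = 2 from e]; exact ⟨15 * D.l * D.m, by push_cast; ring⟩)
  refine ⟨w, σ, t, rfl, hn, ⟨Pl.mem_D.2 h1, fun x hx => by simpa using h2 x hx⟩,
    fun e => TLAY.tau_not a_CA D.toPre ((D.GK.mul_mem_cancel_right e).1 hK), t1, t2,
    fun i j => ?_, ?_, (fx_iff D.hdm).1 h4⟩
  · have e2 : ‖(2 : ℚ_[2])‖ = 2⁻¹ := by simpa using Padic.norm_p (p := 2)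
    have e := h7 (D.T.pt (Pi.single j ((2 : ℚ_[2]) ^ m)⁻¹)) (Or.inl (by
      rw [← map_nsmul, D.T.ker, ← Pi.single_smul', Pi.norm_single]
      simp))
    rw [D.T.gal, D.T.gal, D.T.pt_eq, ← Matrix.sub_mulVec] at e
    have e3 := (norm_le_pi_norm _ i).trans e
    rw [Matrix.mulVec_single] at e3
    simp only [Pi.smul_apply, MulOpposite.smul_eq_mul_unop, MulOpposite.unop_op, Matrix.col_apply,
      norm_mul, norm_inv, norm_pow, e2, inv_pow, inv_inv] at e3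
    rw [← le_div_iff₀ (by positivity), one_div] at e3
    exact e3.trans (inv_anti₀ (by positivity) (pow_le_pow_right₀ one_le_two (by omega)))
  · have hc : 2 ^ m ≠ 0 := by positivity
    have e := ac_hp hc hK 1
    rw [ac_mul, h7 _ (Or.inr (hREPA _ _ hc 1)), ← ac_mul, a_CA.tau.2.1] at e
    have e1 : (ar D.l (2 ^ m) (tau * σ))⁻¹ * 1 = 1 := hHPI _ _ hc (e.symm.trans (ac_one _))
    have e2 : ar D.l (2 ^ m) (tau * σ) = 1 := inv_eq_one.1 ((mul_one _).symm.trans e1)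
    refine ((hP k _ hK).1 ?_).1
    rw [← (isAr D.toPre hc).pr _ (pow_dvd_pow 2 hk) _ hK, e2, map_one]
    exact one_mem _

end KPBc

theorem t_KPB (hHPI : S_HPI) (hREPA : S_REPA) :
    S_KPB := by
  intro D hP r n m hm hc hK
  let e : ∀ k, Fin r ≃ n k := fun k => (Finset.equivFinOfCardEq (hc k)).symm
  choose w F t h0 h1 h2 h3 h4 h5 h6 h7 h8 using fun (i : Fin r) (k : ℕ) =>
    KPBc.one hHPI hREPA D hP (hm k) (hK k _ (e k i).2)
  refine ⟨List.ofFn fun i => ⟨w i, F i, t i, h1 i, h2 i, h3 i, h4 i, h5 i, h6 i, h7 i, h8 i⟩,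
    List.pairwise_ofFn.2 fun i j hij k h => hij.ne ((e k).injective (Subtype.ext ?_)),
    List.length_ofFn, fun k => Finset.ext fun q => ?_⟩
  · exact (h0 i k).symm.trans (h.trans (h0 j k))
  · rw [mem_fn]
    constructor
    · rintro ⟨l, hl, rfl⟩
      obtain ⟨i, rfl⟩ := List.mem_ofFn.1 hl
      exact (h0 i k).symm ▸ (e k i).2
    · intro hq
      exact ⟨_, List.mem_ofFn.2 ⟨(e k).symm ⟨q, hq⟩, rfl⟩, by
        simp only [h0, Equiv.apply_symm_apply]⟩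

end Pool.Agent.P.MP_8b7eba_nt.R2.G.KV
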