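import Pool.Agent.P.MP_8b7eba_nt.KV.Iface

/-! Step MAIN. -/

set_option autoImplicit false

namespace Pool.Agent.P.MP_8b7eba_nt.R2.G.KV

open scoped Matrix
open MP_9c97e9_nt (Pt pm Is)
open Filter TSPLIT TINVP

theorem t_MAIN (hPATCH : S_PATCH) (hKOLX : S_KOLX) (hNVX : S_NVX) (hEGA : S_EGA) (hEGB : S_EGB)
    (hE1 : S_E1) (hE2 : S_E2) (hSELA : S_SELA) (hSELB : S_SELB) : S_MAIN := by
  intro l d hy
  obtain ⟨w, hw⟩ := a_CA.pl.1 2 Nat.prime_two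
  obtain ⟨T⟩ := a_TATE w hw
  obtain ⟨dl, hdl⟩ := IsAlgClosed.exists_pow_nat_eq (d : Om) two_pos
  obtain ⟨sk, hsk⟩ := IsAlgClosed.exists_pow_nat_eq (-l : Om) two_pos
  obtain ⟨P, rfl, rfl, rfl, rfl, rfl⟩ := g_PRG w l d dl sk hw hy hdl hsk
  obtain ⟨a, ha, hp⟩ := a_ANT P.toPre
  obtain ⟨hS, H, hN, hY, hJ⟩ := g_HEX P a ha hp
  obtain ⟨D, rfl, rfl, -⟩ := g_DATX P T a ha hS
  obtain ⟨v, h1, h2⟩ := hKOLX D H
  obtain ⟨r, r1, r2, r3, r4⟩ := hPATCH D v h2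
    (t_LB a_CP (t_IW a_CP g_LAY g_IW0) (t_DESC a_CP g_LAY) D)
    (g_NV D H _ hJ (h1 [] List.Pairwise.nil))
  have nv := hNVX D H v ⟨hN, hY, hp⟩ h1
  have d2 : (D.dm * D.sk) ^ 2 = ((-D.l * D.m : ℤ) : Om) := by
    rw [mul_pow, D.hdm, D.hsk]; push_cast; ring
  have s2 : Squarefree (-D.l * D.m) := squarefree_mul_iff.2 ⟨(D.mcop.symm.neg_left).isRelPrime,
    (Nat.prime_iff_prime_int.1 D.lp).neg.squarefree, D.hy.sq⟩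
  have s1 := D.hy.sq
  refine ⟨rH D.l 1, ?_, r, ⟨(nv r).2 r1, fun s hs => ?_⟩, ?_, fun s hs => r4 s (hEGB D s ?_)⟩
  · obtain ⟨t, ht⟩ := Classical.epsilon_spec (TREP1.root D.l)
    have h4 := BSD15.qring_four (n := D.l)
    rw [rH]
    exact ⟨t, by push_cast at ht h4 ⊢; linear_combination 4 * ht - h4⟩
  · obtain ⟨n, n1, rfl, n2⟩ := (nv s).1 hs
    exact r2 n n1 n2
  · exact (hEGA D _ r3).imp
      (fun h => hSELB _ _ _ s1.ne_zero D.hdm (hE1 _ _ _ _ _ hw D.hdm s1.ne_zero h))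
      fun h => hSELB _ _ _ s2.ne_zero d2 (hE1 _ _ _ _ _ hw d2 s2.ne_zero h)
  · exact hs.imp (fun h => hE2 _ _ _ _ _ hw D.hdm s1 (hSELA _ _ _ s1.ne_zero D.hdm h))
      fun h => hE2 _ _ _ _ _ hw d2 s2 (hSELA _ _ _ s2.ne_zero d2 h)

end Pool.Agent.P.MP_8b7eba_nt.R2.G.KV
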