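import Pool.Agent.P.MP_8b7eba_nt.KV.Iface

/-! Step NVX. -/

set_option autoImplicit false

namespace Pool.Agent.P.MP_8b7eba_nt.R2.G.KV

open scoped Matrix
open MP_9c97e9_nt (Pt pm Is)
open Filter TSPLIT TINVP

theorem t_NVX (hUNA : S_UNA) (hUNB : S_UNB) (hZPP : S_ZPP) (hINV0 : S_INV0) (hTOW : S_TOW)
    (hDERA : S_DERA) (hDERB : S_DERB) (hKPA : S_KPA) (hKPB : S_KPB) : S_NVX := by
  intro D H v hS hv r
  have key : ∀ n, Ok n → ∀ k, 7 ≤ k → ∃ u : ℤ, ¬ 2 ^ 5 ∣ u ∧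
      ∑ j, D.PP H n k j - u • Z0 H n k ∈ DV D.toPre k := fun n hn k hk => by
    obtain ⟨j, h1, h2⟩ := ck_eq n hk
    rw [hZPP D H hS, h2]
    exact hTOW _ _ k _ j _ (pn_odd n k) (hS.wi n k) rfl (hINV0 D H hS n k hn) h1
  constructor
  · rintro ⟨M, h⟩
    choose n P h1 h2 h3 h4 using fun k => h (max M (k + 2)) (le_max_left _ _)
    obtain ⟨L, l1, l2, l3⟩ := hKPB D hS.2.2 r n _ (fun k => le_max_right _ _) h1 h2
    refine ⟨L, l1, l2, fun e => ?_⟩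
    obtain ⟨k, a1, a2, a3⟩ := ((hUNA D H L _ l1 (hv L l1) e (M + 4)).and
      ((ev_ge 7).and (ev_ge (M + 4)))).exists
    obtain ⟨u, b1, b2⟩ := key L l1 k a2
    refine h4 k ((dv_iff D.toPre).2 (hDERB D H hS L k _ M _ l1 (le_max_left _ _)
      (l3 k ▸ h3 k) (DV.div (e := 4) (ZW_mem _ (mul_ne_zero (cd_ne _) (pn_ne L k)) _) b1 ?_)))
    simpa using sub_mem a1 (DV.mono b2 a3)
  · rintro ⟨n, h1, rfl, h2⟩
    obtain ⟨M, h3⟩ := not_forall.1 fun e => h2 (hUNB D H n _ h1 (hv n h1) e)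
    refine ⟨M, fun m hm => ?_⟩
    obtain ⟨k, a1, a2, a3⟩ := ((ev_not.1 h3).and ((ev_ge 7).and (ev_ge m))).exists
    obtain ⟨u, -, b2⟩ := key n h1 k a2
    obtain ⟨P, c1, c2⟩ := hDERA D H hS n k m h1 a3
    refine ⟨fn n k, P, fn_card h1 k, fun q hq => ?_, c1, fun e => a1 ?_⟩
    · obtain ⟨l, -, rfl⟩ := mem_fn.1 hq
      exact hKPA D hS.2.2 l k m (by omega) a3
    · have d1 := sub_mem ((dv_iff D.toPre).1 e) (DV.mono c2 hm)
      rw [sub_sub_cancel] at d1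
      simpa using add_mem (DV.mono b2 (hm.trans a3)) (zsmul_mem d1 u)

end Pool.Agent.P.MP_8b7eba_nt.R2.G.KV
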