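import Pool.Agent.P.MP_8b7eba_nt.QT.DefS

/-! Heegner points on `X₀(15)`, Kolyvagin primes and derived points. -/

namespace Pool.Agent.P.MP_8b7eba_nt.KV

open MP_9c97e9_nt ModularForm WeierstrassCurve
open scoped NNReal ComplexConjugate

/-- The curve `Y² = X (X + 9) (X - 16)`, a model of `X₀(15)`. -/
def E : WeierstrassCurve ℤ := ⟨0, -7, 0, -144, 0⟩

/-- A fixed embedding of the algebraic numbers in the complex numbers. -/
noncomputable def io : Qb →+* ℂ :=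
  letI : Algebra ℚ Qb := AlgebraicClosure.instAlgebra ℚ
  (IsAlgClosed.lift : Qb →ₐ[ℚ] ℂ)

/-- `g` fixes the square roots of `a`. -/
def Fx (a : ℤ) (g : Gal ℚ) : Prop := ∀ s : Qb, s ^ 2 = a → g s = s

/-- `y` is, up to sign, a Heegner point of conductor `c` and orientation `ρ` for `ℚ(√-l)`: its
abscissa is the value of `4 η(3 z) η(5 z)⁵ / (η(z) η(15 z)⁵)` at the root `z` in the upper half
plane of a primitive positive form `(A, B, C)` of discriminant `-l c²` with `15 ∣ A` and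
`B ≡ c ρ` modulo `30`. -/
def Heeg (l : ℕ) (ρ : ℤ) (c : ℕ) (y : Pt E Qb) : Prop :=
  ∃ (A B C : ℤ) (z : ℂ) (X Y : Qb) (h : (E⁄Qb).toAffine.Nonsingular X Y), y = .some X Y h ∧
    0 < A ∧ 15 ∣ A ∧ 30 ∣ B - c * ρ ∧ B ^ 2 - 4 * A * C = -l * c ^ 2 ∧
    Int.gcd A (Int.gcd B C) = 1 ∧ 0 < z.im ∧ A * z ^ 2 + B * z + C = 0 ∧
    io X = 4 * (eta (3 * z) * eta (5 * z) ^ 5 / (eta z * eta (15 * z) ^ 5))

open Classical in
/-- Kolyvagin primes of level `m`: a Frobenius element `σ` at a place above `q` acts as the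
complex conjugation `τ` on `√d`, `√-l`, the points killed by `2 ^ m` and the Heegner points of
conductor `2 ^ m`. -/
def KP (l : ℕ) (ρ d : ℤ) (m q : ℕ) : Prop :=
  q.Prime ∧ ¬ (q : ℤ) ∣ 30 * l * d ∧ ∃ (v : Valuation Qb ℝ≥0) (σ τ : Gal ℚ),
    v q = (q : ℝ≥0)⁻¹ ∧ (∀ x, v (σ x) = v x) ∧ (∀ x, v x ≤ 1 → v (σ x - x ^ q) < 1) ∧
    (∀ x, io (τ x) = conj (io x)) ∧ Fx d (τ * σ) ∧ Fx (-l) (τ * σ) ∧
    ∀ P, 2 ^ m • P = 0 ∨ Heeg l ρ (2 ^ m) P → pm E σ P = pm E (τ : Qb →+* Qb) P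

open Classical in
/-- `P` is a derived Heegner point of level `m` for the set of primes `n`, twisted by the
quadratic character of `ℚ(√d)`: `y` is a Heegner point of conductor `|disc ℚ(√d)| ∏ n`, the set
`S` represents the Galois group of `ℚ(√-l)` modulo the stabiliser of `y`, and `lam q` is a
homomorphism of that group onto `ℤ / 2 ^ m` which factors through the ring class field of
conductor `q`. -/
def Der (l : ℕ) (ρ d : ℤ) (m : ℕ) (n : Finset ℕ) (P : Pt E Qb) : Prop :=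
  ∃ (y : Pt E Qb) (S : Finset (Gal ℚ)) (lam : ℕ → Gal ℚ → ZMod (2 ^ m)),
    Heeg l ρ ((if d % 4 = 1 then d else 4 * d).natAbs * ∏ q ∈ n, q) y ∧ (∀ s ∈ S, Fx (-l) s) ∧
    (∀ g, Fx (-l) g → ∃! s, s ∈ S ∧ pm E s y = pm E (g : Qb →+* Qb) y) ∧
    (∀ q ∈ n, (∀ g h, Fx (-l) g → Fx (-l) h → lam q (g * h) = lam q g + lam q h) ∧
      (∃ g, Fx (-l) g ∧ lam q g = 1) ∧
      ∀ g, Fx (-l) g → (∀ x, Heeg l ρ q x → pm E g x = x) → lam q g = 0) ∧
    P = ∑ s ∈ S, ((if Fx d s then 1 else -1 : ℤ) * (∏ q ∈ n, lam q s).val) • pm E s y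

open Classical in
/-- The Kolyvagin system does not vanish on the products of `r` primes: for some `M` and all
`m ≥ M` there is a derived point `P` of level `m` for `r` Kolyvagin primes of level `m` which is
not the sum of a torsion point and `2 ^ M` times a point over the maximal abelian extension of
`ℚ(√-l)`. -/
def NV (l : ℕ) (ρ d : ℤ) (r : ℕ) : Prop :=
  ∃ M : ℕ, ∀ m, M ≤ m → ∃ (n : Finset ℕ) (P : Pt E Qb), n.card = r ∧ (∀ q ∈ n, KP l ρ d m q) ∧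
    Der l ρ d m n P ∧ ¬ ∃ Q : Pt E Qb,
      (∀ g h : Gal ℚ, Fx (-l) g → Fx (-l) h → pm E (g * h * g⁻¹ * h⁻¹ : Gal ℚ) Q = Q) ∧
      IsOfFinAddOrder (P - 2 ^ M • Q)

/-- The `2^∞`-Selmer group has corank at least `r`. -/
def Cork (W : WeierstrassCurve ℤ) (r : ℕ) : Prop :=
  ∀ k : ℕ, ∃ φ : (Fin r → ZMod (2 ^ k)) →+ QT.Sel W, Function.Injective φ

end Pool.Agent.P.MP_8b7eba_nt.KV
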