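import Pool.Agent.P.MP_8b7eba_nt.R3.ACREP1
import Pool.Agent.P.MP_8b7eba_nt.R3.ACREP2
import Pool.Agent.P.MP_8b7eba_nt.R2.Csum
import Pool.Agent.P.MP_8b7eba_nt.KV.Defs

/-! The Heegner points of the statement are those attached to ideal classes, up to sign. -/

set_option autoImplicit false

namespace Pool.Agent.P.MP_8b7eba_nt.R2.G.KRep

open BSD15 (OO nm cj Adm)
open R1 (QF Hg emb)
open MP_9c97e9_nt (pm Is)
open _root_.Pool.Agent.P.MP_8b7eba_nt.Mod (M2 G0 mT xx)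

open TREP1 in
theorem form (l : ℕ) [Hl l] {m : ℕ} (hm0 : m ≠ 0) {I : Ideal (OO l)} (hI : Ad m I) :
    ∃ Q, Hg (l * m ^ 2) (rH l m) Q ∧ Q.tau = hz m I ∧ ∃ s t, Q.ev s t = nm I := by
  have hr := Classical.epsilon_spec (root l)
  have h4 := BSD15.qring_four (n := l)
  have hn15 := (nI_spec (l := l)).2.2.1
  have hres := fun z => res15 hr (z := z)
  rw [rH]
  unfold nI at hn15
  have hat := fun I : Ideal (OO l) => at_hz (l := l) (c := m) (I := I) ⟨hm0, trivial⟩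
  unfold nI at hat
  generalize (Classical.epsilon _ : ℤ) = r at hr hn15 hres hat ⊢
  generalize Ideal.span {((15 : ℕ) : OO l), (⟨-r, 1⟩ : OO l)} = n15 at hn15 hres hat
  obtain ⟨a, b, h1, h2, h3⟩ := hat I hI
  obtain ⟨x, hx, mx, rfl⟩ := mem_Lc.1 h1.left.1
  obtain ⟨y, hy, my, rfl⟩ := mem_Lc.1 h2.left.2
  have hN0 : nm I ≠ 0 := fun h => hI.1 (BSD15.nm_eq_zero.1 h)
  have hN : (0 : ℤ) < nm I := by exact_mod_cast Nat.pos_of_ne_zero hN0
  obtain ⟨C, hC⟩ := BSD15.nm_dvd_norm hx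
  obtain ⟨A', hA'⟩ := BSD15.nm_dvd_norm hy
  rw [BSD15.nm_mul, hn15] at hA'
  obtain ⟨A, hA15, hA⟩ : ∃ A : ℤ, 15 ∣ A ∧ y.norm = nm I * A :=
    ⟨15 * A', dvd_mul_right _ _, by rw [hA']; push_cast; ring⟩
  have hy0 : y ≠ 0 := fun h => h1.ne.1 (by rw [h]; exact map_zero (R1.embH l))
  have hA0 : 0 < A := by
    have h5 := (BSD15.norm_nonneg' y).lt_of_ne' fun h => hy0 (BSD15.norm_eq_zero'.1 h)
    rw [hA] at h5
    exact (mul_pos_iff_of_pos_left hN).1 h5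
  obtain ⟨γ, hγ, e⟩ : ∃ γ ∈ cj n15, (nm I : OO l) * γ = x * star y := by
    rw [← Ideal.mem_span_singleton_mul, ← BSD15.mul_cj, mul_assoc, ← BSD15.cj_mul]
    exact Ideal.mul_mem_mul hx (BSD15.mem_cj.2 (by rwa [star_star]))
  have hAc : (A : ℂ) ≠ 0 := by exact_mod_cast hA0.ne'
  have hτ : emb l x / emb l y = emb l γ / A := by
    have h5 : emb l (x * star y * y) = emb l ((nm I : OO l) * γ * y) := by rw [e]
    rw [mul_assoc, mul_comm (star y), BSD15.qbasic_mul_star, hA, CMA.emb_mul, CMA.emb_mul,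
      CMA.emb_mul, CMA.emb_nat,
      show emb l ((nm I * A : ℤ) : OO l) = (nm I * A : ℤ) from map_intCast (R1.embH l) _] at h5
    rw [div_eq_div_iff h1.ne.1 hAc]
    refine mul_left_cancel₀ (show (nm I : ℂ) ≠ 0 by exact_mod_cast hN0) ?_
    push_cast at h5
    linear_combination h5
  have him : 0 < γ.im := by
    have h5 := h1.1
    rw [hτ, Complex.div_intCast_im, emb_im] at h5
    have h6 : (0 : ℝ) < A := by exact_mod_cast hA0
    have h7 := (div_pos_iff_of_pos_right h6).1 h5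
    have h8 : (0 : ℝ) < √l / 2 := by
      have := (Hl.lp (l := l)).pos
      positivity
    exact_mod_cast (mul_pos_iff_of_pos_right h8).1 h7
  have hγm := gam_im hI h1 mx my e.symm him
  have hno : γ.norm = A * C := by
    have h5 := congrArg QuadraticAlgebra.norm e
    rw [map_mul, map_mul, QuadraticAlgebra.norm_star, QuadraticAlgebra.norm_natCast, hC, hA] at h5
    refine mul_left_cancel₀ (pow_ne_zero 2 hN.ne') ?_
    linear_combination h5
  have hD : QF.disc ⟨A, -(2 * γ.re + γ.im), C⟩ = -((l * m ^ 2 : ℕ) : ℤ) := by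
    have h5 := BSD15.four_mul_norm γ
    rw [hno] at h5
    simp only [QF.disc]
    push_cast
    rw [← hγm]
    linear_combination -h5
  have hlm : (0 : ℤ) < ((l * m ^ 2 : ℕ) : ℤ) := by
    have h5 := (Hl.lp (l := l)).pos
    have h6 := Nat.pos_of_ne_zero hm0
    positivity
  have hLv : R1.Lv (-((l * m ^ 2 : ℕ) : ℤ)) (m * (1 - 2 * r)) ⟨A, -(2 * γ.re + γ.im), C⟩ := by
    refine ⟨hD, hA15, ?_⟩
    obtain ⟨t, ht⟩ := hres _ (BSD15.mem_cj.1 hγ)
    rw [QuadraticAlgebra.re_star, QuadraticAlgebra.im_star] at ht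
    refine ⟨-t, ?_⟩
    rw [← hγm]
    linear_combination -2 * ht
  refine ⟨⟨A, -(2 * γ.re + γ.im), C⟩, ⟨hLv, hA0⟩, ?_, ?_⟩
  · rw [h3]
    refine (QF.eq_tau hA0 (by rw [hD]; linarith) h1.1 ?_).symm
    have h5 := emb_quad γ
    rw [hno] at h5
    rw [hτ]
    push_cast at h5 ⊢
    field_simp
    linear_combination h5
  · obtain ⟨s, t, e1, e2⟩ := basis h1 (CMA.nm_mem I)
      (by rw [QuadraticAlgebra.im_natCast]; exact dvd_zero _)
    rw [QuadraticAlgebra.re_natCast] at e1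
    rw [QuadraticAlgebra.im_natCast] at e2
    have hev : QF.ev ⟨A, -(2 * γ.re + γ.im), C⟩ t (-s) = nm I := by
      have h5 := congrArg QuadraticAlgebra.re e
      have h6 := congrArg QuadraticAlgebra.im e
      rw [re_nat] at h5
      rw [CMA.im_nat, im_star] at h6
      rw [QuadraticAlgebra.norm_def] at hC hA
      simp only [QuadraticAlgebra.re_mul, QuadraticAlgebra.re_star, QuadraticAlgebra.im_star] at h5
      refine mul_left_cancel₀ hN.ne' ?_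
      simp only [QF.ev]
      have h7 : (nm I : ℤ) * nm I = (s * x.re + t * y.re) ^ 2 +
          (s * x.re + t * y.re) * (s * x.im + t * y.im) +
          (((l + 1) / 4 : ℕ) : ℤ) * (s * x.im + t * y.im) ^ 2 := by
        rw [← e1, ← e2]; ring
      linear_combination -h7 - t ^ 2 * hA - s ^ 2 * hC + s * t * (2 * h5 + h6)
    exact ⟨t, -s, hev⟩

theorem ideal (l : ℕ) [Hl l] {m : ℕ} (hm : m ≠ 0) {Q : QF} (hQ : Hg (l * m ^ 2) (rH l m) Q)
    (h0 : Int.gcd Q.A (Int.gcd Q.B Q.C) = 1) :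
    ∃ I : Ideal (OO l), Ad m I ∧ ∃ g, G0 g ∧ g.act (hz m I) = Q.tau := by
  have hD : Q.disc = -((l * m ^ 2 : ℕ) : ℤ) := hQ.1.1
  have h2 : 0 < l * m ^ 2 := Nat.mul_pos Hl.lp.pos (pow_pos (Nat.pos_of_ne_zero hm) 2)
  obtain ⟨b, hb⟩ := ACREP2.move hm hD hQ.1.2.1 fun p hp h3 h4 h5 => by
    have hB : (p : ℤ) ∣ Q.B := by
      refine (Nat.prime_iff_prime_int.1 hp).dvd_of_dvd_pow (n := 2) ?_
      rw [show Q.B ^ 2 = Q.C * (4 * Q.A) - l * m ^ 2 by
        rw [QF.disc] at hD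
        push_cast at hD
        linear_combination hD]
      exact dvd_sub (h5.mul_right _)
        ((dvd_pow (Int.natCast_dvd_natCast.2 h3) two_ne_zero).mul_left _)
    have h6 := Int.dvd_gcd h4 (Int.natCast_dvd_natCast.2 (Int.dvd_gcd hB h5))
    rw [h0] at h6
    exact hp.ne_one (Nat.dvd_one.1 h6)
  have hd : Q.disc < 0 := by omega
  have hg := Mod.G0_mT b
  have hQ' : Hg (l * m ^ 2) (rH l m) (Q.cmp (mT b)) := by
    refine ⟨⟨by rw [QF.disc_cmp, hg.1, hD]; ring, by simpa [QF.cmp, QF.ev, mT] using hQ.1.2.1,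
      ?_⟩, QF.cmp_A_pos hQ.2 hd hg.det_pos.ne'⟩
    obtain ⟨a, ha⟩ := hQ.1.2.1
    obtain ⟨w, hw⟩ := hQ.1.2.2
    refine ⟨w + a * b, ?_⟩
    simp only [QF.cmp, mT]
    linear_combination hw + 2 * b * ha
  obtain ⟨I, hI, g, g1, g2⟩ := ACREP2.step hm hQ' hb
  refine ⟨I, hI, mT b * g, hg.mul g1, ?_⟩
  rw [M2.act_mul hg.det_pos.ne' g1.det_pos (at_hz ⟨hm, trivial⟩ hI).im, g2,
    QF.act_tau hQ.2 hd hg.det_pos]

theorem pm_of_is {P Q : EO} {x η η' : Om} (h : Is P x η) (h' : Is Q x η') : P = Q ∨ P = -Q := by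
  rcases sq_eq_sq_iff_eq_or_eq_neg.1 ((h.eq split15).trans (h'.eq split15).symm) with rfl | rfl
  · exact .inl (h.unique split15 h')
  · exact .inr (h.unique split15 h'.neg)

theorem heeg_iff (hT : TAU) (l : ℕ) [Hl l] {c : ℕ} (hc : c ≠ 0) (y : EO) :
    KV.Heeg l (rH l 1) c y ↔ ∃ a : RC l c, y = HP a ∨ y = -HP a := by
  have e0 : (c : ℤ) * rH l 1 = rH l c := by simp [rH]
  have h2 : 0 < l * c ^ 2 := Nat.mul_pos Hl.lp.pos (pow_pos (Nat.pos_of_ne_zero hc) 2)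
  constructor
  · rintro ⟨A, B, C, z, X, Y, h, rfl, h1, h3, h4, h5, h6, h7, h8, h9⟩
    have hD : QF.disc ⟨A, B, C⟩ = -((l * c ^ 2 : ℕ) : ℤ) := by
      rw [QF.disc]
      push_cast
      linear_combination h5
    obtain ⟨I, hI, g, g1, g2⟩ := ideal l hc (Q := ⟨A, B, C⟩) ⟨⟨hD, h3, e0 ▸ h4⟩, h1⟩ h6
    obtain ⟨-, η, hη⟩ := is_HP hT ⟨hc, trivial⟩ (cl c I)
    have e1 : X = 4 * XO (cl c I) := io.injective (by
      rw [map_mul, map_ofNat, XO_cl hT ⟨hc, trivial⟩ hI,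
        ← Mod.xx_inv g g1 _ (at_hz ⟨hc, trivial⟩ hI).im, g2,
        ← QF.eq_tau (Q := ⟨A, B, C⟩) h1 (by omega) h7 h8]
      exact h9)
    exact ⟨_, pm_of_is ⟨Y, h, rfl, rfl⟩ (e1 ▸ hη)⟩
  · rintro ⟨a, ha⟩
    obtain ⟨hI, e⟩ := rp_spec a
    obtain ⟨⟨A, B, C⟩, ⟨⟨hD, h3, h4⟩, h1⟩, h5, s, t, h6⟩ := form l hc hI
    obtain ⟨-, η, hη⟩ := is_HP hT ⟨hc, trivial⟩ a
    obtain ⟨η', Y, h, rfl, -⟩ : ∃ η', Is y (4 * XO a) η' :=
      ha.elim (fun e => ⟨_, e ▸ hη⟩) fun e => ⟨_, e ▸ hη.neg⟩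
    have hd : QF.disc ⟨A, B, C⟩ < 0 := by omega
    refine ⟨A, B, C, _, _, Y, h, rfl, h1, h3, e0 ▸ h4, ?_, ?_, QF.tau_im_pos h1 hd,
      QF.tau_root h1 hd, ?_⟩
    · rw [QF.disc] at hD
      push_cast at hD
      linear_combination hD
    · refine Nat.coprime_of_dvd fun p hp h2 h3 => ?_
      have a4 : (p : ℤ) ∣ A := Int.natCast_dvd.2 h2
      have a5 : (p : ℤ) ∣ (Int.gcd B C : ℤ) := Int.natCast_dvd.2 h3
      have a6 := a5.trans (Int.gcd_dvd_left _ _)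
      have a7 := a5.trans (Int.gcd_dvd_right _ _)
      have a8 : ¬ p ∣ c := fun a => hp.ne_one (Nat.eq_one_of_dvd_coprimes hI.2 (by
        rw [← Int.natCast_dvd_natCast, ← h6, QF.ev]
        exact dvd_add (dvd_add (a4.mul_right _) ((a6.mul_right _).mul_right _)) (a7.mul_right _)) a)
      have a9 : ((p ^ 2 : ℕ) : ℤ) ∣ ((l * c ^ 2 : ℕ) : ℤ) := by
        rw [← dvd_neg, ← hD, QF.disc, Nat.cast_pow, mul_assoc]
        exact dvd_sub (pow_dvd_pow_of_dvd a6 2) ((sq (p : ℤ) ▸ mul_dvd_mul a4 a7).mul_left _)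
      have a10 : p ^ 2 ∣ l := (Nat.Coprime.pow 2 2 ((Nat.Prime.coprime_iff_not_dvd hp).2 a8)
        ).dvd_of_dvd_mul_right (Int.natCast_dvd_natCast.1 a9)
      exact hp.not_isUnit ((Hl.lp (l := l)).prime.squarefree p (sq p ▸ a10))
    · have e1 := XO_cl hT ⟨hc, trivial⟩ hI
      rw [e, ← h5] at e1
      exact (map_mul io _ _).trans (by rw [map_ofNat, e1]; rfl)

end Pool.Agent.P.MP_8b7eba_nt.R2.G.KRep
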