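import Pool.Agent.P.MP_8b7eba_nt.KV.Iface

/-! Step SELA. -/

set_option autoImplicit false

namespace Pool.Agent.P.MP_8b7eba_nt.R2.G.KV

open scoped Matrix
open MP_9c97e9_nt (Pt pm Is)
open Filter TSPLIT TINVP

namespace SELAc

theorem sub_cob {δ : Om} (hδ : Fix ⊤ (δ ^ 2)) {c : GQ → EO} (h : SelC δ c) (Q : EO) {k : ℕ}
    (hk : ∀ g, 2 ^ k • (c g - (tac δ g Q - Q)) = 0) :
    SelC δ fun g => c g - (tac δ g Q - Q) := by
  refine ⟨h.sm.comp₂ (d := fun g => tac δ g Q) ?_ fun a b => a - (b - Q), fun g s => ?_, ⟨k, hk⟩,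
    fun w => ?_⟩
  · obtain ⟨N, hN, e⟩ := exists_ON_ac {Q}
    obtain ⟨N', hN', e'⟩ := exists_ON_fix {δ}
    refine ⟨_, hN.inf hN', fun g _ n _ hn => ?_⟩
    beta_reduce
    rw [tac_mul hδ, tac_apply δ n, sd_eq_one.2 (e' δ (by simp) n hn.2), one_smul,
      e Q (by simp) n hn.1]
  · rw [h.co, tac_mul hδ, map_sub, map_sub]
    abel
  · obtain ⟨P, hP⟩ := h.loc w
    refine ⟨P - Q, fun g hg => ?_⟩
    rw [hP g hg, map_sub]
    abel

end SELAc

theorem t_SELA (hIOT : S_IOT) :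
    S_SELA := by
  classical
  intro d δ r hd hδ hC k
  obtain ⟨ι, hι, hs⟩ := hIOT d δ hd hδ
  have hf : Fix ⊤ (δ ^ 2) := hδ ▸ fix_int d
  obtain ⟨φ, hφ⟩ := hC k
  let mk : QT.selCocycles (Wd d) →+ QT.Sel (Wd d) := QuotientAddGroup.mk' _
  have hker : ∀ C : QT.selCocycles (Wd d), mk C = 0 ↔
      ∃ (R : EO) (j : ℕ), 2 ^ j • R = 0 ∧ ∀ g, ι.symm (C.1 g) = tac δ g R - R := by
    intro C
    refine (QuotientAddGroup.eq_zero_iff C).trans ?_
    rw [AddSubgroup.mem_addSubgroupOf, QT.torCob, AddSubgroup.mem_map]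
    constructor
    · rintro ⟨R, hR, e⟩
      obtain ⟨j, hj⟩ := AddCommGroup.mem_primaryComponent.1 hR
      refine ⟨ι.symm R, j, by rw [← map_nsmul, hj, map_zero], fun g => ι.injective ?_⟩
      rw [map_sub, ← hι, ι.apply_symm_apply, ι.apply_symm_apply, ← e]
      rfl
    · rintro ⟨R, j, hj, e⟩
      refine ⟨ι R, AddCommGroup.mem_primaryComponent.2 ⟨j, by rw [← map_nsmul, hj, map_zero]⟩,
        funext fun g => ?_⟩
      rw [← ι.apply_symm_apply (C.1 g), e, map_sub, ← hι]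
      rfl
  have h1 : ∀ i : Fin r, ∃ (C : QT.selCocycles (Wd d)) (Q : EO) (j : ℕ),
      mk C = φ (Pi.single i 1) ∧ 2 ^ j • Q = 0 ∧
      ∀ g, 2 ^ k • (ι.symm (C.1 g) - (tac δ g Q - Q)) = 0 := by
    intro i
    obtain ⟨C, hC⟩ := QuotientAddGroup.mk'_surjective _ (φ (Pi.single i 1))
    have h0 : mk (2 ^ k • C) = 0 := by
      rw [map_nsmul, show mk C = _ from hC, ← map_nsmul, ← map_zero φ]
      congr 1
      funext s
      rw [Pi.smul_apply, nsmul_eq_mul, ZMod.natCast_self, zero_mul, Pi.zero_apply]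
    obtain ⟨R, j, hj, e⟩ := (hker _).1 h0
    obtain ⟨Q, rfl⟩ := exists_div R k
    refine ⟨C, Q, j + k, hC, by rw [pow_add, mul_nsmul', hj], fun g => ?_⟩
    have := e g
    rw [AddSubgroupClass.coe_nsmul, Pi.smul_apply, map_nsmul, map_nsmul] at this
    rw [smul_sub, this, smul_sub, sub_self]
  choose C Q j e1 e2 e3 using h1
  refine ⟨fun i g => ι.symm ((C i).1 g) - (tac δ g (Q i) - Q i), fun i => ⟨?_, e3 i⟩, ?_⟩
  · refine SELAc.sub_cob hf (hs _ |>.2 ?_ ⟨j i + k, fun g => ?_⟩) _ (e3 i)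
    · simp
    · have := e3 i g
      rw [smul_sub, sub_eq_zero] at this
      rw [pow_add, mul_nsmul', this, smul_comm, smul_sub, ← map_nsmul, e2, map_zero, sub_zero,
        smul_zero]
  · intro a R m hm h i
    have h0 : mk (∑ i, a i • C i) = 0 := by
      refine (hker _).2 ⟨R + ∑ i, a i • Q i, m + ∑ i, j i, ?_, fun g => ?_⟩
      · rw [smul_add, pow_add, mul_nsmul, hm, smul_zero, zero_add, Finset.smul_sum]
        refine Finset.sum_eq_zero fun s _ => ?_
        obtain ⟨t, ht⟩ := Nat.exists_eq_add_of_le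
          (Finset.single_le_sum (f := j) (fun _ _ => Nat.zero_le _) (Finset.mem_univ s))
        rw [smul_comm, ht, mul_comm, pow_add, mul_assoc, mul_nsmul, e2, smul_zero, smul_zero]
      · have := h g
        simp only [smul_sub, Finset.sum_sub_distrib] at this
        rw [AddSubgroup.val_finsetSum, Finset.sum_apply, map_sum, map_add, map_sum]
        simp only [AddSubgroupClass.coe_zsmul, Pi.smul_apply, map_zsmul]
        rw [sub_eq_iff_eq_add] at this
        rw [this]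
        abel
    have h2 : φ (fun s => (a s : ZMod (2 ^ k))) = 0 := by
      rw [← h0, map_sum]
      simp only [map_zsmul, e1]
      simp only [← map_zsmul, ← map_sum]
      congr 1
      funext s
      simp [Finset.sum_apply, Pi.single_apply]
    have h3 := congrFun (hφ (h2.trans (map_zero φ).symm)) i
    exact_mod_cast (ZMod.intCast_zmod_eq_zero_iff_dvd (a i) (2 ^ k)).1 h3

end Pool.Agent.P.MP_8b7eba_nt.R2.G.KV
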