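import Pool.Agent.P.MP_8b7eba_nt.KV.Iface

/-! Step SELB. -/

set_option autoImplicit false

namespace Pool.Agent.P.MP_8b7eba_nt.R2.G.KV

open scoped Matrix
open MP_9c97e9_nt (Pt pm Is)
open Filter TSPLIT TINVP

namespace SELBc

end SELBc

open Classical in
theorem t_SELB (hIOT : S_IOT) (hSNF : S_SNF) :
    S_SELB := by
  intro d δ r hd hδ h k
  obtain ⟨ι, eqv, mem⟩ := hIOT d δ hd hδ
  obtain ⟨c, hc, hI⟩ := h (k + 1)
  let C : Fin r → QT.selCocycles (Wd d) := fun i => ⟨fun g => 2 • ι (c i g), (mem _).1 (hc i)⟩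
  let π : QT.selCocycles (Wd d) →+ QT.Sel (Wd d) := QuotientAddGroup.mk' _
  refine hSNF (QT.Sel (Wd d)) r k (fun i => π (C i)) (fun i => π.isOfFinAddOrder ?_)
    fun a ha i => ?_
  · obtain ⟨j, hj⟩ := (hc i).tor
    refine isOfFinAddOrder_iff_nsmul_eq_zero.2 ⟨2 ^ j, by positivity, Subtype.ext (funext fun g => ?_)⟩
    change 2 ^ j • 2 • ι (c i g) = 0
    rw [smul_comm, ← map_nsmul, hj, map_zero, smul_zero]
  · have h1 : π (∑ i, a i • C i) = 0 := by
      rw [map_sum]
      simpa only [map_zsmul] using ha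
    obtain ⟨R, hR, e⟩ := AddSubgroup.mem_addSubgroupOf.1 ((QuotientAddGroup.eq_zero_iff _).1 h1)
    obtain ⟨j, hj⟩ : ∃ j : ℕ, 2 ^ j • R = 0 := by
      obtain ⟨j, hj⟩ := (AddCommGroup.mem_primaryComponent).1 hR
      exact ⟨j, hj⟩
    have h2 := hI (fun i => 2 * a i) (ι.symm R) j
      (by rw [← map_nsmul, hj, map_zero]) (fun g => ι.injective (by
        have h3 := congrFun e g
        rw [map_sub, ← eqv, ι.apply_symm_apply, map_sum]
        refine Eq.trans ?_ h3.symm
        rw [AddSubgroup.val_finsetSum, Finset.sum_apply]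
        refine Finset.sum_congr rfl fun i _ => ?_
        change _ = a i • 2 • ι (c i g)
        rw [map_zsmul, mul_comm, mul_smul, ← natCast_zsmul]
        rfl)) i
    rw [pow_succ'] at h2
    exact (mul_dvd_mul_iff_left two_ne_zero).1 h2

end Pool.Agent.P.MP_8b7eba_nt.R2.G.KV
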