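import Pool.Agent.P.MP_8b7eba_nt.KV.Iface

/-! Step SNF. -/

set_option autoImplicit false

namespace Pool.Agent.P.MP_8b7eba_nt.R2.G.KV

open scoped Matrix
open MP_9c97e9_nt (Pt pm Is)
open Filter TSPLIT TINVP

namespace SNFc

end SNFc

theorem t_SNF :
    S_SNF := by
  intro A _ r k s hs h
  let φ : (Fin r → ℤ) →ₗ[ℤ] A := Fintype.linearCombination ℤ s
  have hφ : ∀ v, φ v = ∑ i, v i • s i := fun v => Fintype.linearCombination_apply ℤ s v
  obtain ⟨N, hN, hN'⟩ : ∃ N : ℕ, N ≠ 0 ∧ ∀ i, N • s i = 0 :=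
    ⟨∏ i, addOrderOf (s i), Finset.prod_ne_zero_iff.2 fun i _ => (hs i).addOrderOf_pos.ne',
      fun i => addOrderOf_dvd_iff_nsmul_eq_zero.1 (Finset.dvd_prod_of_mem _ (Finset.mem_univ i))⟩
  let L : Submodule ℤ (Fin r → ℤ) := LinearMap.ker (2 ^ k • φ)
  have hL : ∀ v, v ∈ L ↔ 2 ^ k • φ v = 0 := fun v => Iff.rfl
  have h3 : Module.finrank ℤ (Fin r → ℤ) = Module.finrank ℤ L := by
    refine le_antisymm (LinearMap.finrank_le_finrank_of_injective
      (f := LinearMap.codRestrict L (N • LinearMap.id) fun v => ?_) fun v w e => ?_)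
      L.finrank_le
    · rw [hL, LinearMap.smul_apply, map_nsmul, hφ, Finset.smul_sum,
        Finset.sum_eq_zero fun i _ => by rw [smul_comm, hN', smul_zero], smul_zero]
    · exact nsmul_right_injective hN (congrArg Subtype.val e)
  let e := LinearEquiv.ofFinrankEq (Fin r → ℤ) L h3
  have h4 : ∀ v, (zmultiplesHom A (φ (e v))) (2 ^ k : ℕ) = 0 := fun v => by
    rw [zmultiplesHom_apply, natCast_zsmul]
    exact (e v).2
  refine ⟨∑ i, (ZMod.lift _ ⟨_, h4 (Pi.single i 1)⟩).comp (Pi.evalAddMonoidHom _ i),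
    (injective_iff_map_eq_zero _).2 fun x e0 => ?_⟩
  choose y hy using fun i => ZMod.intCast_surjective (x i)
  have e1 : φ (e y) = 0 := by
    have e2 : y = ∑ i, y i • Pi.single i (1 : ℤ) := by
      ext j
      simp [Pi.single_apply]
    rw [← e0, AddMonoidHom.finsetSum_apply]
    conv_lhs => rw [e2]
    rw [map_sum, Submodule.coe_sum, map_sum]
    refine Finset.sum_congr rfl fun i _ => ?_
    rw [AddMonoidHom.comp_apply, Pi.evalAddMonoidHom_apply, ← hy, ZMod.lift_coe,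
      zmultiplesHom_apply, map_smul, Submodule.coe_smul, map_smul]
  choose w hw using h _ ((hφ _).symm.trans e1)
  have h0 : (e y : Fin r → ℤ) = 2 ^ k • w := by
    ext i
    rw [hw]
    simp
  have h5 : w ∈ L := by rw [hL, ← map_nsmul, ← h0, e1]
  have h6 : y = 2 ^ k • e.symm ⟨w, h5⟩ := by
    apply e.injective
    rw [map_nsmul, e.apply_symm_apply]
    exact Subtype.ext h0
  ext i
  rw [← hy, Pi.zero_apply, ZMod.intCast_zmod_eq_zero_iff_dvd, congrFun h6 i]
  simp

end Pool.Agent.P.MP_8b7eba_nt.R2.G.KV
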