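import Pool.Agent.P.MP_8b7eba_nt.KV.Iface

/-! Step TOW. -/

set_option autoImplicit false

namespace Pool.Agent.P.MP_8b7eba_nt.R2.G.KV

open scoped Matrix
open MP_9c97e9_nt (Pt pm Is)
open Filter TSPLIT TINVP

namespace TOWc

theorem an2 : Mod.an 2 = -1 := Mod.an_small.2.2.1

theorem step (hFIB : S_FIB) (P : Prg) (c : ℕ) (w : GQ → ℤ) (hc : c ≠ 0) (hd : R3.cd P.m ∣ c)
    (hw : Wi P.toPre c w) :
    ZW P (c * 2 * 2) w = -ZW P (c * 2) w -
      Nat.card (pr (l := P.l) (Nat.dvd_mul_right c 2)).ker • ZW P c w := by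
  have h2 : c * 2 ≠ 0 := by omega
  have := finite_RC (l := P.l) h2
  rw [(hFIB P (c * 2) 2 w (by omega) (hd.mul_right 2)
    (hw.mono (dvd_mul_right c 2) h2)).1, ← (hFIB P c 2 w h2 hd hw).2, ZW, ← finsum_neg_distrib,
    ← finsum_sub_distrib (Set.toFinite _) (Set.toFinite _)]
  refine finsum_congr fun a => ?_
  rw [g_H2B P.l c ⟨hc, trivial⟩ a, an2, smul_sub, neg_one_zsmul, smul_neg]

theorem ker_even {l : ℕ} [Hl l] {c : ℕ} (hc : c ≠ 0) (he : Even c) :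
    Nat.card (pr (l := l) (Nat.dvd_mul_right c 2)).ker = 2 := by
  obtain ⟨a, rfl⟩ : ∃ a, c = a * 2 := by
    obtain ⟨a, ha⟩ := he
    exact ⟨a, by omega⟩
  exact R2.TH2.ker2 (by omega)

end TOWc

open TOWc

theorem t_TOW (hFIB : S_FIB) (hTOW1 : S_TOW1) :
    S_TOW := by
  intro P N m c j w hN hw hc hinv hj
  have N0 : N ≠ 0 := fun e => by simp [e] at hN
  have c0 : c ≠ 0 := hc ▸ mul_ne_zero (cd_ne P) N0
  have hd : R3.cd P.m ∣ c := hc ▸ dvd_mul_right _ _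
  have hwc : Wi P.toPre c w := hw.mono (hc ▸ dvd_mul_left _ _) c0
  obtain ⟨R, hR⟩ : ∃ R : ℕ → ℤ → Prop,
      ∀ i u, R i u ↔ ZW P (c * 2 ^ i) w - u • ZW P c w ∈ DV P.toPre m := ⟨_, fun _ _ => Iff.rfl⟩
  have st : ∀ (i κ : ℕ) (u u' : ℤ),
      Nat.card (pr (l := P.l) (Nat.dvd_mul_right (c * 2 ^ i) 2)).ker = κ → R i u → R (i + 1) u' →
        R (i + 2) (-u' - κ * u) := by
    intro i κ u u' hκ h1 h2
    have i0 : c * 2 ^ i ≠ 0 := by positivity
    rw [hR] at h1 h2 ⊢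
    rw [pow_succ, ← mul_assoc] at h2
    rw [pow_succ, pow_succ, ← mul_assoc, ← mul_assoc,
      step hFIB P _ w i0 (hd.mul_right _) (hwc.mono (dvd_mul_right _ _) i0), hκ]
    have := sub_mem (neg_mem h2) (nsmul_mem h1 κ)
    have e : ∀ A B C : EO, -A - κ • B - (-u' - κ * u) • C =
        -(A - u' • C) - κ • (B - u • C) := fun A B C => by
      rw [← natCast_zsmul, ← natCast_zsmul]
      module
    rwa [e]
  have s2 : ∀ (i : ℕ) (u u' : ℤ), R (i + 1) u → R (i + 2) u' → R (i + 3) (-u' - 2 * u) :=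
    fun i u u' => st (i + 1) 2 u u' (ker_even (by positivity)
      (by rw [pow_succ, ← mul_assoc]; exact even_two.mul_left _))
  have r0 : R 0 1 := by
    rw [hR, pow_zero, mul_one, one_smul, sub_self]
    exact zero_mem _
  obtain ⟨u, hu, h1⟩ := hTOW1 P N m c w hN hw hc hinv
  have r1 : R 1 u := by rwa [hR, pow_one]
  have base : ∃ (e : ℕ) (a b : ℤ), e ≤ 4 ∧ Odd b ∧ R 5 (2 ^ e * a) ∧ R 6 (2 ^ e * b) := by
    rcases hu with ⟨rfl, he⟩ | ⟨hu, ho⟩
    · have r2 := st 0 2 _ _ (ker_even (by positivity) (by simpa using he)) r0 r1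
      have r3 := s2 0 _ _ r1 r2
      have r4 := s2 1 _ _ r2 r3
      have r5 := s2 2 _ _ r3 r4
      have r6 := s2 3 _ _ r4 r5
      norm_num at r5 r6
      exact ⟨0, -5, 7, by norm_num, by decide, by simpa using r5, by simpa using r6⟩
    · have r2 := st 0 1 _ _ (R2.TH2.ker1 (by positivity) (by simpa using ho)) r0 r1
      have r3 := s2 0 _ _ r1 r2
      have r4 := s2 1 _ _ r2 r3
      have r5 := s2 2 _ _ r3 r4
      have r6 := s2 3 _ _ r4 r5
      rcases hu with rfl | rfl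
      · norm_num at r5 r6
        exact ⟨2, -1, -1, by norm_num, by decide, by simpa using r5, by simpa using r6⟩
      · norm_num at r5 r6
        exact ⟨4, 0, 1, by norm_num, by decide, by simpa using r5, by simpa using r6⟩
  obtain ⟨e, a, b, he, hb, h5, h6⟩ := base
  have ind : ∀ i : ℕ, ∃ a b : ℤ, Odd b ∧ R (i + 5) (2 ^ e * a) ∧ R (i + 6) (2 ^ e * b) := by
    intro i
    induction i with
    | zero => exact ⟨a, b, hb, h5, h6⟩
    | succ i ih =>
      obtain ⟨a, b, hb, x, y⟩ := ih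
      refine ⟨b, -b - 2 * a, hb.neg.sub_even (even_two_mul a), y, ?_⟩
      have := s2 (i + 4) _ _ x y
      rwa [show -(2 ^ e * b) - 2 * (2 ^ e * a) = 2 ^ e * (-b - 2 * a) by ring] at this
  obtain ⟨i, rfl⟩ : ∃ i, j = i + 6 := ⟨j - 6, by omega⟩
  obtain ⟨-, b, hb, -, y⟩ := ind i
  refine ⟨2 ^ e * b, fun h => ?_, by rwa [mul_comm (2 ^ (i + 6)) c, ← hR]⟩
  have h' : (2 : ℤ) ^ e * 2 ∣ 2 ^ e * b :=
    (by rw [← pow_succ]; exact pow_dvd_pow 2 (by omega) : (2 : ℤ) ^ e * 2 ∣ 2 ^ 5).trans h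
  exact Int.not_even_iff_odd.2 hb
    (even_iff_two_dvd.2 ((mul_dvd_mul_iff_left (by positivity)).1 h'))

end Pool.Agent.P.MP_8b7eba_nt.R2.G.KV
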