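import Pool.Agent.P.MP_8b7eba_nt.KV.Iface

/-! Step TOW1. -/

set_option autoImplicit false

namespace Pool.Agent.P.MP_8b7eba_nt.R2.G.KV

open scoped Matrix
open MP_9c97e9_nt (Pt pm Is)
open Filter TSPLIT TINVP

namespace TOW1c

open BSD15 (OO nm)
open ACCHI

theorem elt {l : ℕ} [Hl l] {d : ℤ} {c : ℕ} (hm : Kc d (c * 2)) (h2 : 2 ∣ c)
    (h : ∀ x : ℤ, ((c * 2 : ℕ) : ℤ) ∣ x - (1 + c) → R3.kc d x = -1) :
    ∃ x : RC l (c * 2), pr (Nat.dvd_mul_right c 2) x = 1 ∧ chi d x = -1 := by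
  obtain ⟨k, hk⟩ := Int.natCast_dvd_natCast.2 h2
  have h1 : Ad (c * 2) (Ideal.span {(⟨1, c⟩ : OO l)}) := by
    have h3 : IsCoprime (⟨1, c⟩ : OO l).norm c :=
      RCA.cop_of_dvd isCoprime_one_left ⟨1 + ((l + 1) / 4 : ℕ) * c, by
        rw [QuadraticAlgebra.norm_def]
        ring⟩
    refine ad_span.2 ⟨fun e => by simpa using congrArg QuadraticAlgebra.re e, ?_⟩
    push_cast
    exact h3.mul_right (h3.of_isCoprime_of_dvd_right ⟨k, hk⟩)
  refine ⟨cl (c * 2) (Ideal.span {(⟨1, c⟩ : OO l)}), ?_, ?_⟩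
  · rw [pr_cl _ h1, cl_span_eq_one (h1.mono (Nat.dvd_mul_right c 2))]
  · rw [chi_cl hm h1, BSD15.nm_span]
    refine h _ ⟨((l + 1) / 4 : ℕ) * k, ?_⟩
    rw [QuadraticAlgebra.norm_def, Nat.cast_mul]
    linear_combination (((l + 1) / 4 : ℕ) : ℤ) * c * hk

theorem tors (P : Prg) {c : ℕ} {w : GQ → ℤ} (hc : c * 2 ≠ 0) (hm : Kc P.m (c * 2))
    (hw : Wi P.toPre c w) {x : RC P.l (c * 2)} (e1 : pr (Nat.dvd_mul_right c 2) x = 1)
    (e2 : chi P.m x = -1) :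
    IsOfFinAddOrder (∑ᶠ b : RC P.l (c * 2), (chi P.m b * w (sec P.toPre (c * 2) b)) •
      HP (pr (Nat.dvd_mul_right c 2) b)) := by
  have h := isAr P.toPre hc
  have e4 : ∀ a, pr (Nat.dvd_mul_right c 2) (x * a) = pr (Nat.dvd_mul_right c 2) a := fun a => by
    rw [map_mul, e1]
    exact one_mul (pr (Nat.dvd_mul_right c 2) a)
  have e5 : ∀ a, w (sec P.toPre (c * 2) (x * a)) = w (sec P.toPre (c * 2) a) := fun a => by
    refine hw _ (sec_spec hc _).1 _ (sec_spec hc _).1 ?_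
    rw [← h.pr c (Nat.dvd_mul_right c 2) _ (sec_spec hc _).1,
      ← h.pr c (Nat.dvd_mul_right c 2) _ (sec_spec hc _).1, (sec_spec hc _).2, (sec_spec hc _).2,
      map_inv, map_inv, e4]
  have e3 := finsum_comp_equiv (Equiv.mulLeft x) (f := fun b : RC P.l (c * 2) =>
    (chi P.m b * w (sec P.toPre (c * 2) b)) • HP (pr (Nat.dvd_mul_right c 2) b))
  simp only [Equiv.coe_mulLeft, e4, e5, chi_mul hm, e2, neg_mul, one_mul, neg_smul,
    finsum_neg_distrib] at e3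
  exact isOfFinAddOrder_iff_nsmul_eq_zero.2 ⟨2, two_pos, by
    rw [two_nsmul, ← eq_neg_iff_add_eq_zero]; exact e3.symm⟩

theorem shift (P : Prg) {c m : ℕ} {w : GQ → ℤ} (hc : c ≠ 0) (hd : R3.cd P.m ∣ c)
    (hZ : ∀ g ∈ P.GK, tac P.dm g (ZW P c w) - ZW P c w ∈ DV P.toPre m) (y : RC P.l c) :
    ∑ᶠ a : RC P.l c, (chi P.m a * w (sec P.toPre c a)) • HP (y * a) - chi P.m y • ZW P c w ∈
      DV P.toPre m := by
  have := finite_RC (l := P.l) hc
  have hm := kc_of g_KC P.hy.sq hd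
  obtain ⟨g1, g2⟩ := sec_spec (P := P.toPre) hc y
  have e : ∑ᶠ a : RC P.l c, (chi P.m a * w (sec P.toPre c a)) • HP (y * a) =
      ac (sec P.toPre c y) (ZW P c w) := by
    rw [ZW, (ac _).map_finsum (Set.toFinite _)]
    refine finsum_congr fun a => ?_
    rw [map_zsmul, ac_hp hc g1, g2, THE1.r4]
  have h := zsmul_mem (hZ _ g1) (chi P.m y)
  rwa [tac_apply, sd_eq P hc hd g1, g2, chi_inv hm, smul_sub, smul_smul, chi_sq hm, one_smul,
    ← e] at h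

end TOW1c

open ACCHI in
theorem t_TOW1 (hFIB : S_FIB) :
    S_TOW1 := by
  intro P N m c w hN hw hc hZ
  have N0 : N ≠ 0 := by rintro rfl; simp at hN
  have c0 : c ≠ 0 := hc ▸ mul_ne_zero (cd_ne P) N0
  have hd : R3.cd P.m ∣ c := hc ▸ dvd_mul_right _ _
  have hwc : Wi P.toPre c w := hw.mono (hc ▸ dvd_mul_left _ _) c0
  have hm := kc_of g_KC P.hy.sq hd
  have := finite_RC (l := P.l) c0
  have a2 : Mod.an 2 = -1 := Mod.an_small.2.2.1
  rw [(hFIB P c 2 w (mul_ne_zero c0 two_ne_zero) hd hwc).1]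
  rcases Nat.even_or_odd c with he | ho
  · refine ⟨-1, Or.inl ⟨rfl, he⟩, ?_⟩
    obtain ⟨-, ho, -, -, -, h4, -, -, -, -, hl⟩ := g_KC P.m P.hy.sq
    have h2 : Even (R3.cd P.m) := by
      rw [hc, Nat.even_mul] at he
      exact he.resolve_right (Nat.not_even_iff_odd.2 hN)
    obtain ⟨e, he2⟩ : ∃ e, R3.cd P.m = 2 * e * 2 := by
      obtain ⟨r, hr⟩ := ho
      obtain ⟨s, hs⟩ := h2
      exact ⟨R3.cd P.m / 4, by omega⟩
    have h3 := hl ⟨2 * e, by omega⟩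
    rw [show R3.cd P.m / 2 = 2 * e by omega] at h3
    obtain ⟨c', rfl, hc'⟩ : ∃ c', c = c' * 2 ∧ c' = 2 * e * N := ⟨_, by rw [hc, he2]; ring, rfl⟩
    have c1 : c' ≠ 0 := left_ne_zero_of_mul c0
    obtain ⟨x, x1, x2⟩ := TOW1c.elt (l := P.l) hm ⟨e * N, by rw [hc']; ring⟩ fun x hx => by
      obtain ⟨t, ht⟩ := hx
      obtain ⟨r, hr⟩ := hN
      refine h3 x ⟨N * t + r, ?_⟩
      rw [he2]
      rw [hc', hr] at ht
      rw [hr]
      push_cast at ht ⊢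
      linear_combination ht
    have ht := TOW1c.tors P c0 hm (hw.mono (hc' ▸ dvd_mul_left _ _) c1) x1 x2
    simp only [g_H2B P.l c' ⟨c1, trivial⟩, smul_sub, a2, neg_smul, one_smul, smul_neg]
    rw [finsum_sub_distrib (Set.toFinite _) (Set.toFinite _), finsum_neg_distrib, ← ZW]
    refine DV.tor ?_
    rw [sub_sub_cancel_left]
    exact ht.neg
  · obtain ⟨x, hx⟩ := g_H2A P.l c ⟨c0, trivial⟩ ho
    refine ⟨-1 - chi P.m x - chi P.m x⁻¹, Or.inr ⟨?_, ho⟩, ?_⟩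
    · rw [chi_inv hm]
      rcases Int.eq_one_or_neg_one_of_mul_eq_one (chi_sq hm x) with e | e <;> rw [e] <;> simp
    · simp only [hx, smul_sub, a2, neg_smul, one_smul, smul_neg]
      rw [finsum_sub_distrib (Set.toFinite _) (Set.toFinite _),
        finsum_sub_distrib (Set.toFinite _) (Set.toFinite _), finsum_neg_distrib, ← ZW]
      have h := neg_mem (add_mem (TOW1c.shift P c0 hd hZ x) (TOW1c.shift P c0 hd hZ x⁻¹))
      convert h using 1
      rw [sub_smul, sub_smul, neg_smul, one_smul]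
      abel

end Pool.Agent.P.MP_8b7eba_nt.R2.G.KV
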