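import Pool.Agent.P.MP_8b7eba_nt.KV.Iface
import Pool.Agent.P.MP_8b7eba_nt.KV.Unp

/-! Step UNA. -/

set_option autoImplicit false

namespace Pool.Agent.P.MP_8b7eba_nt.R2.G.KV

open scoped Matrix
open MP_9c97e9_nt (Pt pm Is)
open Filter TSPLIT TINVP

theorem t_UNA : S_UNA := fun _ H _ _ hn hv h0 M => (KUn.una g_INVP hn hv h0 M).mono
  fun _ ⟨Q, h1, h2⟩ => ⟨Q, fun g hg h hh => h1 _ (H.ab _ g hg h hh), h2⟩

end Pool.Agent.P.MP_8b7eba_nt.R2.G.KV
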