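import Pool.Agent.P.MP_8b7eba_nt.KV.Iface
import Pool.Agent.P.MP_8b7eba_nt.KV.Unp

/-! Step UNB. -/

set_option autoImplicit false

namespace Pool.Agent.P.MP_8b7eba_nt.R2.G.KV

open scoped Matrix
open MP_9c97e9_nt (Pt pm Is)
open Filter TSPLIT TINVP

theorem t_UNB : S_UNB := fun _ _ _ _ hn hv h0 => KUn.unb g_INVP hn hv h0

end Pool.Agent.P.MP_8b7eba_nt.R2.G.KV
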