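import Pool.Agent.P.MP_8b7eba_nt.KV.Iface

/-! Step ZPP. -/

set_option autoImplicit false

namespace Pool.Agent.P.MP_8b7eba_nt.R2.G.KV

open scoped Matrix
open MP_9c97e9_nt (Pt pm Is)
open Filter TSPLIT TINVP

namespace ZPPc

theorem wt_sec {D : Dat} {H : Heeg D.toPrg D.a} (hS : Std H) (n : List (Kp D)) (k : ℕ) {s : GQ}
    (hs : s ∈ D.GK) {b : RC D.l (D.ck n k)} (hb : b ∈ Od D.l (D.ck n k)) :
    wt H n k (sec D.toPre (D.ck n k) ((ar D.l (D.ck n k) s)⁻¹ * b)) = wt H n k s := by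
  have hc : D.ck n k ≠ 0 := (cd n k).2.1
  have h := isAr D.toPre hc
  obtain ⟨a1, a2⟩ := sec_spec (P := D.toPre) hc ((ar D.l (D.ck n k) s)⁻¹ * b)
  rw [← mul_inv_cancel_left s (sec D.toPre _ _)]
  refine wt_mul H n k s fun l hl => le_q H hl k ((hS.mem hc).2 ⟨mul_mem (inv_mem hs) a1, ?_⟩)
  rw [THE1.ar_div h hs a1, a2, THE1.r7, THE1.r4, ← mul_assoc, inv_mul_cancel, THE1.r2]
  exact THE1.od_inv hb

end ZPPc

open ACHE1 in
theorem t_ZPP :
    S_ZPP := by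
  intro D H hS n k
  obtain ⟨-, k1, k2, -⟩ := g_KC D.m D.hy.sq
  have hc : D.ck n k ≠ 0 := (cd n k).2.1
  have hd : R3.cd D.m ∣ D.ck n k := k2.trans (cd n k).2.2.2
  have hw := fun s hs b hb => ZPPc.wt_sec hS n k (s := s) hs (b := b) hb
  simp only [TINVP.PP_eq, Phi]
  rw [← csum_sum (relIndex_ne_zero (H.on _).2 _), hS.1, hS.2.1]
  simp only [Finset.sum_ite_eq, Finset.mem_univ, if_true]
  generalize wt H n k = w at hw
  generalize D.ck n k = c at hc hd hw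
  have h := isAr D.toPre hc
  have := finite_RC (l := D.l) hc
  obtain ⟨-, h2, h3, -⟩ := g_CHI D.l D.m c D.hy.sq hd
  have m : ∀ i, Nrm.ro D.GK (NH D.toPre c) i ∈ D.GK := fun i => Nrm.ro_mem i
  refine ((finsum_congr fun i => ?_).trans (THE1.cosets (G := RC D.l c) (O := Od D.l c) (A := ⊤)
    le_top (fun i => ar D.l c (Nrm.ro D.GK (NH D.toPre c) i)) (fun _ => trivial)
    (fun i j e => Nrm.ro_inj ?_) (fun x _ => ?_)
    fun a => (chi D.m a * w (sec D.toPre c a)) • HP a)).trans ?_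
  · refine (congrArg (w (Nrm.ro D.GK (NH D.toPre c) i) • ·) (congrArg₂ (· • ·)
      (sd_eq D.toPrg hc hd (m i)) (ac_yH ⟨hc, trivial⟩ h (m i)))).trans ?_
    rw [smul_smul, smul_finsum' _ (Set.toFinite _)]
    exact finsum_congr fun b => by
      rw [h2, (h3 _).2.1, (h3 b.1).2.2 b.2, mul_one, hw _ (m i) _ b.2, mul_comm]
  · exact (mem_NH ⟨hc, trivial⟩ h).2 ⟨D.GK.mul_mem (D.GK.inv_mem (m i)) (m j), by
      rwa [THE1.ar_div h (m i) (m j)]⟩
  · obtain ⟨g, h1, rfl⟩ := h.surj x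
    obtain ⟨i, hi⟩ := Nrm.ro_surj (H' := NH D.toPre c) h1
    exact ⟨i, by rw [← THE1.ar_div h (m i) h1]; exact ((mem_NH ⟨hc, trivial⟩ h).1 hi).2⟩
  · exact finsum_eq_of_bijective Subtype.val
      ⟨Subtype.val_injective, fun a => ⟨⟨a, trivial⟩, rfl⟩⟩ fun _ => rfl

end Pool.Agent.P.MP_8b7eba_nt.R2.G.KV
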