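import Pool.Agent.P.MP_8b7eba_nt.KV.TPATCH
import Pool.Agent.P.MP_8b7eba_nt.KV.TKOLX
import Pool.Agent.P.MP_8b7eba_nt.KV.TUNA
import Pool.Agent.P.MP_8b7eba_nt.KV.TUNB
import Pool.Agent.P.MP_8b7eba_nt.KV.TZPP
import Pool.Agent.P.MP_8b7eba_nt.KV.TFIB
import Pool.Agent.P.MP_8b7eba_nt.KV.TINV0
import Pool.Agent.P.MP_8b7eba_nt.KV.TTOW1
import Pool.Agent.P.MP_8b7eba_nt.KV.TTOW
import Pool.Agent.P.MP_8b7eba_nt.KV.THPI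
import Pool.Agent.P.MP_8b7eba_nt.KV.TREPA
import Pool.Agent.P.MP_8b7eba_nt.KV.TREPB
import Pool.Agent.P.MP_8b7eba_nt.KV.TDERA
import Pool.Agent.P.MP_8b7eba_nt.KV.TDERB
import Pool.Agent.P.MP_8b7eba_nt.KV.TKPA
import Pool.Agent.P.MP_8b7eba_nt.KV.TKPB
import Pool.Agent.P.MP_8b7eba_nt.KV.TNVX
import Pool.Agent.P.MP_8b7eba_nt.KV.TEGA
import Pool.Agent.P.MP_8b7eba_nt.KV.TEGB
import Pool.Agent.P.MP_8b7eba_nt.KV.TE1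
import Pool.Agent.P.MP_8b7eba_nt.KV.TE2A
import Pool.Agent.P.MP_8b7eba_nt.KV.TE2B
import Pool.Agent.P.MP_8b7eba_nt.KV.TE2
import Pool.Agent.P.MP_8b7eba_nt.KV.TSNF
import Pool.Agent.P.MP_8b7eba_nt.KV.TIOT
import Pool.Agent.P.MP_8b7eba_nt.KV.TSELA
import Pool.Agent.P.MP_8b7eba_nt.KV.TSELB
import Pool.Agent.P.MP_8b7eba_nt.KV.TMAIN

/-! Assembly of the project KV. -/

namespace Pool.Agent.P.MP_8b7eba_nt.R2.G.KV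

theorem main : S_MAIN :=
  t_MAIN t_PATCH t_KOLX
    (t_NVX t_UNA t_UNB t_ZPP (t_INV0 t_FIB) (t_TOW t_FIB (t_TOW1 t_FIB)) (t_DERA t_HPI t_REPA)
      (t_DERB t_HPI t_REPB) (t_KPA t_REPB) (t_KPB t_HPI t_REPA))
    t_EGA t_EGB t_E1 (t_E2 t_E2A t_E2B) (t_SELA t_IOT) (t_SELB t_IOT t_SNF)

end Pool.Agent.P.MP_8b7eba_nt.R2.G.KV
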