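import Pool.Agent.P.MP_8b7eba_nt.R3.AllA
import Pool.Agent.P.MP_8b7eba_nt.R3.BKum
import Pool.Agent.P.MP_8b7eba_nt.TC.TLocB
import Pool.Agent.P.MP_8b7eba_nt.KV.Defs

/-! Definitions and basic facts for the comparison of patched and classical Kolyvagin systems. -/

set_option autoImplicit false

namespace Pool.Agent.P.MP_8b7eba_nt.R2.G.KV

open scoped Matrix
open MP_9c97e9_nt (Pt pm Is)
open Filter TSPLIT TINVP

noncomputable section

/-- the points over the maximal abelian extension of the imaginary quadratic field -/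
def AbP (P : Pre) : AddSubgroup EO where
  carrier := {Q | ∀ g ∈ P.GK, ∀ h ∈ P.GK, ac (g * h * g⁻¹ * h⁻¹) Q = Q}
  zero_mem' := fun _ _ _ _ => map_zero _
  add_mem' := fun ha hb g hg h hh => by rw [map_add, ha g hg h hh, hb g hg h hh]
  neg_mem' := fun ha g hg h hh => by rw [map_neg, ha g hg h hh]

/-- the points which are divisible by `2 ^ M` up to torsion -/
def DV (P : Pre) (M : ℕ) : AddSubgroup EO where
  carrier := {R | ∃ Q ∈ AbP P, IsOfFinAddOrder (R - 2 ^ M • Q)}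
  zero_mem' := ⟨0, zero_mem _, by simp⟩
  add_mem' := fun ⟨Q, h1, h2⟩ ⟨Q', h3, h4⟩ => ⟨Q + Q', add_mem h1 h3, by
    rw [smul_add, add_sub_add_comm]; exact h2.add h4⟩
  neg_mem' := fun ⟨Q, h1, h2⟩ => ⟨-Q, neg_mem h1, by
    rw [smul_neg, neg_sub_neg, ← neg_sub]; exact h2.neg⟩

/-- a section of the Artin map: `ac (sec P c a) (HP 1) = HP a` -/
def sec (P : Pre) (c : ℕ) (a : RC P.l c) : GQ :=
  Classical.epsilon fun g => g ∈ P.GK ∧ ar P.l c g = a⁻¹

/-- weighted sums of Heegner points -/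
def ZW (P : Prg) (c : ℕ) (w : GQ → ℤ) : EO :=
  ∑ᶠ a : RC P.l c, (chi P.m a * w (sec P.toPre c a)) • HP a

/-- the weight factors through the ring class group of conductor `N` -/
def Wi (P : Pre) (N : ℕ) (w : GQ → ℤ) : Prop :=
  ∀ g ∈ P.GK, ∀ h ∈ P.GK, ar P.l N g = ar P.l N h → w g = w h

/-- the product of the Kolyvagin primes at index `k` -/
def pn {D : Dat} (n : List (Kp D)) (k : ℕ) : ℕ := (n.map fun l => (l.w k).p).prod

/-- the set of the Kolyvagin primes at index `k` -/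
def fn {D : Dat} (n : List (Kp D)) (k : ℕ) : Finset ℕ := (n.map fun l => (l.w k).p).toFinset

/-- the standard Heegner system -/
def Std {D : Dat} (H : Heeg D.toPrg D.a) : Prop :=
  H.N = NH D.toPre ∧ H.y = yH D.l ∧ Pw D.toPre D.a

/-- the derived point of minimal conductor -/
def Z0 {D : Dat} (H : Heeg D.toPrg D.a) (n : List (Kp D)) (k : ℕ) : EO :=
  ZW D.toPrg (R3.cd D.m * pn n k) (wt H n k)

/-- the eigenspace of the Selmer group over the quadratic field has dimension at least `r` -/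
def Eg (D : Dat) (ε : ℚ_[2]) (r : ℕ) : Prop :=
  ∃ x : Fin r → GS → V2, (∀ i, D.Sel p1 [] (x i) ∧ D.nz p1 (D.xt (x i)) = ε • x i) ∧
    LinearIndependent ℚ_[2] x

/-- the patched Selmer group over the rationals has rank at least `r` -/
def RkQ {w : Pl} (T : Tate w) (δ : Om) (m : ℤ) (r : ℕ) : Prop :=
  ∃ x : Fin r → GS → V2, (∀ i, R3.SelQ T δ m (x i)) ∧
    ∀ a : Fin r → ℚ_[2], Cob ⊤ (T.rq δ) (∑ i, a i • x i) → a = 0

/-- all relations between the cocycles are divisible by `2 ^ k` -/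
def Ind (δ : Om) {r : ℕ} (k : ℕ) (c : Fin r → GQ → EO) : Prop :=
  ∀ (a : Fin r → ℤ) (Q : EO) (j : ℕ), 2 ^ j • Q = 0 →
    (∀ g, ∑ i, a i • c i g = tac δ g Q - Q) → ∀ i, 2 ^ k ∣ a i

/-- the classical Selmer group has corank at least `r`, weak form -/
def CorW (δ : Om) (r : ℕ) : Prop :=
  ∀ k, ∃ c : Fin r → GQ → EO, (∀ i, SelC δ (c i)) ∧ Ind δ k c

/-- the classical Selmer group has corank at least `r`, strong form -/
def CorC (δ : Om) (r : ℕ) : Prop :=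
  ∀ k, ∃ c : Fin r → GQ → EO, (∀ i, SelC δ (c i) ∧ ∀ g, 2 ^ k • c i g = 0) ∧ Ind δ k c

/-- a family of classical Selmer cocycles in coordinates -/
structure Fam {w : Pl} (T : Tate w) (δ : Om) (u : ℕ → GQ → V2) : Prop where
  bd : ∀ k g, ‖u k g‖ ≤ 1
  sm : ∀ k, Sm ⊤ (u k)
  sel : ∀ k, SelC δ fun g => T.pt (((2 : ℚ_[2]) ^ k)⁻¹ • u k g)

end

variable {P : Pre} {M c : ℕ} {R : EO} {g : GQ}

theorem AbP.ac (h : R ∈ AbP P) (s : GQ) : ac s R ∈ AbP P := fun g hg k hk => by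
  have := h _ (P.on.1.conj_mem' g hg s) _ (P.on.1.conj_mem' k hk s)
  rw [← ac_mul, show g * k * g⁻¹ * k⁻¹ * s =
    s * (s⁻¹ * g * s * (s⁻¹ * k * s) * (s⁻¹ * g * s)⁻¹ * (s⁻¹ * k * s)⁻¹) by group, ac_mul, this]

theorem AbP.tac (h : R ∈ AbP P) (δ : Om) (s : GQ) : tac δ s R ∈ AbP P :=
  zsmul_mem (AbP.ac h s) _

theorem DV.ac (h : R ∈ DV P M) (s : GQ) : ac s R ∈ DV P M := by
  obtain ⟨Q, h1, h2⟩ := h
  exact ⟨_, AbP.ac h1 s, by rw [← map_nsmul, ← map_sub]; exact (R2.ac s).isOfFinAddOrder h2⟩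

theorem DV.tac (h : R ∈ DV P M) (δ : Om) (s : GQ) : tac δ s R ∈ DV P M :=
  zsmul_mem (DV.ac h s) _

theorem DV.mono {M' : ℕ} (h : R ∈ DV P M') (e : M ≤ M') : R ∈ DV P M := by
  obtain ⟨Q, h1, h2⟩ := h
  obtain ⟨i, rfl⟩ := Nat.exists_eq_add_of_le e
  exact ⟨2 ^ i • Q, nsmul_mem h1 _, by rwa [← mul_nsmul', ← pow_add]⟩

theorem DV.tor (h : IsOfFinAddOrder R) : R ∈ DV P M := ⟨0, zero_mem _, by simpa using h⟩

theorem DV.smul {z : ℤ} (hz : 2 ^ M ∣ z) (h : R ∈ AbP P) : z • R ∈ DV P M := by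
  obtain ⟨z, rfl⟩ := hz
  refine ⟨z • R, zsmul_mem h z, ?_⟩
  rw [mul_smul, ← natCast_zsmul, Nat.cast_pow, Nat.cast_ofNat, sub_self]
  exact IsOfFinAddOrder.zero

/-- division by an integer of bounded 2-adic valuation -/
theorem DV.div {u : ℤ} {e : ℕ} (hR : R ∈ AbP P) (hu : ¬ 2 ^ (e + 1) ∣ u)
    (h : u • R ∈ DV P (M + e)) : R ∈ DV P M := by
  induction e generalizing u with
  | zero =>
    have ho : Odd u := Int.not_even_iff_odd.1 fun a => hu (by simpa using even_iff_two_dvd.1 a)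
    obtain ⟨a, b, hab⟩ : IsCoprime u (2 ^ M) := (Int.isCoprime_two_right.2 ho).pow_right
    have : R = a • u • R + (b * 2 ^ M) • R := by rw [smul_smul, ← add_smul, hab, one_smul]
    rw [this]
    exact add_mem (zsmul_mem h a) (DV.smul (dvd_mul_left _ _) hR)
  | succ e ih =>
    rcases Int.even_or_odd' u with ⟨t, rfl | rfl⟩
    · refine ih (u := t) (fun a => hu (by rw [pow_succ']; exact mul_dvd_mul_left 2 a)) ?_
      obtain ⟨Q, h1, h2⟩ := h
      refine ⟨Q, h1, IsOfFinAddOrder.of_nsmul (n := 2) ?_ two_ne_zero⟩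
      rwa [smul_sub, ← mul_nsmul', ← pow_succ', ← natCast_zsmul (t • R), smul_smul]
    · exact ih (u := 2 * t + 1) (fun a => by
        have := (dvd_pow_self 2 e.succ_ne_zero).trans a
        omega) (DV.mono h (by omega))

theorem isAr (P : Pre) (hc : c ≠ 0) : IsAr P c := g_ARX P c ⟨hc, trivial⟩

theorem sec_spec (hc : c ≠ 0) (a : RC P.l c) : sec P c a ∈ P.GK ∧ ar P.l c (sec P c a) = a⁻¹ :=
  Classical.epsilon_spec ((isAr P hc).surj a⁻¹)

theorem ac_hp (hc : c ≠ 0) (hg : g ∈ P.GK) (a : RC P.l c) :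
    ac g (HP a) = HP ((ar P.l c g)⁻¹ * a) := THE1.ac_HP (isAr P hc) hg a

theorem ar_comm (hc : c ≠ 0) {k : GQ} (hg : g ∈ P.GK) (hk : k ∈ P.GK) :
    ar P.l c (g * k * g⁻¹ * k⁻¹) = 1 := by
  have h := isAr P hc
  have e1 := P.GK.mul_mem hg hk
  rw [h.mul _ (mul_mem e1 (inv_mem hg)) _ (inv_mem hk), h.mul _ e1 _ (inv_mem hg), h.mul _ hg _ hk,
    THE1.ar_inv h hg, THE1.ar_inv h hk, THE1.r1, THE1.r5]

theorem HP_mem (hc : c ≠ 0) (a : RC P.l c) : HP a ∈ AbP P := fun g hg k hk => by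
  rw [ac_hp hc (mul_mem (mul_mem (mul_mem hg hk) (inv_mem hg)) (inv_mem hk)), ar_comm hc hg hk,
    THE1.r3, THE1.r2]

theorem ZW_mem (P : Prg) (hc : c ≠ 0) (w : GQ → ℤ) : ZW P c w ∈ AbP P.toPre :=
  finsum_induction (· ∈ AbP P.toPre) (zero_mem _) (fun _ _ => add_mem)
    fun a => zsmul_mem (HP_mem hc a) _

theorem Wi.mono {N N' : ℕ} {w : GQ → ℤ} (h : Wi P N w) (e : N ∣ N') (h0 : N' ≠ 0) : Wi P N' w :=
  fun g hg k hk a => h g hg k hk (by
    rw [← (isAr P h0).pr N e g hg, ← (isAr P h0).pr N e k hk, a])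

/-- the genus character is the character of the square root -/
theorem sd_eq (P : Prg) (hc : c ≠ 0) (hd : R3.cd P.m ∣ c) (hg : g ∈ P.GK) :
    sd P.dm g = chi P.m (ar P.l c g) :=
  g_GEN2 P.toPre P.m P.dm c P.hy.sq P.hdm ⟨hc, trivial⟩ hd g hg

/-- the Galois action on weighted sums -/
theorem tac_ZW (P : Prg) (hc : c ≠ 0) (hd : R3.cd P.m ∣ c) {w : GQ → ℤ} (hw : Wi P.toPre c w)
    (hg : g ∈ P.GK) : tac P.dm g (ZW P c w) = ZW P c fun s => w (g⁻¹ * s) := by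
  have := finite_RC (l := P.l) hc
  have h := isAr P.toPre hc
  obtain ⟨-, h2, h3, -⟩ := g_CHI P.l P.m c P.hy.sq hd
  rw [tac_apply, sd_eq P hc hd hg, ZW, (ac g).map_finsum (Set.toFinite _),
    smul_finsum' _ (Set.toFinite _)]
  refine finsum_eq_of_bijective (fun a => (ar P.l c g)⁻¹ * a) (Group.mulLeft_bijective _) fun a => ?_
  rw [map_zsmul, ac_hp hc hg, smul_smul, h2, (h3 _).2.1, mul_assoc]
  congr 3
  refine hw _ (sec_spec hc a).1 _ (mul_mem (inv_mem hg) (sec_spec hc _).1) ?_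
  rw [h.mul _ (inv_mem hg) _ (sec_spec hc _).1, THE1.ar_inv h hg, (sec_spec hc _).2,
    (sec_spec hc _).2, THE1.r7, THE1.r4, ← mul_assoc, inv_mul_cancel, THE1.r2]

variable {D : Dat} {H : Heeg D.toPrg D.a} {n : List (Kp D)} {k : ℕ}

theorem pn_ne (n : List (Kp D)) (k : ℕ) : pn n k ≠ 0 := List.prod_ne_zero fun h => by
  obtain ⟨l, -, e⟩ := List.mem_map.1 h
  exact (l.w k).prime.ne_zero e

theorem pn_odd (n : List (Kp D)) (k : ℕ) : Odd (pn n k) := by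
  refine List.prod_induction Odd (fun _ _ => Odd.mul) odd_one fun q hq => ?_
  obtain ⟨l, -, rfl⟩ := List.mem_map.1 hq
  exact (l.w k).prime.odd_of_ne_two fun e => l.big k (by
    rw [e]; exact ⟨15 * D.l * D.m, by push_cast; ring⟩)

theorem dvd_pn {l : Kp D} (hl : l ∈ n) (k : ℕ) : (l.w k).p ∣ pn n k :=
  List.dvd_prod (List.mem_map_of_mem hl)

theorem cd_ne (P : Prg) : R3.cd P.m ≠ 0 := (g_KC P.m P.hy.sq).1

theorem nodup (hn : Ok n) (k : ℕ) : (n.map fun l => (l.w k).p).Nodup :=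
  List.pairwise_map.2 (hn.imp fun h => h k)

theorem fn_card (hn : Ok n) (k : ℕ) : (fn n k).card = n.length := by
  rw [fn, List.toFinset_card_of_nodup (nodup hn k), List.length_map]

theorem fn_prod (hn : Ok n) (k : ℕ) : ∏ q ∈ fn n k, q = pn n k := by
  rw [fn, List.prod_toFinset _ (nodup hn k), List.map_id']
  rfl

theorem mem_fn {q : ℕ} : q ∈ fn n k ↔ ∃ l ∈ n, (l.w k).p = q := by simp [fn]

theorem Std.mem (h : Std H) (hc : c ≠ 0) : g ∈ H.N c ↔ g ∈ D.GK ∧ ar D.l c g ∈ Od D.l c := by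
  rw [h.1]
  exact ACHE1.mem_NH ⟨hc, trivial⟩ (isAr _ hc)

theorem Std.wi (h : Std H) (n : List (Kp D)) (k : ℕ) : Wi D.toPre (pn n k) (wt H n k) := by
  intro g hg s hs e
  rw [← mul_inv_cancel_left g s]
  refine (wt_mul H n k g fun l hl => (h.mem (l.w k).prime.ne_zero).2
    ⟨mul_mem (inv_mem hg) hs, ?_⟩).symm
  have a := isAr D.toPre (pn_ne n k)
  rw [← a.pr _ (dvd_pn hl k) _ (mul_mem (inv_mem hg) hs), THE1.ar_div a hg hs, e, inv_mul_cancel,
    map_one]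
  exact one_mem _

/-- the conductor at level `k` -/
theorem ck_eq (n : List (Kp D)) {k : ℕ} (hk : 7 ≤ k) :
    ∃ j, 6 ≤ j ∧ D.ck n k = 2 ^ j * (R3.cd D.m * pn n k) := by
  obtain ⟨j, rfl⟩ : ∃ j, k = j + 1 := ⟨k - 1, by omega⟩
  rw [Dat.ck, max_eq_left (by omega), pn]
  rcases (g_KC D.m D.hy.sq).2.2.2.2.2.1 with e | e | e <;> rw [e]
  · exact ⟨j + 3, by omega, by ring⟩
  · exact ⟨j + 1, by omega, by ring⟩
  · exact ⟨j, by omega, by ring⟩

/-! ### Comparison with the definitions of the statement -/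

theorem E_eq : KV.E = W15 := rfl

theorem io_eq : KV.io = io := rfl

theorem cd_eq (d : ℤ) : (if d % 4 = 1 then d else 4 * d).natAbs = R3.cd d := rfl

theorem fx_iff {δ : Om} {m : ℤ} (hδ : δ ^ 2 = m) : KV.Fx m g ↔ g δ = δ :=
  ⟨fun h => h δ hδ, fun h s hs => by
    rcases sq_eq_sq_iff_eq_or_eq_neg.1 (hs.trans hδ.symm) with e | e <;> simp [e, h]⟩

theorem fx_GK (P : Pre) : KV.Fx (-P.l) g ↔ g ∈ P.GK :=
  fx_iff (δ := P.sk) (by rw [P.hsk]; push_cast; rfl)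

open Classical in
theorem fx_sd {δ : Om} {m : ℤ} (hδ : δ ^ 2 = m) : (if KV.Fx m g then 1 else -1 : ℤ) = sd δ g := by
  rw [sd, fx_iff hδ]

theorem dv_iff (P : Pre) : (∃ Q : EO, (∀ g h : GQ, KV.Fx (-P.l) g → KV.Fx (-P.l) h →
    ac (g * h * g⁻¹ * h⁻¹) Q = Q) ∧ IsOfFinAddOrder (R - 2 ^ M • Q)) ↔ R ∈ DV P M := by
  simp only [fx_GK]
  exact exists_congr fun Q => and_congr_left' ⟨fun h g hg k hk => h g k hg hk,
    fun h g k hg hk => h g hg k hk⟩

theorem rH_eq (l c : ℕ) : c * rH l 1 = rH l c := by simp [rH]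

end Pool.Agent.P.MP_8b7eba_nt.R2.G.KV
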