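import Pool.Agent.P.MP_8b7eba_nt.R2.TH1

/-! The abstract structure theorem for Kolyvagin systems. -/

set_option autoImplicit false

namespace Pool.Agent.P.MP_8b7eba_nt.R2.KV

open scoped Matrix
open Module TH1

/-- the dimension is at most `p` -/
def Le {X : Type} [AddCommGroup X] [Module ℚ_[2] X] (E : Submodule ℚ_[2] X) (p : ℕ) : Prop :=
  FiniteDimensional ℚ_[2] E ∧ finrank ℚ_[2] E ≤ p

section

variable {X Y : Type} [AddCommGroup X] [Module ℚ_[2] X] [AddCommGroup Y] [Module ℚ_[2] Y]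

theorem Le.mono {E : Submodule ℚ_[2] X} {p q : ℕ} (h : Le E p) (e : p ≤ q) : Le E q :=
  ⟨h.1, h.2.trans e⟩

theorem Le.of_lt {E F : Submodule ℚ_[2] X} {p : ℕ} (h : Le E (p + 1)) (e : F < E) : Le F p := by
  have := h.1
  have h1 := Submodule.finrank_lt_finrank_of_lt e
  exact ⟨Submodule.finiteDimensional_of_le e.le, by have := h.2; omega⟩

theorem Le.eq_bot {E : Submodule ℚ_[2] X} (h : Le E 0) : E = ⊥ := by
  have := h.1
  exact Submodule.finrank_eq_zero.1 (Nat.le_zero.1 h.2)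

theorem Le.of_map (f : X →ₗ[ℚ_[2]] Y) {E Q : Submodule ℚ_[2] X} {P : Submodule ℚ_[2] Y} {p q : ℕ}
    (hP : Le P p) (hQ : Le Q q) (h1 : ∀ x ∈ E, f x ∈ P) (h2 : ∀ x ∈ E, f x = 0 → x ∈ Q) :
    Le E (p + q) := by
  have := hP.1
  have := hQ.1
  have a1 : LinearMap.range (f.domRestrict E) ≤ P := by
    rintro _ ⟨x, rfl⟩
    exact h1 x.1 x.2
  have a2 : (LinearMap.ker (f.domRestrict E)).map E.subtype ≤ Q := by
    rintro _ ⟨x, hx, rfl⟩
    exact h2 x.1 x.2 hx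
  have b1 := Submodule.finiteDimensional_of_le a1
  have b2 := Submodule.finiteDimensional_of_le a2
  have b3 : FiniteDimensional ℚ_[2] (LinearMap.ker (f.domRestrict E)) :=
    (Submodule.equivMapOfInjective _ E.injective_subtype _).symm.finiteDimensional
  have b4 : FiniteDimensional ℚ_[2] (E ⧸ LinearMap.ker (f.domRestrict E)) :=
    (f.domRestrict E).quotKerEquivRange.symm.finiteDimensional
  have b5 : FiniteDimensional ℚ_[2] E :=
    Module.Finite.of_submodule_quotient (LinearMap.ker (f.domRestrict E))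
  refine ⟨b5, ?_⟩
  have c1 := Submodule.finrank_mono a1
  have c2 := Submodule.finrank_mono a2
  rw [Submodule.finrank_map_subtype_eq] at c2
  have c3 := LinearMap.finrank_range_add_finrank_ker (f.domRestrict E)
  have := hP.2
  have := hQ.2
  omega

theorem le_bot : Le (⊥ : Submodule ℚ_[2] X) 0 := ⟨inferInstance, (finrank_bot _ _).le⟩

end

variable {A : Type} [NormedCommRing A] [NormedAlgebra ℚ_[2] A] [FiniteDimensional ℚ_[2] A]
  {π : A} {j : ℕ} {X : Type} [AddCommGroup X] [Module A X] [Module ℚ_[2] X]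
  [IsScalarTower ℚ_[2] A X] {ι : Type}

/-- the eigenspaces of the socle -/
def eig (S : HS A π j X ι) (c : X →ₗ[A] X) (n : List ι) (ε : ℚ_[2]) : Submodule ℚ_[2] X where
  carrier := {x | x ∈ S.Sel n ∧ π • x = 0 ∧ c x = ε • x}
  add_mem' := fun {x y} hx hy => ⟨add_mem hx.1 hy.1, by rw [smul_add, hx.2.1, hy.2.1, add_zero],
    by rw [map_add, hx.2.2, hy.2.2, smul_add]⟩
  zero_mem' := ⟨zero_mem _, smul_zero _, by rw [map_zero, smul_zero]⟩
  smul_mem' := fun a x hx => ⟨(S.Sel n).smul_of_tower_mem a hx.1,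
    by rw [smul_comm, hx.2.1, smul_zero],
    by rw [c.map_smul_of_tower, hx.2.2, smul_comm]⟩

/-- the additional properties in the self-dual case -/
structure SD (S : HS A π j X ι) (c : X →ₗ[A] X) (t : Matrix (Fin 2) (Fin 2) A) : Prop where
  inv : ∀ n, S.ok n → ∀ x ∈ S.Sel n, π • x = 0 → c x ∈ S.Sel n ∧ c (c x) = x
  loc : ∀ l n, S.ok (l :: n) → (∀ x ∈ S.Sel n, π • x = 0 → S.fr l (c x) = t *ᵥ S.fr l x) ∧
    ∀ y ∈ S.Sel (l :: n), π • y = 0 → S.sg l (c y) = -(t *ᵥ S.sg l y)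
  ch : ∀ n, S.ok n → ∀ x ∈ S.Sel n, ∀ y ∈ S.Sel n, π • x = 0 → π • y = 0 → x ≠ 0 → y ≠ 0 →
    (c x = x ∨ c x = -x) → (c y = y ∨ c y = -y) → ∃ l, S.ok (l :: n) ∧ S.fr l x ≠ 0 ∧ S.fr l y ≠ 0
  unl : ∀ l n, S.ok (l :: n) → ∀ y ∈ S.Sel (l :: n), π • y = 0 → S.sg l y = 0 →
    y ∈ S.Sel n ∧ S.fr l y = 0
  dep : ∀ l n, S.ok (l :: n) → ∀ x ∈ S.Sel n, ∀ y ∈ S.Sel (l :: n), π • x = 0 → π • y = 0 →
    ∃ a b : ℚ_[2], (a ≠ 0 ∨ b ≠ 0) ∧ a • S.fr l x + b • S.sg l y = 0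

variable {S : HS A π j X ι} {c : X →ₗ[A] X} {t : Matrix (Fin 2) (Fin 2) A}

omit [FiniteDimensional ℚ_[2] A] in
theorem SD.parts (h : SD S c t) {n : List ι} (hn : S.ok n) {s : X} (hs : s ∈ S.Sel n)
    (h0 : π • s = 0) {ε : ℚ_[2]} (hε : ε = 1 ∨ ε = -1) : s + ε • c s ∈ eig S c n ε := by
  obtain ⟨h1, h2⟩ := h.inv n hn s hs h0
  have e : ε * ε = 1 := by rcases hε with rfl | rfl <;> norm_num
  refine ⟨add_mem hs ((S.Sel n).smul_of_tower_mem ε h1), ?_, ?_⟩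
  · rw [smul_add, h0, smul_comm, ← map_smul, h0, map_zero, smul_zero, add_zero]
  · rw [map_add, c.map_smul_of_tower, h2, smul_add, smul_smul, e, one_smul, add_comm]

omit [FiniteDimensional ℚ_[2] A] in
/-- an eigenspace which is seen by the new prime shrinks -/
theorem SD.drop (h : SD S c t) {l : ι} {n : List ι} (hl : S.ok (l :: n)) {ε : ℚ_[2]}
    (hε : ε = 1 ∨ ε = -1) {x : X} (hx : x ∈ eig S c n ε) (h0 : S.fr l x ≠ 0) :
    eig S c (l :: n) ε < eig S c n ε := by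
  have key : ∀ y ∈ eig S c (l :: n) ε, y ∈ S.Sel n ∧ S.fr l y = 0 := fun y hy => by
    refine h.unl l n hl y hy.1 hy.2.1 ?_
    obtain ⟨a, b, h1, h2⟩ := h.dep l n hl x hx.1 y hy.1 hx.2.1 hy.2.1
    have e1 := (h.loc l n hl).1 x hx.1 hx.2.1
    have e2 := (h.loc l n hl).2 y hy.1 hy.2.1
    rw [hx.2.2, LinearMap.map_smul_of_tower] at e1
    rw [hy.2.2, LinearMap.map_smul_of_tower] at e2
    have h3 := congrArg (fun v => t *ᵥ v) h2
    simp only [Matrix.mulVec_add, Matrix.mulVec_smul, Matrix.mulVec_zero] at h3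
    rw [← e1, ← neg_eq_iff_eq_neg.2 e2] at h3
    have h4 : (2 * a) • S.fr l x = 0 := by
      rcases hε with rfl | rfl
      · linear_combination (norm := module) h2 + h3
      · linear_combination (norm := module) h2 - h3
    have h5 : a = 0 := by simpa [h0] using h4
    rw [h5, zero_smul, zero_add] at h2
    exact (smul_eq_zero.1 h2).resolve_left (h1.resolve_left (not_not.2 h5))
  exact lt_of_le_of_ne (fun y hy => ⟨(key y hy).1, hy.2⟩) fun e => h0 (key x (e ▸ hx)).2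

/-- an eigenspace which vanishes stays small -/
theorem SD.stay (h : SD S c t) (hc : Chain π j 1) {l : ι} {n : List ι} (hl : S.ok (l :: n))
    {κ : X} (hκ : κ ∈ S.Sel n) (hu : π ^ (j - 1) • S.fr l κ ≠ 0) {ε : ℚ_[2]}
    (h0 : eig S c n ε = ⊥) : Le (eig S c (l :: n) ε) 1 := by
  have s0 := soc hc hu
  refine Le.of_map ((S.sg l).restrictScalars ℚ_[2]) (p := 1) (q := 0)
    (P := (Submodule.span A {π ^ (j - 1) • S.fr l κ}).restrictScalars ℚ_[2])
    ⟨(hc.finrank_span _).1, dim_span_soc hc s0⟩ le_bot (fun y hy => ?_) fun y hy e => ?_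
  · obtain ⟨a, ha⟩ := prim_det hc hu (w := S.sg l y) (by
      linear_combination -S.dual l n hl κ hκ y hy.1)
    have h2 : (π ^ 1 * a) • S.fr l κ = 0 := by
      rw [mul_smul, ha, pow_one, ← map_smul, hy.2.1, map_zero]
    obtain ⟨b, rfl⟩ := (hc.ann (pos_of hc hu)).1 (prim_cancel hc hu h2)
    exact Submodule.mem_span_singleton.2 ⟨b, by rw [smul_smul, mul_comm]; exact ha⟩
  · exact h0 ▸ ⟨(h.unl l n hl y hy.1 hy.2.1 e).1, hy.2⟩

omit [FiniteDimensional ℚ_[2] A] in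
/-- the choice of the next prime -/
theorem SD.next (h : SD S c t) {n : List ι} (hn : S.ok n) {s : X} (hs : s ∈ S.Sel n)
    (h0 : π • s = 0) (h1 : s ≠ 0) : ∃ l, S.ok (l :: n) ∧ S.fr l s ≠ 0 ∧
      ∀ ε : ℚ_[2], (ε = 1 ∨ ε = -1) → eig S c n ε ≠ ⊥ → ∃ x ∈ eig S c n ε, S.fr l x ≠ 0 := by
  have pick : ∀ ε : ℚ_[2], (ε = 1 ∨ ε = -1) → ∃ x ∈ eig S c n ε, (eig S c n ε ≠ ⊥ → x ≠ 0) ∧
      (s + ε • c s ≠ 0 → x = s + ε • c s) := fun ε hε => by
    by_cases e : s + ε • c s = 0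
    · by_cases e' : eig S c n ε = ⊥
      · exact ⟨0, zero_mem _, fun a => (a e').elim, fun a => (a e).elim⟩
      · obtain ⟨x, hx, x0⟩ := (Submodule.ne_bot_iff _).1 e'
        exact ⟨x, hx, fun _ => x0, fun a => (a e).elim⟩
    · exact ⟨_, h.parts hn hs h0 hε, fun _ => e, fun _ => rfl⟩
  obtain ⟨x, x1, x2, x3⟩ := pick 1 (.inl rfl)
  obtain ⟨y, y1, y2, y3⟩ := pick (-1) (.inr rfl)
  have cx : c x = x ∨ c x = -x := .inl (x1.2.2.trans (one_smul _ _))
  have cy : c y = y ∨ c y = -y := .inr (y1.2.2.trans (neg_one_smul _ _))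
  have hne : s + (1 : ℚ_[2]) • c s ≠ 0 ∨ s + (-1 : ℚ_[2]) • c s ≠ 0 := by
    by_contra e
    rw [not_or, not_not, not_not] at e
    exact h1 (two_cancel (by linear_combination (norm := module) e.1 + e.2))
  obtain ⟨l, l1, l2, l3⟩ : ∃ l, S.ok (l :: n) ∧ (x ≠ 0 → S.fr l x ≠ 0) ∧
      (y ≠ 0 → S.fr l y ≠ 0) := by
    by_cases x0 : x = 0
    · have y0 : y ≠ 0 := hne.elim (fun e => (e (x3 e ▸ x0)).elim) fun e => y3 e ▸ e
      obtain ⟨l, l1, l2, -⟩ := h.ch n hn y y1.1 y y1.1 y1.2.1 y1.2.1 y0 y0 cy cy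
      exact ⟨l, l1, fun e => (e x0).elim, fun _ => l2⟩
    by_cases y0 : y = 0
    · obtain ⟨l, l1, l2, -⟩ := h.ch n hn x x1.1 x x1.1 x1.2.1 x1.2.1 x0 x0 cx cx
      exact ⟨l, l1, fun _ => l2, fun e => (e y0).elim⟩
    · obtain ⟨l, l1, l2, l3⟩ := h.ch n hn x x1.1 y y1.1 x1.2.1 y1.2.1 x0 y0 cx cy
      exact ⟨l, l1, fun _ => l2, fun _ => l3⟩
  refine ⟨l, l1, fun e => ?_, ?_⟩
  · have e1 : ∀ ε : ℚ_[2], S.fr l (s + ε • c s) = 0 := fun ε => by
      rw [map_add, LinearMap.map_smul_of_tower, (h.loc l n l1).1 s hs h0, e, Matrix.mulVec_zero,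
        smul_zero, add_zero]
    rcases hne with a | a
    · exact l2 (x3 a ▸ a) (x3 a ▸ e1 _)
    · exact l3 (y3 a ▸ a) (y3 a ▸ e1 _)
  · rintro _ (rfl | rfl) e
    · exact ⟨x, x1, l2 (x2 e)⟩
    · exact ⟨y, y1, l3 (y2 e)⟩

/-- a short path leads to a vertex whose Selmer group is cyclic -/
theorem SD.path (h : SD S c t) (hc : Chain π j 1) (p : ℕ) {n : List ι} {α : ℕ} {κ : X}
    (hg : S.Good n α κ) (hE : ∀ ε : ℚ_[2], (ε = 1 ∨ ε = -1) → Le (eig S c n ε) (p + 1)) :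
    ∃ n' α' κ', n'.length ≤ n.length + p ∧ S.Good n' α' κ' ∧ ∀ M ≤ S.Sel n,
      FiniteDimensional ℚ_[2] M → finrank ℚ_[2] M + 2 * α' ≤ j + 2 * α := by
  induction p generalizing n α κ with
  | zero =>
    obtain ⟨hn, hκ, hs⟩ := S.mem _ _ _ hg
    have s0 := soc hc hs
    have s1 : π ^ (j - 1) • κ ∈ S.Sel n := Submodule.smul_mem _ _ hκ
    obtain ⟨l, l1, l2, l3⟩ := h.next hn s1 s0 hs
    obtain ⟨ε, hε, e⟩ : ∃ ε : ℚ_[2], (ε = 1 ∨ ε = -1) ∧ eig S c n ε = ⊥ := by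
      by_contra e
      push Not at e
      obtain ⟨α', -, κ', g1, -⟩ := S.step l n α κ hg l1 (by rwa [← map_smul])
      obtain ⟨-, k1, k2⟩ := S.mem _ _ _ g1
      have k3 : ∀ ε : ℚ_[2], (ε = 1 ∨ ε = -1) →
          π ^ (j - 1) • κ' + ε • c (π ^ (j - 1) • κ') = 0 := fun ε hε => by
        obtain ⟨x, x1, x2⟩ := l3 ε hε (e ε hε)
        have := h.parts l1 (Submodule.smul_mem _ _ k1) (soc hc k2) hε
        rwa [((hE ε hε).of_lt (h.drop l1 hε x1 x2)).eq_bot] at this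
      exact k2 (two_cancel (by
        linear_combination (norm := module) k3 1 (.inl rfl) + k3 (-1) (.inr rfl)))
    have hε' : -ε = 1 ∨ -ε = -1 := by rcases hε with rfl | rfl <;> simp
    refine ⟨n, α, κ, le_rfl, hg, fun M hM _ => Nat.add_le_add_right ?_ _⟩
    refine (hc.finrank_le M (i := j) (s := 1) (fun x _ => by rw [hc.nil, zero_smul])
      fun N hN h0 => ?_).trans (mul_one j).le
    have := (hE _ hε').1
    refine (Submodule.finrank_mono (s := N.restrictScalars ℚ_[2]) fun y hy => ?_).trans (hE _ hε').2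
    have y1 := h.parts hn (hM (hN hy)) (h0 y hy) hε
    rw [e, Submodule.mem_bot] at y1
    refine ⟨hM (hN hy), h0 y hy, ?_⟩
    rcases hε with rfl | rfl
    · linear_combination (norm := module) y1
    · linear_combination (norm := module) -y1
  | succ p ih =>
    obtain ⟨hn, hκ, hs⟩ := S.mem _ _ _ hg
    obtain ⟨l, l1, l2, l3⟩ := h.next hn (Submodule.smul_mem _ _ hκ) (soc hc hs) hs
    rw [map_smul] at l2
    obtain ⟨α', a1, κ', g1, g2⟩ := S.step l n α κ hg l1 l2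
    obtain ⟨n', α'', κ'', b1, b2, b3⟩ := ih g1 fun ε hε => by
      by_cases e : eig S c n ε = ⊥
      · exact (h.stay hc l1 hκ l2 e).mono (by omega)
      · obtain ⟨x, x1, x2⟩ := l3 ε hε e
        exact (hE ε hε).of_lt (h.drop l1 hε x1 x2)
    refine ⟨n', α'', κ'', by rw [List.length_cons] at b1; omega, b2, fun M hM _ => ?_⟩
    obtain ⟨M', m1, m2, m3⟩ := step S hc l1 l2 g1 g2 M hM
    have := b3 M' m1 m2
    omega

theorem le_of_forall {X : Type} [AddCommGroup X] [Module ℚ_[2] X] {E : Submodule ℚ_[2] X} {p : ℕ}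
    (h : ∀ M ≤ E, FiniteDimensional ℚ_[2] M → finrank ℚ_[2] M ≤ p) : Le E p := by
  have h1 : Module.rank ℚ_[2] E ≤ p := rank_le fun s hs => by
    have h2 := hs.map' E.subtype E.ker_subtype
    have h3 := finrank_span_eq_card h2
    rw [Fintype.card_coe] at h3
    refine h3 ▸ h _ (Submodule.span_le.2 ?_) (FiniteDimensional.span_of_finite _ (Set.finite_range _))
    rintro _ ⟨x, rfl⟩
    exact x.1.2
  exact ⟨Module.rank_lt_aleph0_iff.1 (h1.trans_lt Cardinal.natCast_lt_aleph0),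
    finrank_le_of_rank_le h1⟩

/-- the eigenspaces shrink by at most one at each step -/
theorem SD.up {X : Type} [AddCommGroup X] [Module ℚ_[2] X] {π : ℚ_[2]} {S : HS ℚ_[2] π j X ι}
    {c : X →ₗ[ℚ_[2]] X} {t : Matrix (Fin 2) (Fin 2) ℚ_[2]} (h : SD S c t) (ht : t.det = -1)
    (hok : ∀ l n, S.ok (l :: n) → S.ok n) {ε : ℚ_[2]} (hε : ε = 1 ∨ ε = -1) {n : List ι}
    (hn : S.ok n) {p : ℕ} (hE : Le (eig S c n ε) p) : Le (eig S c [] ε) (n.length + p) := by
  have hP : Le (LinearMap.ker (Matrix.toLin' t - ε • LinearMap.id)) 1 := by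
    refine Le.of_lt (E := ⊤) ⟨inferInstance, by simp⟩ (lt_top_iff_ne_top.2 fun e => ?_)
    rw [LinearMap.ker_eq_top, sub_eq_zero, ← Matrix.toLin'_one, ← map_smul,
      Matrix.toLin'.injective.eq_iff] at e
    rw [e, Matrix.det_smul, Matrix.det_one] at ht
    rcases hε with rfl | rfl <;> norm_num at ht
  induction n generalizing p with
  | nil => simpa using hE
  | cons l n ih =>
    refine (ih (hok l n hn) (Le.of_map (S.fr l) hP hE (fun x hx => ?_)
      fun x hx e => ⟨S.ker l n hn x hx.1 e, hx.2⟩)).mono (by rw [List.length_cons]; omega)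
    have e := (h.loc l n hn).1 x hx.1 hx.2.1
    rw [hx.2.2, map_smul] at e
    rw [LinearMap.mem_ker, LinearMap.sub_apply, Matrix.toLin'_apply, ← e]
    exact sub_self _

end Pool.Agent.P.MP_8b7eba_nt.R2.KV
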