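import Pool.Agent.P.MP_8b7eba_nt.R3.AYCM

/-! The Heegner points of a given conductor are distinct. -/

namespace Pool.Agent.P.MP_8b7eba_nt.R1.G

open PowerSeries
open _root_.Pool.Agent.P.MP_8b7eba_nt.Mod (M2 G0 xx yy)

theorem sep {z z' : ℂ} (hz : 0 < z.im) (hz' : 0 < z'.im) (e : Pz z = Pz z') (N : ℕ) :
    ∀ {G : ℂ → ℂ} {A : Zb⟦X⟧}, HB G → (∀ g, G0 g → ∀ z : ℂ, 0 < z.im → G (g.act z) = G z) →
      QE 1 N A G → G z = G z' := by
  obtain ⟨e1, e2⟩ := (is_Pz hz).inj (e ▸ is_Pz hz')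
  have e3 : xx z = xx z' := by linear_combination e1 / 4
  have e4 : y1 z = y1 z' := by
    unfold y1
    linear_combination -e1 / 8 - e2 / 16
  have hm : ∀ k, QP_m k z = QP_m k z' := fun k => by simp only [QP_m, e3, e4]
  induction N with
  | zero =>
    intro G A hb hi h
    have h2 := fun {w : ℂ} (hw : 0 < w.im) => QP_core ⊤ (fun k => if k = 0 then ⊥ else ⊤) hw
      (fun k => by simp) (fun k a _ => by simp) 0 hb hi h fun _ => trivial
    have h3 := h2 hz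
    have h4 := h2 hz'
    simp only [if_true, AddSubgroup.mem_bot, sub_eq_zero] at h3 h4
    rw [h3, h4, hm]
  | succ N ih =>
    intro G A hb hi h
    obtain ⟨A', -, h2⟩ := QP_step ⊤ hb hi h fun _ => trivial
    have h3 := ih (hb.sub ((HB.const _).mul (QP_m_hb _)))
      (fun g hg z hz => by rw [hi g hg z hz, QP_m_inv _ g hg z hz]) h2
    rwa [hm, sub_left_inj] at h3

theorem KF_sep {z z' : ℂ} (hz : 0 < z.im) (hz' : 0 < z'.im) (e : Pz z = Pz z') {f : ℂ → ℂ}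
    (hf : KF 0 f) : f z = f z' := by
  obtain ⟨N, A, hA⟩ := hf.exp
  exact sep hz hz' e N hf.hb (by simpa using hf.inv) hA

end Pool.Agent.P.MP_8b7eba_nt.R1.G

namespace Pool.Agent.P.MP_8b7eba_nt.R2.G

open MP_9c97e9_nt (pm)
open R1 (Pz)

theorem jf_sep (hJ : JF) {z z' : ℂ} (hz : 0 < z.im) (hz' : 0 < z'.im) (e : Pz z = Pz z') :
    jf z = jf z' := by
  have h1 := R1.G.KF_sep hz hz' e hJ.2.2.1
  have h2 := R1.G.KF_sep hz hz' e hJ.2.2.2
  rw [h1] at h2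
  exact mul_left_cancel₀ (pow_ne_zero 2 (hJ.2.1 _ hz').2.2) h2

theorem HP_inj {l : ℕ} [Hl l] {c : ℕ} (hT : TAU) (hJ : JF) (hI : JINJ) (hc : Cd c) :
    Function.Injective (HP : RC l c → EO) := by
  intro a b e
  obtain ⟨h1, e1⟩ := rp_spec a
  obtain ⟨h2, e2⟩ := rp_spec b
  have h3 := HP_cl hT hc h1
  have h4 := HP_cl hT hc h2
  rw [e1] at h3
  rw [e2, ← e, h3] at h4
  have h5 := jf_sep hJ (at_hz hc h1).im (at_hz hc h2).im h4
  rw [← (JO_cl hT hJ hc h1).2, ← (JO_cl hT hJ hc h2).2, ← (JO_cl hT hJ hc h1).1,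
    ← (JO_cl hT hJ hc h2).1, e1, e2] at h5
  exact JO_inj hT hJ hI hc (io.injective h5)

end Pool.Agent.P.MP_8b7eba_nt.R2.G
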