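import Pool.Agent.P.MP_8b7eba_nt.KV.Bas

/-! The statements of the project KV. -/

set_option autoImplicit false

namespace Pool.Agent.P.MP_8b7eba_nt.R2.G.KV

open scoped Matrix
open MP_9c97e9_nt (Pt pm Is)
open Filter TSPLIT TINVP

/-! ### The patched system -/

-- deps:
def S_PATCH : Prop :=
  ∀ (D : Dat) (v : List (Kp D) → KA), D.Kol v → LBd D → NVd D (v []) → ∃ r : ℕ,
    (∃ n, Ok n ∧ n.length = r ∧ D.kap p1 (v n) ≠ 0) ∧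
    (∀ n, Ok n → D.kap p1 (v n) ≠ 0 → r ≤ n.length) ∧
    (Eg D 1 (r + 1) ∨ Eg D (-1) (r + 1)) ∧ ∀ s, Eg D 1 s ∨ Eg D (-1) s → s ≤ r + 1

-- deps:
def S_KOLX : Prop :=
  ∀ (D : Dat) (H : Heeg D.toPrg D.a), ∃ v : List (Kp D) → KA,
    (∀ n, Ok n → D.KD H n (v n)) ∧ D.Kol v

/-! ### Unpatching -/

-- deps:
def S_UNA : Prop :=
  ∀ (D : Dat) (H : Heeg D.toPrg D.a) (n : List (Kp D)) (v : KA), Ok n → D.KD H n v →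
    D.kap p1 v = 0 → ∀ M, ∀ᶠ k in UF, ∑ j, D.PP H n k j ∈ DV D.toPre M

-- deps:
def S_UNB : Prop :=
  ∀ (D : Dat) (H : Heeg D.toPrg D.a) (n : List (Kp D)) (v : KA), Ok n → D.KD H n v →
    (∀ M, ∀ᶠ k in UF, ∑ j, D.PP H n k j ∈ DV D.toPre M) → D.kap p1 v = 0

-- deps:
def S_ZPP : Prop :=
  ∀ (D : Dat) (H : Heeg D.toPrg D.a), Std H → ∀ (n : List (Kp D)) (k : ℕ),
    ∑ j, D.PP H n k j = ZW D.toPrg (D.ck n k) (wt H n k)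

-- deps:
def S_FIB : Prop :=
  ∀ (P : Prg) (c q : ℕ) (w : GQ → ℤ), c * q ≠ 0 → R3.cd P.m ∣ c → Wi P.toPre c w →
    ZW P (c * q) w = ∑ᶠ a : RC P.l c, (chi P.m a * w (sec P.toPre c a)) •
      ∑ᶠ b ∈ {b | pr (Nat.dvd_mul_right c q) b = a}, HP b ∧
    ∑ᶠ b : RC P.l (c * q), (chi P.m b * w (sec P.toPre (c * q) b)) •
        HP (pr (Nat.dvd_mul_right c q) b) =
      Nat.card (pr (l := P.l) (Nat.dvd_mul_right c q)).ker • ZW P c w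

-- deps: FIB
def S_INV0 : Prop :=
  ∀ (D : Dat) (H : Heeg D.toPrg D.a), Std H → ∀ (n : List (Kp D)) (k : ℕ), Ok n → ∀ g ∈ D.GK,
    tac D.dm g (Z0 H n k) - Z0 H n k ∈ DV D.toPre k

-- deps: FIB
def S_TOW1 : Prop :=
  ∀ (P : Prg) (N m c : ℕ) (w : GQ → ℤ), Odd N → Wi P.toPre N w → c = R3.cd P.m * N →
    (∀ g ∈ P.GK, tac P.dm g (ZW P c w) - ZW P c w ∈ DV P.toPre m) →
    ∃ u : ℤ, (u = -1 ∧ Even c ∨ (u = 1 ∨ u = -3) ∧ Odd c) ∧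
      ZW P (c * 2) w - u • ZW P c w ∈ DV P.toPre m

-- deps: FIB TOW1
def S_TOW : Prop :=
  ∀ (P : Prg) (N m c j : ℕ) (w : GQ → ℤ), Odd N → Wi P.toPre N w → c = R3.cd P.m * N →
    (∀ g ∈ P.GK, tac P.dm g (ZW P c w) - ZW P c w ∈ DV P.toPre m) → 6 ≤ j →
    ∃ u : ℤ, ¬ 2 ^ 5 ∣ u ∧ ZW P (2 ^ j * c) w - u • ZW P c w ∈ DV P.toPre m

/-! ### Heegner points, derived points, Kolyvagin primes -/

-- deps: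
def S_HPI : Prop :=
  ∀ (l : ℕ) [Hl l] (c : ℕ), c ≠ 0 → Function.Injective (HP : RC l c → EO)

-- deps:
def S_REPA : Prop :=
  ∀ (l : ℕ) [Hl l] (c : ℕ), c ≠ 0 → ∀ a : RC l c, KV.Heeg l (rH l 1) c (HP a)

-- deps:
def S_REPB : Prop :=
  ∀ (l : ℕ) [Hl l] (c : ℕ), c ≠ 0 → ∀ y : EO, KV.Heeg l (rH l 1) c y →
    ∃ a : RC l c, y = HP a ∨ y = -HP a

-- deps: HPI REPA
def S_DERA : Prop :=
  ∀ (D : Dat) (H : Heeg D.toPrg D.a), Std H → ∀ (n : List (Kp D)) (k m : ℕ), Ok n → m ≤ k →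
    ∃ P : EO, KV.Der D.l (rH D.l 1) D.m m (fn n k) P ∧ P - Z0 H n k ∈ DV D.toPre m

-- deps: HPI REPB
def S_DERB : Prop :=
  ∀ (D : Dat) (H : Heeg D.toPrg D.a), Std H → ∀ (n : List (Kp D)) (k m M : ℕ) (P : EO), Ok n →
    M ≤ m → KV.Der D.l (rH D.l 1) D.m m (fn n k) P → Z0 H n k ∈ DV D.toPre M → P ∈ DV D.toPre M

-- deps: REPB
def S_KPA : Prop :=
  ∀ (D : Dat), Pw D.toPre D.a → ∀ (l : Kp D) (k m : ℕ), 1 ≤ k → m ≤ k →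
    KV.KP D.l (rH D.l 1) D.m m (l.w k).p

-- deps: HPI REPA
def S_KPB : Prop :=
  ∀ (D : Dat), Pw D.toPre D.a → ∀ (r : ℕ) (n : ℕ → Finset ℕ) (m : ℕ → ℕ), (∀ k, k + 2 ≤ m k) →
    (∀ k, (n k).card = r) → (∀ k, ∀ q ∈ n k, KV.KP D.l (rH D.l 1) D.m (m k) q) →
    ∃ L : List (Kp D), Ok L ∧ L.length = r ∧ ∀ k, fn L k = n k

-- deps: UNA UNB ZPP INV0 TOW DERA DERB KPA KPB
def S_NVX : Prop :=
  ∀ (D : Dat) (H : Heeg D.toPrg D.a) (v : List (Kp D) → KA), Std H →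
    (∀ n, Ok n → D.KD H n (v n)) → ∀ r,
    KV.NV D.l (rH D.l 1) D.m r ↔ ∃ n, Ok n ∧ n.length = r ∧ D.kap p1 (v n) ≠ 0

/-! ### Coranks -/

-- deps:
def S_EGA : Prop :=
  ∀ (D : Dat) (r : ℕ), Eg D 1 r ∨ Eg D (-1) r →
    RkQ D.T D.dm D.m r ∨ RkQ D.T (D.dm * D.sk) (-D.l * D.m) r

-- deps:
def S_EGB : Prop :=
  ∀ (D : Dat) (r : ℕ), RkQ D.T D.dm D.m r ∨ RkQ D.T (D.dm * D.sk) (-D.l * D.m) r →
    Eg D 1 r ∨ Eg D (-1) r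

-- deps:
def S_E1 : Prop :=
  ∀ (w : Pl) (T : Tate w) (δ : Om) (m : ℤ) (r : ℕ), w.p = 2 → δ ^ 2 = m → m ≠ 0 →
    RkQ T δ m r → CorW δ r

-- deps:
def S_E2A : Prop :=
  ∀ (w₂ : Pl) (T : Tate w₂) (δ : Om) (m : ℤ) (u : ℕ → GQ → V2) (x : GS → V2), w₂.p = 2 →
    δ ^ 2 = m → Fam T δ u → (x = fun g => ul fun k => u k (g k)) → PZ (fun _ => ⊤) (T.rq δ) x ∧
    (∀ (w : ℕ → Pl) (g : GS), (∀ᶠ k in UF, g k ∈ (w k).I ∧ ¬ ((w k).p : ℤ) ∣ 30 * m) → x g = 0) ∧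
    ∃ v, ∀ g ∈ S1 w₂.D, (x g - (rS (T.rq δ) g v - v)) 1 = 0

-- deps:
def S_E2B : Prop :=
  ∀ (w₂ : Pl) (T : Tate w₂) (δ : Om) (m : ℤ) (u : ℕ → GQ → V2) (x : GS → V2), δ ^ 2 = m →
    Squarefree m → Fam T δ u → (x = fun g => ul fun k => u k (g k)) →
    PZ (fun _ => ⊤) (T.rq δ) x →
    ∀ w : Pl, w.p ≠ 2 → (w.p : ℤ) ∣ 15 * m → Cob (S1 w.D) (T.rq δ) x

-- deps: E2A E2B
def S_E2 : Prop :=
  ∀ (w : Pl) (T : Tate w) (δ : Om) (m : ℤ) (r : ℕ), w.p = 2 → δ ^ 2 = m → Squarefree m →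
    CorC δ r → RkQ T δ m r

-- deps:
def S_SNF : Prop :=
  ∀ (A : Type) [AddCommGroup A] (r k : ℕ) (s : Fin r → A), (∀ i, IsOfFinAddOrder (s i)) →
    (∀ a : Fin r → ℤ, ∑ i, a i • s i = 0 → ∀ i, 2 ^ k ∣ a i) →
    ∃ φ : (Fin r → ZMod (2 ^ k)) →+ A, Function.Injective φ

-- deps:
def S_IOT : Prop :=
  ∀ (d : ℤ) (δ : Om), d ≠ 0 → δ ^ 2 = d → ∃ ι : EO ≃+ Pt (Wd d) Om,
    (∀ (g : GQ) (P : EO), pm (Wd d) g (ι P) = ι (tac δ g P)) ∧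
    ∀ c : GQ → EO, (SelC δ c → (fun g => 2 • ι (c g)) ∈ QT.selCocycles (Wd d)) ∧
      ((fun g => ι (c g)) ∈ QT.selCocycles (Wd d) → (∃ i : ℕ, ∀ g, 2 ^ i • c g = 0) → SelC δ c)

-- deps: IOT
def S_SELA : Prop :=
  ∀ (d : ℤ) (δ : Om) (r : ℕ), d ≠ 0 → δ ^ 2 = d → KV.Cork (Wd d) r → CorC δ r

-- deps: IOT SNF
def S_SELB : Prop :=
  ∀ (d : ℤ) (δ : Om) (r : ℕ), d ≠ 0 → δ ^ 2 = d → CorW δ r → KV.Cork (Wd d) r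

/-! ### The theorem -/

-- deps: PATCH KOLX NVX EGA EGB E1 E2 SELA SELB
def S_MAIN : Prop :=
  ∀ (l : ℕ) (d : ℤ), R3.Hy l d → ∃ ρ : ℤ, 60 ∣ ρ ^ 2 + l ∧ ∃ r : ℕ,
    IsLeast {r | KV.NV l ρ d r} r ∧
    IsGreatest {s | KV.Cork (Wd d) s ∨ KV.Cork (Wd (-l * d)) s} (r + 1)

end Pool.Agent.P.MP_8b7eba_nt.R2.G.KV
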