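import Pool.Agent.P.MP_8b7eba_nt.R3.ATHB
import Pool.Agent.P.MP_8b7eba_nt.R3.ATQB

/-! The patched Kolyvagin system does not vanish at the trivial character. -/

namespace Pool.Agent.P.MP_8b7eba_nt.R2.G.KV

open scoped NNReal Matrix
open MP_9c97e9_nt (Pt pm Is ap Sha Split)
open Filter Topology Polynomial Module
open THB TQB

/-- the bound at the trivial character with a gain of two -/
def HG (D : Dat) (v : List (Kp D) → KA) : Prop :=
  ∀ j m α : ℕ, 0 < j → α < m →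
    ∀ (A : Type) [NormedCommRing A] [NormedAlgebra ℚ_[2] A] [IsUltrametricDist A]
      [FiniteDimensional ℚ_[2] A] (ψ : ℤ_[2] → A) (A' : Type) [NormedCommRing A']
      [NormedAlgebra ℚ_[2] A'] [IsUltrametricDist A'] [FiniteDimensional ℚ_[2] A'] (ψ' : ℤ_[2] → A'),
      IsAF ψ (X ^ (j + m)) → IsAF ψ' (X ^ j) →
      aeval (ψ 1 - 1) (X : ℚ_[2][X]) ^ (j + m - α - 1) • D.kap ψ (v []) ≠ 0 →
      ∀ M : Submodule A' (GS → Fin 2 → A'), FiniteDimensional ℚ_[2] M → (∀ x ∈ M, D.Sel ψ' [] x) →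
        finrank ℚ_[2] M + 2 ≤ j + 2 * α

theorem hbx (hP : CP) (hKTRIV : KTRIV) (hDUAL : DUAL) (hCH2 : CH2) (hH2 : H2) (D : Dat)
    (v : List (Kp D) → KA) (hv : D.Kol v)
    (hz : ∀ n, Ok n → D.kap (fun _ => (1 : ℚ_[2])) (v n) = 0) (q : ℚ_[2][X]) (hX : q = X)
    (j m α : ℕ) (hα : α + 1 < m)
    (A : Type) [NormedCommRing A] [NormedAlgebra ℚ_[2] A] [IsUltrametricDist A]
    [FiniteDimensional ℚ_[2] A] (ψ : ℤ_[2] → A) (A' : Type) [NormedCommRing A']
    [NormedAlgebra ℚ_[2] A'] [IsUltrametricDist A'] [FiniteDimensional ℚ_[2] A'] (ψ' : ℤ_[2] → A')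
    (h : IsAF ψ (q ^ (j + m))) (h' : IsAF ψ' (q ^ j))
    (h0 : aeval (ψ 1 - 1) q ^ (j + m - (α + 1) - 1) • D.kap ψ (v []) ≠ 0)
    (M : Submodule A' (GS → Fin 2 → A')) (hM : FiniteDimensional ℚ_[2] M)
    (hS : ∀ x ∈ M, D.Sel ψ' [] x) : finrank ℚ_[2] M ≤ q.natDegree * (j + 2 * α) := by
  have hq : Irreducible q := hX ▸ irreducible_X
  obtain ⟨c', -, -, s'⟩ := (hP.afx.2.2.2.2.2.2 A' ψ' _ h').1 q j hq rfl
  rcases j with _ | j
  · rw [rank_zero c']; exact Nat.zero_le _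
  have c := ((hP.afx.2.2.2.2.2.2 A ψ _ h).1 q _ hq rfl).1
  obtain ⟨ν, n1, n2, n3⟩ := nu_ex hP.afx (m := m) (by rwa [← pow_add, add_comm m]) h' hq.ne_zero
  set π := aeval (ψ 1 - 1) q
  set π' := aeval (ψ' 1 - 1) q
  choose Sl hSl using fun n => Dat.exists_sel (D := D) h'.1 n
  choose S0 hS0 using fun n => Dat.exists_sel (D := D) h.1 n
  obtain ⟨t1, t2, -⟩ := Tate.tau hP.tau hP.ec D.T
  have tt : ∀ y : Fin 2 → A, mv (D.T.rho tau) (mv (D.T.rho tau) y) = y := fun y => by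
    rw [← mv_mul, t1, mv_one]
  let κ : List (Kp D) → GS → Fin 2 → A := fun n => D.kap ψ (v n)
  have hV : ∀ n a, a < m → π ^ (j + 1 + m - a) • κ n = 0 →
      ∀ g i, (π ^ (m - a) • κ n) g i ∈ Ideal.span {π ^ m} := fun n a ha e g i => by
    have := (c.ann (i := j + 1) (a := (π ^ (m - a) • κ n) g i) (by omega)).1 (by
      have := congrFun (congrFun e g) i
      rw [show j + 1 + m - a = j + 1 + (m - a) by omega, pow_add, mul_smul] at this
      exact this)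
    rw [Nat.add_sub_cancel_left] at this
    exact Ideal.mem_span_singleton.2 this
  have hpw : ∀ n a, a < m → π ^ (j + 1 + m - a) • κ n = 0 → ∀ g i,
      π' ^ j * ν ((π ^ (m - a) • κ n) g i) = ν ((π ^ (j + 1 + m - a - 1) • κ n) g i) ∧
      (π ^ (j + 1 + m - a - 1) • κ n) g i ∈ Ideal.span {π ^ m} := fun n a ha e g i => by
    rw [show j + 1 + m - a - 1 = j + (m - a) by omega, pow_add, mul_smul]
    exact ⟨(n2 j _ (hV n a ha e g i)).symm, Ideal.mul_mem_left _ _ (hV n a ha e g i)⟩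
  have top : ∀ n, Ok n → π ^ (j + 1 + m - 0 - 1) • κ n = 0 := fun n hn => by
    subst hX
    exact TQB.top_zero hP.afx (hv.1 n) (hz n hn) (by omega) h
  have hK := fun l => hKTRIV D l A' ψ' h'.1
  let S : HS A' π' (j + 1) (GS → Fin 2 → A') (Kp D) :=
    { ok := Ok
      Sel := Sl
      Good := fun n a k => Ok n ∧ a + 1 < m ∧ π ^ (j + 1 + m - (a + 1)) • κ n = 0 ∧
        π ^ (j + 1 + m - (a + 1) - 1) • κ n ≠ 0 ∧ k = fun g i => ν ((π ^ (m - (a + 1)) • κ n) g i)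
      fr := fun l => LinearMap.proj l.ph
      sg := fun l => mv (D.T.rho tau) ∘ₗ LinearMap.proj l.t
      mem := by
        rintro n a _ ⟨h1, h2, h3, h4, rfl⟩
        refine ⟨h1, (hSl n _).2 (Dat.Sel.map h.1 h'.1 ν _ n1 (hV n _ h2 h3) hP.toCA
          ((hS0 n _).1 ((S0 n).smul_mem _ ((hS0 n _).2 (hv.2 A ψ h.1 n h1).1)))), fun e => h4 ?_⟩
        funext g i
        exact n3 _ (hpw n _ h2 h3 g i).2
          ((hpw n _ h2 h3 g i).1.symm.trans (congrFun (congrFun e g) i))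
      ker := fun l n h1 x hx e => by
        have hx := (hSl n x).1 hx
        exact (hSl _ x).2 ⟨(((hK l).2.2.2 x hx.1.pz).2.2 n hx.1 (List.pairwise_cons.1 h1).1).2 e,
          hx.2⟩
      sg0 := fun l n h1 x hx => by
        have hx := (hSl n x).1 hx
        rw [LinearMap.comp_apply, LinearMap.proj_apply,
          (((hK l).2.2.2 x hx.1.pz).2.2 n hx.1 (List.pairwise_cons.1 h1).1).1, map_zero]
      step := by
        rintro l n a _ ⟨h1, h2, h3, h4, rfl⟩ h5 h6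
        have e : κ (l :: n) l.t = mv (D.T.rho tau) (κ n l.ph) := (hv.2 A ψ h.1 n h1).2 l h5
        obtain ⟨a', e1, e2, e3⟩ := ex_min c.nil (κ (l :: n)) (a + 1) fun e4 => h6 (by
          have e5 := congrArg (mv (D.T.rho tau)) (congrFun e4 l.t)
          rw [Pi.smul_apply, e, map_smul, tt, Pi.zero_apply, map_zero] at e5
          funext i
          refine (hpw n _ h2 h3 l.ph i).1.trans ?_
          rw [Pi.smul_apply, e5, Pi.zero_apply, map_zero, Pi.zero_apply])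
        obtain ⟨a', rfl⟩ := Nat.exists_eq_succ_of_ne_zero (show a' ≠ 0 by
          rintro rfl
          exact e3 (top _ h5))
        refine ⟨a', by omega, _, ⟨h5, e1.trans_lt h2, e2, e3, rfl⟩, ?_⟩
        refine (mv_map ν _ _).symm.trans (funext fun i => ?_)
        rw [Pi.smul_apply, e, map_smul, tt, show m - (a' + 1) = a - a' + (m - (a + 1)) by omega, pow_add,
          mul_smul]
        exact n2 _ _ (hV n _ h2 h3 l.ph i)
      dual := fun l n h1 x hx y hy =>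
        (hDUAL D A' ψ' h'.1).1 l n x y h1 ((hSl n x).1 hx) ((hSl _ y).1 hy) }
  obtain ⟨a, e1, e2, e3⟩ := ex_min c.nil (κ []) (α + 1) h0
  obtain ⟨a, rfl⟩ := Nat.exists_eq_succ_of_ne_zero (show a ≠ 0 by
    rintro rfl
    exact e3 (top _ List.Pairwise.nil))
  have hG : S.Good [] a _ := ⟨List.Pairwise.nil, e1.trans_lt hα, e2, e3, rfl⟩
  have hle : M ≤ S.Sel [] := fun x hx => (hSl _ x).2 (hS x hx)
  refine le_trans ?_ (Nat.mul_le_mul_left _ (show j + 1 + 2 * a ≤ j + 1 + 2 * α by omega))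
  have tm : ∀ y : Fin 2 → A', (D.T.rho tau).map (algebraMap ℚ_[2] A') *ᵥ y =
      mv (D.T.rho tau) y := fun y => rfl
  have hI : ∀ l : Kp D, l.t ∈ St fun k => (l.w k).D ⊓ D.GK := fun l =>
    (mem_St.1 (hK l).2.2.1).mono fun k hg => ⟨hg.1.1, hg.2⟩
  have hD : ∀ (l : Kp D) (x : GS → Fin 2 → A'), ∀ g ∈ St fun k => (l.w k).D ⊓ D.GK,
      cc D h'.1 x g = D.xt x g := fun l x g hg =>
    Dat.nz_of_triv (St_mono (.of_forall fun k => inf_le_right) hg) ((hK l).1 g hg)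
  refine hH2 A' π' _ _ _ _ S (cc D h'.1) ((D.T.rho tau).map (algebraMap ℚ_[2] A')) c' ?_ ?_ ?_ ?_
    ?_ [] a _ hG M hle hM
  · rw [← Matrix.map_mul, t1, Matrix.map_one _ (map_zero _) (map_one _)]
  · rw [← RingHom.mapMatrix_apply, ← RingHom.map_det, t2, map_neg, map_one]
  · intro n _ x hx e
    have := cc_sel hP.toCF h'.1 (fun y hy a => by rw [s' hX y hy, s' hX y hy]) ((hSl n x).1 hx) e
    exact ⟨(hSl n _).2 this.1, this.2⟩
  · refine fun l n _ => ⟨fun x hx _ => ?_, fun y hy _ => ?_⟩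
    · exact (hD l x _ (hK l).2.1).trans ((hK l).2.2.2 x ((hSl n x).1 hx).1.pz).1
    · rw [tm, ← map_neg]
      exact congrArg (mv (D.T.rho tau))
        ((hD l y _ (hI l)).trans ((hK l).2.2.2 y ((hSl _ y).1 hy).1.pz).2.1)
  · intro n hn x hx y hy _ _ x0 y0 cx cy
    have key : ∀ z : GS → Fin 2 → A', (cc D h'.1 z = z ∨ cc D h'.1 z = -z) →
        ∃ ε : A', (ε = 1 ∨ ε = -1) ∧ D.nz ψ' (D.xt z) = ε • z := fun z hz =>
      hz.elim (fun e => ⟨1, .inl rfl, by rw [one_smul]; exact e⟩)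
        fun e => ⟨-1, .inr rfl, by rw [neg_one_smul]; exact e⟩
    obtain ⟨ε, a1, a2⟩ := key x cx
    obtain ⟨ε', b1, b2⟩ := key y cy
    obtain ⟨l, l1, l2⟩ := (hCH2 D n A' ψ' x y h'.1 ((hSl n x).1 hx).1 ((hSl n y).1 hy).1).2
      ε ε' a1 b1 x0 y0 a2 b2
    exact ⟨l, List.pairwise_cons.2 ⟨l1, hn⟩, l2⟩

theorem qbx (hP : CP) (hHB : HB) (hSB : SB) (D : Dat) (v : List (Kp D) → KA) (hK : D.Kol v)
    (h0 : D.kap (fun _ => (1 : ℚ_[2])) (v []) = 0) (hG : HG D v)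
    (q : ℚ_[2][X]) (j m i : ℕ) (hq : Irreducible q) (hqm : q.Monic) (him : i < m) (hmj : m ≤ j)
    (A : Type) [NormedCommRing A] [NormedAlgebra ℚ_[2] A] [IsUltrametricDist A]
    [FiniteDimensional ℚ_[2] A] (ψ : ℤ_[2] → A) (A' : Type) [NormedCommRing A']
    [NormedAlgebra ℚ_[2] A'] [IsUltrametricDist A'] [FiniteDimensional ℚ_[2] A'] (ψ' : ℤ_[2] → A')
    (hψ : IsAF ψ (q ^ (j + m))) (hψ' : IsAF ψ' (q ^ j))
    (hS : ¬ D.Str ψ (aeval (ψ 1 - 1) q ^ (j + m - i - 1) • D.kap ψ (v [])))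
    (M : Submodule A' (GS → Fin 2 → A')) (hM : FiniteDimensional ℚ_[2] M)
    (hSS : ∀ x ∈ M, D.SS ψ' x) :
    finrank ℚ_[2] M ≤ 2 * i * q.natDegree ∧ (q = X → finrank ℚ_[2] M + 2 ≤ 2 * i) := by
  classical
  obtain ⟨-, -, -, -, -, -, h2⟩ := id hP.afx
  have hC := ((h2 A ψ _ hψ).1 q _ hq rfl).1
  have hC' := ((h2 A' ψ' _ hψ').1 q _ hq rfl).1
  obtain ⟨ν, n1, n2⟩ := ((h2 A ψ _ hψ).2 A' ψ' _ (q ^ m) hψ').2 (by ring)
    (pow_ne_zero _ hq.ne_zero)
  set π := aeval (ψ 1 - 1) q with hπ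
  set π' := aeval (ψ' 1 - 1) q with hπ'
  set κ := D.kap ψ (v []) with hκ
  set V : Ideal A := Ideal.span {aeval (ψ 1 - 1) (q ^ m)} with hV
  have hVp : ∀ y ∈ V, ∃ p, y = aeval (ψ 1 - 1) (q ^ m * p) := fun y hy => by
    obtain ⟨c, rfl⟩ := Ideal.mem_span_singleton.1 hy
    obtain ⟨p, rfl⟩ := hψ.2.1 c
    exact ⟨p, (map_mul _ _ _).symm⟩
  have ninj : ∀ y ∈ V, ν y = 0 → y = 0 := fun y hy e => by
    obtain ⟨p, rfl⟩ := hVp y hy
    rw [n1, hψ'.2.2] at e
    rw [hψ.2.2, add_comm, pow_add]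
    exact mul_dvd_mul_left _ e
  have npow : ∀ c, ∀ y ∈ V, ν (π ^ c * y) = π' ^ c * ν y := fun c y hy => by
    obtain ⟨p, rfl⟩ := hVp y hy
    rw [n1, hπ, hπ', ← map_pow, ← map_pow, ← map_mul, ← map_mul, mul_left_comm, n1]
  have ex : ∃ a, π ^ (j + m - a - 1) • κ ≠ 0 := ⟨i, fun e => hS (e ▸ str_zero hψ.1)⟩
  obtain ⟨a, hai, ha, ha0⟩ : ∃ a ≤ i, π ^ (j + m - a - 1) • κ ≠ 0 ∧ π ^ (j + m - a) • κ = 0 := by
    refine ⟨Nat.find ex, Nat.find_min' ex fun e => hS (e ▸ str_zero hψ.1), Nat.find_spec ex, ?_⟩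
    rcases h : Nat.find ex with _ | a
    · rw [Nat.sub_zero, hC.nil, zero_smul]
    · exact not_not.1 (Nat.find_min ex (h ▸ a.lt_succ_self))
  have hx : ∀ g t, (π ^ (m - a) • κ) g t ∈ V := fun g t => by
    have e : π ^ (j + m - a) * κ g t = 0 := congrFun (congrFun ha0 g) t
    obtain ⟨c, hc⟩ := (hC.ann (Nat.sub_le _ _)).1 e
    refine Ideal.mem_span_singleton.2 ⟨c, ?_⟩
    change π ^ (m - a) * κ g t = _
    rw [hc, ← mul_assoc, ← pow_add, map_pow]
    congr 2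
    omega
  have hsel : D.Sel ψ [] (π ^ (m - a) • κ) := by
    obtain ⟨N, hN⟩ := D.exists_sel hψ.1 []
    exact (hN _).1 (N.smul_mem _ ((hN _).2 (hK.2 A ψ hψ.1 [] List.Pairwise.nil).1))
  have hsel' := Dat.Sel.map hψ.1 hψ'.1 ν V n2 hx hP.toCA hsel
  have hns : ¬ D.Str ψ' (π' ^ (j - (i - a) - 1) • fun g t => ν ((π ^ (m - a) • κ) g t)) := by
    intro e
    have e1 : π ^ (j + m - i - 1) • κ = π ^ (j - (i - a) - 1) • π ^ (m - a) • κ := by
      rw [smul_smul, ← pow_add]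
      congr 2
      omega
    have hy : ∀ g t, (π ^ (j + m - i - 1) • κ) g t ∈ V := fun g t => by
      rw [e1]
      exact V.mul_mem_left _ (hx g t)
    have e2 : (π' ^ (j - (i - a) - 1) • fun g t => ν ((π ^ (m - a) • κ) g t)) =
        fun g t => ν ((π ^ (j + m - i - 1) • κ) g t) := by
      funext g t
      rw [e1]
      exact (npow _ _ (hx g t)).symm
    obtain ⟨l1, l2⟩ := Dat.ln_map (D := D) hψ.1 hψ'.1 ν V n2 hy
    rw [e2] at e
    refine hS fun g hg => funext fun t => ninj _ (l2 g t) ?_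
    have := congrFun (e g hg) t
    rwa [l1] at this
  have key := fun R hR => hSB D A' ψ' π' j q.natDegree (i - a) R _ hψ'.1 hC' (by omega) hsel' hns
    hR M hM hSS
  by_cases hX : q = X
  · subst hX
    have h3 : a ≠ 0 := by
      rintro rfl
      exact ha (top_zero hP.afx (hK.1 []) h0 (by omega) hψ)
    have h1 := key (2 * (a - 1)) fun N hN hN' => by
      have := hG j m a (by omega) (by omega) A ψ A' ψ' hψ hψ' ha N hN hN'
      rw [natDegree_X]
      omega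
    rw [natDegree_X] at h1 ⊢
    omega
  · have h1 := key (2 * q.natDegree * a) fun N hN hN' =>
      (hHB D v hK q j m a hq hqm hX (by omega) A ψ A' ψ' hψ hψ' ha N hN hN').trans_eq (by ring)
    refine ⟨h1.trans_eq ?_, fun e => absurd e hX⟩
    rw [← mul_add, Nat.add_sub_cancel' hai]
    ring

theorem top_gain (hP : CP) (hHB : HB) (hSB : SB) (D : Dat) (v : List (Kp D) → KA) (hK : D.Kol v)
    (h0 : D.kap (fun _ => (1 : ℚ_[2])) (v []) = 0) (hG : HG D v) (hL : LBd D)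
    (hNV : NVd D (v [])) : False := by
  classical
  obtain ⟨F, hF, hdeg, hLB⟩ := hL
  obtain ⟨a1, a2, a3, a4, a5, -, a7⟩ := id hP.afx
  obtain ⟨m, hm⟩ : ∃ m, m = 3 + 2 * D.sg + D.bb := ⟨_, rfl⟩
  obtain ⟨j, hj1, hj2⟩ : ∃ j, F.natDegree ≤ j ∧ m ≤ j := ⟨_, le_max_left _ _, le_max_right _ _⟩
  have dpow : ∀ q, Dist q → ∀ n : ℕ, Dist (q ^ n) := fun q hq n => by
    induction n with
    | zero => rwa [pow_zero]
    | succ n ih => rw [pow_succ]; exact a2 _ _ ih hq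
  set s := UniqueFactorizationMonoid.normalizedFactors F with hs
  set Q := insert X s.toFinset with hQ
  have hXQ : X ∈ Q := Finset.mem_insert_self _ _
  have hq : ∀ q ∈ Q, Irreducible q ∧ Dist q := fun q h => by
    rcases Finset.mem_insert.1 h with rfl | h
    · exact ⟨irreducible_X, a4⟩
    · have h := Multiset.mem_toFinset.1 h
      have i1 := UniqueFactorizationMonoid.irreducible_of_normalized_factor q h
      exact ⟨i1, a3 _ _ hF ((normalize_eq_self_iff_monic i1.ne_zero).1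
        (UniqueFactorizationMonoid.normalize_normalized_factor q h))
        (UniqueFactorizationMonoid.dvd_of_mem_normalizedFactors h)⟩
  have hFp : F = ∏ q ∈ Q, q ^ s.count q := by
    rw [← Finset.prod_multiset_count_of_subset s Q (Finset.subset_insert _ _), hs,
      UniqueFactorizationMonoid.prod_normalizedFactors_eq hF.1.ne_zero, hF.1.normalize_eq_self]
  have hnd : ∀ k : ℚ_[2][X] → ℕ, (∏ q ∈ Q, q ^ k q).natDegree = ∑ q ∈ Q, k q * q.natDegree :=
    fun k => by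
      rw [natDegree_prod_of_monic _ _ fun q h => (hq q h).2.1.pow _]
      exact Finset.sum_congr rfl fun q h => (hq q h).2.1.natDegree_pow _
  let S : ℚ_[2][X] → ℕ → Prop := fun q i => ∀ (A : Type) [NormedCommRing A] [NormedAlgebra ℚ_[2] A]
    [IsUltrametricDist A] [FiniteDimensional ℚ_[2] A] (ψ : ℤ_[2] → A), IsAF ψ (q ^ (j + m)) →
      D.Str ψ (aeval (ψ 1 - 1) q ^ (j + m - i) • D.kap ψ (v []))
  let i : ℚ_[2][X] → ℕ := fun q => Nat.findGreatest (S q) m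
  have S0 : ∀ q, S q 0 := fun q A _ _ _ _ ψ h => by
    rw [Nat.sub_zero, ← map_pow, (h.2.2 _).2 dvd_rfl, zero_smul]
    exact str_zero h.1
  have Si : ∀ q, S q (i q) := fun q => Nat.findGreatest_spec (Nat.zero_le m) (S0 q)
  have iX : 1 ≤ i X := Nat.le_findGreatest (by omega) fun A _ _ _ _ ψ h => by
    rw [top_zero hP.afx (hK.1 []) h0 (by omega) h]
    exact str_zero h.1
  set f := ∏ q ∈ Q, q ^ i q with hf
  have hfd : Dist f := Finset.prod_induction _ _ a2 a5 fun q h => dpow q (hq q h).2 _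
  have hdf : f.natDegree < m := by
    by_contra hlt
    obtain ⟨A, _, _, _, _, ψ, hψ⟩ := a1 f hfd
    refine hNV A ψ f hψ hfd ((dvd_pow_self X (by omega)).trans (Finset.dvd_prod_of_mem _ hXQ))
      (by omega) fun g hg => funext fun t => ?_
    obtain ⟨p, hp⟩ := hψ.2.1 (D.ln ψ (D.kap ψ (v [])) g t)
    rw [← hp, Pi.zero_apply, hψ.2.2]
    refine Finset.prod_dvd_of_coprime (fun q h q' h' hne => IsCoprime.pow ?_) fun q h => ?_
    · refine (hq q h).1.coprime_iff_not_dvd.2 fun hd => hne ?_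
      exact eq_of_monic_of_associated (hq q h).2.1 (hq q' h').2.1
        ((hq q h).1.associated_of_dvd (hq q' h').1 hd)
    · obtain ⟨B, _, _, _, _, χ, hχ⟩ := a1 _ (dpow q (hq q h).2 (j + m))
      have him : i q ≤ m := Nat.findGreatest_le m
      have e0 : q ^ (j + m) = q ^ (j + m - i q) * q ^ i q := by
        rw [← pow_add, Nat.sub_add_cancel (by omega)]
      obtain ⟨μ, m1, m2⟩ := ((a7 A ψ f hψ).2 B χ _ (q ^ (j + m - i q)) hχ).1
        (e0 ▸ mul_dvd_mul_left _ (Finset.dvd_prod_of_mem _ h))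
      have e1 := m1 1
      rw [map_one, mul_one, map_pow] at e1
      have e2 := Si q B χ hχ g hg
      rw [← e1, ← D.kap_map hψ.1 hχ.1 μ m2 (hK.1 []),
        (Dat.ln_map (D := D) hψ.1 hχ.1 μ ⊤ (fun a y _ => m2 a y) fun _ _ => trivial).1] at e2
      have e3 : μ (D.ln ψ (D.kap ψ (v [])) g t) = 0 := congrFun e2 t
      rw [← hp, m1, hχ.2.2, e0] at e3
      exact (mul_dvd_mul_iff_left (pow_ne_zero _ (hq q h).1.ne_zero)).1 e3
  rw [hf, hnd] at hdf
  have key : ∀ q ∈ Q, s.count q * q.natDegree + (if q = X then 2 else 0) ≤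
      2 * (i q * q.natDegree) := fun q h => by
    have h1 : i q < m := by
      have := Finset.single_le_sum (f := fun q => i q * q.natDegree) (fun _ _ => Nat.zero_le _) h
      have h2 := Nat.le_mul_of_pos_right (i q) (hq q h).1.natDegree_pos
      omega
    have h2 : ¬ S q (i q + 1) := Nat.findGreatest_is_greatest (Nat.lt_succ_self _) h1
    simp only [S, not_forall] at h2
    obtain ⟨A, _, _, _, _, ψ, hψ, h2⟩ := h2
    obtain ⟨B, _, _, _, _, χ, hχ⟩ := a1 _ (dpow q (hq q h).2 j)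
    obtain ⟨M, hM, hSS, hk⟩ := hLB q (s.count q) j (hq q h).1
      (hFp ▸ Finset.dvd_prod_of_mem (fun q => q ^ s.count q) h) hj1 B χ hχ
    obtain ⟨h3, h4⟩ := qbx hP hHB hSB D v hK h0 hG q j m (i q) (hq q h).1
      (hq q h).2.1 h1 hj2 A ψ B χ hψ hχ h2 M hM hSS
    split_ifs with e
    · have h5 := h4 e
      rw [e, natDegree_X] at hk ⊢
      rw [e] at h5
      omega
    · rw [mul_assoc] at h3
      omega
  have h1 := Finset.sum_le_sum key
  rw [Finset.sum_add_distrib, Finset.sum_ite_eq' Q X fun _ => 2, if_pos hXQ, ← Finset.mul_sum,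
    ← hnd fun q => s.count q, ← hFp] at h1
  omega

/-- the patched Kolyvagin system does not vanish at the trivial character -/
theorem kol_nv (hP : CP) (hKTRIV : KTRIV) (hDUAL : DUAL) (hCH2 : CH2) (hH2 : H2) (hHB : HB)
    (hSB : SB) (D : Dat) (v : List (Kp D) → KA) (hK : D.Kol v) (hL : LBd D) (hNV : NVd D (v [])) :
    ∃ n, Ok n ∧ D.kap (fun _ => (1 : ℚ_[2])) (v n) ≠ 0 := by
  by_contra hz
  replace hz : ∀ n, Ok n → D.kap (fun _ => (1 : ℚ_[2])) (v n) = 0 := fun n hn =>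
    not_not.1 fun e => hz ⟨n, hn, e⟩
  have h0 := hz [] List.Pairwise.nil
  refine top_gain hP hHB hSB D v hK h0 ?_ hL hNV
  intro j m α hj hα A _ _ _ _ ψ A' _ _ _ _ ψ' h h' ha M hM hS
  obtain ⟨α, rfl⟩ := Nat.exists_eq_succ_of_ne_zero (show α ≠ 0 by
    rintro rfl
    exact ha (top_zero hP.afx (hK.1 []) h0 (by omega) h))
  have := hbx hP hKTRIV hDUAL hCH2 hH2 D v hK hz X rfl j m α hα A ψ A' ψ' h h' ha M hM hS
  rw [natDegree_X] at this
  omega

end Pool.Agent.P.MP_8b7eba_nt.R2.G.KV
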