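import Pool.Agent.P.MP_8b7eba_nt.R3.ATHB
import Pool.Agent.P.MP_8b7eba_nt.R3.ATQB
import Pool.Agent.P.MP_8b7eba_nt.KV.H3

/-! The structure theorem for the patched Kolyvagin system at the trivial character. -/

set_option autoImplicit false

namespace Pool.Agent.P.MP_8b7eba_nt.R2.G

open scoped NNReal Matrix
open Filter Topology Polynomial Module THB KV

namespace KStr

variable {A A' : Type} [NormedCommRing A] [NormedAlgebra ℚ_[2] A] [IsUltrametricDist A]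
  [FiniteDimensional ℚ_[2] A] [NormedCommRing A'] [NormedAlgebra ℚ_[2] A'] [IsUltrametricDist A']
  [FiniteDimensional ℚ_[2] A'] {ψ : ℤ_[2] → A} {ψ' : ℤ_[2] → A'} {D : Dat}

theorem unl (hCP : CP) (h : IsPsi ψ) {l : Kp D} {n : List (Kp D)} {y : GS → Fin 2 → A}
    (hy : D.Sel ψ (l :: n) y) (h0 : y l.t = 0) : D.Sel ψ n y := by
  refine ⟨⟨hy.1.pz, hy.1.off, hy.1.nz, fun w g hg => ?_, hy.1.bad,
    fun l' hl => hy.1.tr l' (List.mem_cons_of_mem _ hl)⟩, hy.2⟩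
  have R := D.rep h
  by_cases hp : ∀ᶠ k in UF, (w k).p = (l.w k).p
  swap
  · exact hy.1.unr w g ((hg.and (ev_not.1 hp)).mono fun k hk =>
      ⟨hk.1.1, hk.1.2.1, List.forall_mem_cons.2 ⟨hk.2, hk.1.2.2⟩⟩)
  have hu : ∀ k, ∃ u ∈ D.GK, (w k).p = (l.w k).p → u • l.w k = w k := fun k => by
    by_cases e : (w k).p = (l.w k).p
    · obtain ⟨σ, hσ⟩ := hCP.pl.2.1 (l.w k) (w k) e.symm
      by_cases hs : σ ∈ D.GK
      · exact ⟨σ, hs, fun _ => hσ⟩
      · exact ⟨σ * l.F k, D.mul_mem hs (l.out k), fun _ => by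
          rw [mul_smul, show l.F k • l.w k = l.w k from (l.fr k).1, hσ]⟩
    · exact ⟨1, one_mem _, fun h => (e h).elim⟩
  choose u hu hu' using hu
  have huS : u ∈ S1 D.GK := Eventually.of_forall hu
  have hg' : u⁻¹ * g * u ∈ St fun k => (l.w k).I ⊓ D.GK := (hg.and hp).mono fun k hk =>
    ⟨Pl.mem_I_smul.1 (by rw [hu' k hk.2]; exact hk.1.1.1),
      D.GK.mul_mem (D.GK.mul_mem (D.GK.inv_mem (hu k)) hk.1.1.2) (hu k)⟩
  have h2 : ∀ k, (l.w k).p ≠ 2 := fun k e => l.big k (by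
    rw [e]
    exact ⟨15 * D.l * D.m, by push_cast; ring⟩)
  have hI : ∀ k, (l.w k).I ≤ D.GK := fun k g hg =>
    Pl.I_fix hCP.tame hCP.res (h2 k) (m := -D.l) (by rw [D.hsk]; push_cast; rfl)
      (fun e => l.big k (((dvd_neg.1 e).mul_left _).mul_right _)) hg
  have hz := hCP.ptame (Fin 2 → A) D.GK (D.r ψ) l.w l.t (fun k => (l.w k).p) y D.on.2
    ⟨D.GK, R, fun k => inf_le_right⟩ (Eventually.of_forall fun k => ⟨h2 k, by
      rw [inf_eq_left.2 (hI k)]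
      exact (hCP.res _ _ (l.w k).loc_D).2.2.2.2.1, ⟨l.tI k, hI k (l.tI k)⟩, l.mov k⟩)
    (hy.1.pz.mono fun k => inf_le_right) h0 _ hg'
  have e : u * (u⁻¹ * g * u) * u⁻¹ = g := by group
  have h3 := hy.1.pz.conj R (fun _ => le_rfl) huS
    (St_mono (Eventually.of_forall fun k => inf_le_right) hg')
  rwa [e, hz, rS_zero, add_zero,
    Dat.rS_unr hCP.toCF h (hg.mono fun k hk => ⟨hk.1, hk.2.1⟩), sub_self] at h3

/-- the socle is identified with the classes at the trivial character -/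
theorem socle (hP : CP) {j : ℕ} (h : IsAF ψ (X ^ (j + 1))) : ∃ ν : A →ₗ[ℚ_[2]] ℚ_[2],
    ∀ x : GS → Fin 2 → A, aeval (ψ 1 - 1) (X : ℚ_[2][X]) • x = 0 →
      (∀ (g : GS) (B : Mt) (a : ℚ_[2]) (x' : GS → Fin 2 → A) (g' : GS) (b : ℚ_[2]),
        aeval (ψ 1 - 1) (X : ℚ_[2][X]) • x' = 0 →
        (a • fun i => ν (x g i)) + b • mv B (fun i => ν (x' g' i)) = 0 →
          a • x g + b • mv B (x' g') = 0) ∧
      (∀ (D : Dat) n, D.Sel ψ n x → D.Sel (fun _ => (1 : ℚ_[2])) n fun g i => ν (x g i)) ∧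
      ∀ D : Dat, D.nz (fun _ => (1 : ℚ_[2])) (D.xt fun g i => ν (x g i)) =
        fun g i => ν (D.nz ψ (D.xt x) g i) := by
  have c := ((hP.afx.2.2.2.2.2.2 A ψ _ h).1 X _ irreducible_X rfl).1
  obtain ⟨ν, n1, -, n3⟩ := nu_ex hP.afx (m := j) (by rwa [← pow_succ]) hP.afx.2.2.2.2.2.1 X_ne_zero
  have hV : ∀ x : GS → Fin 2 → A, aeval (ψ 1 - 1) (X : ℚ_[2][X]) • x = 0 → ∀ g i,
      x g i ∈ Ideal.span {aeval (ψ 1 - 1) (X : ℚ_[2][X]) ^ j} :=
    fun x hx g i => Ideal.mem_span_singleton.2 ((c.ann (i := 1) (by omega)).1 (by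
      rw [pow_one]; exact congrFun (congrFun hx g) i))
  refine ⟨ν, fun x hx => ⟨fun g B a x' g' b hx' e => funext fun i => n3 _ (add_mem
    (Submodule.smul_of_tower_mem _ a (hV x hx g i))
    (Submodule.smul_of_tower_mem _ b (SelB.mv_mem B _ (hV x' hx' g') i))) ?_,
    fun D n hs => Dat.Sel.map h.1 isPsi_one ν _ n1 (hV x hx) hP.toCA hs, fun D => ?_⟩⟩
  · rw [← mv_map] at e
    exact ((ν.map_add _ _).trans (congrArg₂ (· + ·) (ν.map_smul a _) (ν.map_smul b _))).trans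
      (congrFun e i)
  · rw [Dat.xt_map]
    exact (Dat.nz_map h.1 isPsi_one ν _ n1 fun g => SelB.mv_mem _ _ (hV x hx _)).1

theorem dep {u w : V2} (h : u 0 * w 1 = u 1 * w 0) :
    ∃ a b : ℚ_[2], (a ≠ 0 ∨ b ≠ 0) ∧ a • u + b • w = 0 := by
  by_cases h0 : u = 0
  · exact ⟨1, 0, .inl one_ne_zero, by simp [h0]⟩
  by_cases h1 : u 0 = 0
  · have h2 : u 1 ≠ 0 := fun e => h0 (funext fun i => by fin_cases i <;> assumption)
    refine ⟨w 1, -u 1, .inr (neg_ne_zero.2 h2), funext fun i => ?_⟩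
    fin_cases i
    · simp only [Fin.zero_eta, Pi.add_apply, Pi.smul_apply, smul_eq_mul, Pi.zero_apply]
      linear_combination h
    · simp only [Fin.mk_one, Pi.add_apply, Pi.smul_apply, smul_eq_mul, Pi.zero_apply]
      ring
  · refine ⟨w 0, -u 0, .inr (neg_ne_zero.2 h1), funext fun i => ?_⟩
    fin_cases i
    · simp only [Fin.zero_eta, Pi.add_apply, Pi.smul_apply, smul_eq_mul, Pi.zero_apply]
      ring
    · simp only [Fin.mk_one, Pi.add_apply, Pi.smul_apply, smul_eq_mul, Pi.zero_apply]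
      linear_combination -h

/-- the abstract system at the trivial character -/
theorem system (hP : CP) (hKTRIV : KTRIV) (hDUAL : DUAL) (hCH2 : CH2) {v : List (Kp D) → KA}
    (hv : D.Kol v) {j m : ℕ} (h : IsAF ψ (X ^ (j + 1 + m))) (h' : IsAF ψ' (X ^ (j + 1))) :
    ∃ S : HS A' (aeval (ψ' 1 - 1) (X : ℚ_[2][X])) (j + 1) (GS → Fin 2 → A') (Kp D),
      S.ok = Ok ∧ (∀ n x, x ∈ S.Sel n ↔ D.Sel ψ' n x) ∧
      SD S (cc D h'.1) ((D.T.rho tau).map (algebraMap ℚ_[2] A')) ∧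
      ∀ n a, (∃ κ, S.Good n a κ) ↔ Ok n ∧ a < m ∧
        aeval (ψ 1 - 1) (X : ℚ_[2][X]) ^ (j + 1 + m - a) • D.kap ψ (v n) = 0 ∧
        aeval (ψ 1 - 1) (X : ℚ_[2][X]) ^ (j + 1 + m - a - 1) • D.kap ψ (v n) ≠ 0 := by
  obtain ⟨c', -, -, s'⟩ := (hP.afx.2.2.2.2.2.2 A' ψ' _ h').1 X _ irreducible_X rfl
  have c := ((hP.afx.2.2.2.2.2.2 A ψ _ h).1 X _ irreducible_X rfl).1
  obtain ⟨ν, n1, n2, n3⟩ := nu_ex hP.afx (m := m) (by rwa [← pow_add, add_comm m]) h' X_ne_zero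
  obtain ⟨μ, m1⟩ := socle hP h'
  set π := aeval (ψ 1 - 1) (X : ℚ_[2][X])
  set π' := aeval (ψ' 1 - 1) (X : ℚ_[2][X])
  choose Sl hSl using fun n => Dat.exists_sel (D := D) h'.1 n
  choose S0 hS0 using fun n => Dat.exists_sel (D := D) h.1 n
  obtain ⟨t1, t2, -⟩ := Tate.tau hP.tau hP.ec D.T
  have tt : ∀ y : Fin 2 → A, mv (D.T.rho tau) (mv (D.T.rho tau) y) = y := fun y => by
    rw [← mv_mul, t1, mv_one]
  let κ : List (Kp D) → GS → Fin 2 → A := fun n => D.kap ψ (v n)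
  have hV : ∀ n a, a < m → π ^ (j + 1 + m - a) • κ n = 0 →
      ∀ g i, (π ^ (m - a) • κ n) g i ∈ Ideal.span {π ^ m} := fun n a ha e g i => by
    have := (c.ann (i := j + 1) (a := (π ^ (m - a) • κ n) g i) (by omega)).1 (by
      have := congrFun (congrFun e g) i
      rw [show j + 1 + m - a = j + 1 + (m - a) by omega, pow_add, mul_smul] at this
      exact this)
    rw [Nat.add_sub_cancel_left] at this
    exact Ideal.mem_span_singleton.2 this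
  have hpw : ∀ n a, a < m → π ^ (j + 1 + m - a) • κ n = 0 → ∀ g i,
      π' ^ j * ν ((π ^ (m - a) • κ n) g i) = ν ((π ^ (j + 1 + m - a - 1) • κ n) g i) ∧
      (π ^ (j + 1 + m - a - 1) • κ n) g i ∈ Ideal.span {π ^ m} := fun n a ha e g i => by
    rw [show j + 1 + m - a - 1 = j + (m - a) by omega, pow_add, mul_smul]
    exact ⟨(n2 j _ (hV n a ha e g i)).symm, Ideal.mul_mem_left _ _ (hV n a ha e g i)⟩
  have hK := fun l => hKTRIV D l A' ψ' h'.1
  let S : HS A' π' (j + 1) (GS → Fin 2 → A') (Kp D) :=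
    { ok := Ok
      Sel := Sl
      Good := fun n a k => Ok n ∧ a < m ∧ π ^ (j + 1 + m - a) • κ n = 0 ∧
        π ^ (j + 1 + m - a - 1) • κ n ≠ 0 ∧ k = fun g i => ν ((π ^ (m - a) • κ n) g i)
      fr := fun l => LinearMap.proj l.ph
      sg := fun l => mv (D.T.rho tau) ∘ₗ LinearMap.proj l.t
      mem := by
        rintro n a _ ⟨h1, h2, h3, h4, rfl⟩
        refine ⟨h1, (hSl n _).2 (Dat.Sel.map h.1 h'.1 ν _ n1 (hV n a h2 h3) hP.toCA
          ((hS0 n _).1 ((S0 n).smul_mem _ ((hS0 n _).2 (hv.2 A ψ h.1 n h1).1)))), fun e => h4 ?_⟩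
        funext g i
        exact n3 _ (hpw n a h2 h3 g i).2
          ((hpw n a h2 h3 g i).1.symm.trans (congrFun (congrFun e g) i))
      ker := fun l n h1 x hx e => by
        have hx := (hSl n x).1 hx
        exact (hSl _ x).2 ⟨(((hK l).2.2.2 x hx.1.pz).2.2 n hx.1 (List.pairwise_cons.1 h1).1).2 e,
          hx.2⟩
      sg0 := fun l n h1 x hx => by
        have hx := (hSl n x).1 hx
        rw [LinearMap.comp_apply, LinearMap.proj_apply,
          (((hK l).2.2.2 x hx.1.pz).2.2 n hx.1 (List.pairwise_cons.1 h1).1).1, map_zero]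
      step := by
        rintro l n a _ ⟨h1, h2, h3, h4, rfl⟩ h5 h6
        have e : κ (l :: n) l.t = mv (D.T.rho tau) (κ n l.ph) := (hv.2 A ψ h.1 n h1).2 l h5
        obtain ⟨a', e1, e2, e3⟩ := ex_min c.nil (κ (l :: n)) a fun e4 => h6 (by
          have e5 := congrArg (mv (D.T.rho tau)) (congrFun e4 l.t)
          rw [Pi.smul_apply, e, map_smul, tt, Pi.zero_apply, map_zero] at e5
          funext i
          refine (hpw n a h2 h3 l.ph i).1.trans ?_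
          rw [Pi.smul_apply, e5, Pi.zero_apply, map_zero, Pi.zero_apply])
        refine ⟨a', e1, _, ⟨h5, e1.trans_lt h2, e2, e3, rfl⟩, ?_⟩
        refine (mv_map ν _ _).symm.trans (funext fun i => ?_)
        rw [Pi.smul_apply, e, map_smul, tt, show m - a' = a - a' + (m - a) by omega, pow_add,
          mul_smul]
        exact n2 _ _ (hV n a h2 h3 l.ph i)
      dual := fun l n h1 x hx y hy =>
        (hDUAL D A' ψ' h'.1).1 l n x y h1 ((hSl n x).1 hx) ((hSl _ y).1 hy) }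
  have tm : ∀ y : Fin 2 → A', (D.T.rho tau).map (algebraMap ℚ_[2] A') *ᵥ y =
      mv (D.T.rho tau) y := fun y => rfl
  have hI : ∀ l : Kp D, l.t ∈ St fun k => (l.w k).D ⊓ D.GK := fun l =>
    (mem_St.1 (hK l).2.2.1).mono fun k hg => ⟨hg.1.1, hg.2⟩
  have hD : ∀ (l : Kp D) (x : GS → Fin 2 → A'), ∀ g ∈ St fun k => (l.w k).D ⊓ D.GK,
      cc D h'.1 x g = D.xt x g := fun l x g hg =>
    Dat.nz_of_triv (St_mono (.of_forall fun k => inf_le_right) hg) ((hK l).1 g hg)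
  refine ⟨S, rfl, hSl, ⟨fun n _ x hx e => ?_, fun l n _ => ⟨fun x hx _ => ?_, fun y hy _ => ?_⟩, ?_,
    fun l n _ y hy _ e => ?_, fun l n hl x hx y hy x0 y0 => ?_⟩, fun n a =>
      ⟨fun ⟨_, h1, h2, h3, h4, _⟩ => ⟨h1, h2, h3, h4⟩, fun ⟨h1, h2, h3, h4⟩ =>
        ⟨_, h1, h2, h3, h4, rfl⟩⟩⟩
  · have := cc_sel hP.toCF h'.1 (fun y hy a => (s' rfl y hy _).trans (s' rfl y hy _).symm)
      ((hSl n x).1 hx) e
    exact ⟨(hSl n _).2 this.1, this.2⟩
  · exact (hD l x _ (hK l).2.1).trans ((hK l).2.2.2 x ((hSl n x).1 hx).1.pz).1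
  · rw [tm, ← map_neg]
    exact congrArg (mv (D.T.rho tau))
      ((hD l y _ (hI l)).trans ((hK l).2.2.2 y ((hSl _ y).1 hy).1.pz).2.1)
  · intro n hn x hx y hy _ _ x0 y0 cx cy
    have key : ∀ z : GS → Fin 2 → A', (cc D h'.1 z = z ∨ cc D h'.1 z = -z) →
        ∃ ε : A', (ε = 1 ∨ ε = -1) ∧ D.nz ψ' (D.xt z) = ε • z := fun z hz =>
      hz.elim (fun e => ⟨1, .inl rfl, by rw [one_smul]; exact e⟩)
        fun e => ⟨-1, .inr rfl, by rw [neg_one_smul]; exact e⟩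
    obtain ⟨ε, a1, a2⟩ := key x cx
    obtain ⟨ε', b1, b2⟩ := key y cy
    obtain ⟨l, l1, l2⟩ := (hCH2 D n A' ψ' x y h'.1 ((hSl n x).1 hx).1 ((hSl n y).1 hy).1).2
      ε ε' a1 b1 x0 y0 a2 b2
    exact ⟨l, List.pairwise_cons.2 ⟨l1, hn⟩, l2⟩
  · have y1 := (hSl _ y).1 hy
    have e1 := congrArg (mv (D.T.rho tau)) (show mv (D.T.rho tau) (y l.t) = 0 from e)
    rw [map_zero, ← mv_mul, t1, mv_one] at e1
    exact ⟨(hSl _ y).2 (unl hP h'.1 y1 e1), y1.1.tr l List.mem_cons_self⟩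
  · obtain ⟨a, b, h1, h2⟩ := dep ((hDUAL D ℚ_[2] _ isPsi_one).1 l n _ _ hl
      ((m1 x x0).2.1 D n ((hSl n x).1 hx)) ((m1 y y0).2.1 D _ ((hSl _ y).1 hy)))
    exact ⟨a, b, h1, (m1 x x0).1 _ _ a y _ b y0 h2⟩

end KStr

end Pool.Agent.P.MP_8b7eba_nt.R2.G
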