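import Pool.Agent.P.MP_8b7eba_nt.KV.Patch
import Pool.Agent.P.MP_8b7eba_nt.KV.Str

/-! The structure theorem for the patched Kolyvagin system. -/

namespace Pool.Agent.P.MP_8b7eba_nt.R2.G.KV

open scoped NNReal Matrix
open Filter Topology Polynomial Module THB TQB R2.KV

/-- the eigenspaces of the Selmer group at the trivial character -/
def EE (D : Dat) (ε : ℚ_[2]) : Submodule ℚ_[2] (GS → V2) where
  carrier := {x | D.Sel (fun _ => (1 : ℚ_[2])) [] x ∧ D.nz (fun _ => (1 : ℚ_[2])) (D.xt x) = ε • x}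
  add_mem' := fun {x y} hx hy => by
    obtain ⟨S, hS⟩ := Dat.exists_sel (D := D) isPsi_one []
    exact ⟨(hS _).1 (S.add_mem ((hS _).2 hx.1) ((hS _).2 hy.1)),
      by rw [Dat.xt_add, Dat.nz_add isPsi_one, hx.2, hy.2, smul_add]⟩
  zero_mem' := by
    obtain ⟨S, hS⟩ := Dat.exists_sel (D := D) isPsi_one []
    exact ⟨(hS _).1 S.zero_mem, (map_zero (cc D isPsi_one)).trans (smul_zero _).symm⟩
  smul_mem' := fun a x hx => by
    obtain ⟨S, hS⟩ := Dat.exists_sel (D := D) isPsi_one []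
    exact ⟨(hS _).1 (S.smul_mem a ((hS _).2 hx.1)),
      by rw [Dat.xt_smul, Dat.nz_smul isPsi_one, hx.2, smul_comm]⟩

theorem dist_pow (hP : CP) (i : ℕ) : Dist (X ^ i) := by
  induction i with
  | zero => rw [pow_zero]; exact hP.afx.2.2.2.2.1
  | succ i ih => rw [pow_succ]; exact hP.afx.2.1 _ _ ih hP.afx.2.2.2.1

theorem top_ne (hA : AFX) {A : Type} [NormedCommRing A] [NormedAlgebra ℚ_[2] A]
    [IsUltrametricDist A] [FiniteDimensional ℚ_[2] A] {ψ : ℤ_[2] → A} {D : Dat} {v : KA}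
    (hv : ∀ k g j, ‖v k g j‖ ≤ 1) (h0 : D.kap (fun _ => (1 : ℚ_[2])) v ≠ 0) {J : ℕ}
    (h : IsAF ψ (X ^ (J + 1))) :
    aeval (ψ 1 - 1) (X : ℚ_[2][X]) ^ J • D.kap ψ v ≠ 0 := by
  obtain ⟨-, -, -, -, -, h1, h2⟩ := hA
  obtain ⟨μ, m1, m2⟩ := ((h2 _ _ _ h1).2 A ψ _ (X ^ J) h).1 (by rw [← pow_succ])
  have e := D.kap_map h1.1 h.1 μ m2 hv
  have e1 := m1 1
  rw [map_one, mul_one, map_pow] at e1
  rw [← e1, ← e]
  refine fun e2 => h0 (funext fun g => funext fun i => ?_)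
  have e3 := m1 (C (D.kap (fun _ => (1 : ℚ_[2])) v g i))
  rw [aeval_C, Algebra.algebraMap_self, RingHom.id_apply, congrFun (congrFun e2 g) i] at e3
  have e4 := (h.2.2 _).1 e3.symm
  rw [pow_succ, mul_dvd_mul_iff_left (pow_ne_zero _ X_ne_zero), X_dvd_iff, coeff_C_zero] at e4
  exact e4

theorem kol_conv (hP : CP) (hKTRIV : KTRIV) (hDUAL : DUAL) (hCH2 : CH2) (hH2 : H2) (D : Dat)
    (v : List (Kp D) → KA) (hK : D.Kol v) {n : List (Kp D)} (hn : Ok n)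
    (h0 : D.kap (fun _ => (1 : ℚ_[2])) (v n) ≠ 0) {ε : ℚ_[2]} (hε : ε = 1 ∨ ε = -1) :
    Le (EE D ε) (n.length + 1) := by
  obtain ⟨A, _, _, _, _, ψ, h⟩ := hP.afx.1 _ (dist_pow hP (0 + 1 + 1))
  have h' : IsAF (fun _ => (1 : ℚ_[2])) (X ^ (0 + 1)) := by
    rw [zero_add, pow_one]
    exact hP.afx.2.2.2.2.2.1
  have c := ((hP.afx.2.2.2.2.2.2 A ψ _ h).1 X _ irreducible_X rfl).1
  have c' := ((hP.afx.2.2.2.2.2.2 _ _ _ h').1 X _ irreducible_X rfl).1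
  obtain ⟨S, s1, s2, s3, s4⟩ := KStr.system hP hKTRIV hDUAL hCH2 hK h h'
  obtain ⟨κ, hκ⟩ := (s4 n 0).2 ⟨hn, one_pos, by rw [Nat.sub_zero, c.nil, zero_smul],
    top_ne hP.afx (hK.1 n) h0 h⟩
  obtain ⟨t1, t2, -⟩ := Tate.tau hP.tau hP.ec D.T
  have u1 : (D.T.rho tau).map (algebraMap ℚ_[2] ℚ_[2]) *
      (D.T.rho tau).map (algebraMap ℚ_[2] ℚ_[2]) = 1 := by
    rw [← Matrix.map_mul, t1, Matrix.map_one _ (map_zero _) (map_one _)]
  have u2 : ((D.T.rho tau).map (algebraMap ℚ_[2] ℚ_[2])).det = -1 := by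
    rw [← RingHom.mapMatrix_apply, ← RingHom.map_det, t2, map_neg, map_one]
  have h1 : Le (eig S (cc D h'.1) n ε) 1 := le_of_forall fun M hM hF => by
    have := hH2 ℚ_[2] _ _ _ _ _ S _ _ c' u1 u2 s3.inv s3.loc s3.ch n 0 κ hκ M
      (fun x hx => (hM hx).1) hF
    rwa [natDegree_X] at this
  have h2 := s3.up u2 (s1 ▸ fun l n h => (List.pairwise_cons.1 h).2) hε (s1 ▸ hn) h1
  have e : eig S (cc D h'.1) [] ε = EE D ε := by
    ext x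
    exact ⟨fun hx => ⟨(s2 _ _).1 hx.1, hx.2.2⟩, fun hx => ⟨(s2 _ _).2 hx.1, by simp, hx.2⟩⟩
  exact e ▸ h2

theorem kol_ex (hP : CP) (hKTRIV : KTRIV) (hDUAL : DUAL) (hCH2 : CH2) (hHB : HB) (hSB : SB)
    (D : Dat) (v : List (Kp D) → KA) (hK : D.Kol v) (hL : LBd D) (hNV : NVd D (v [])) {p : ℕ}
    (hE : ∀ ε : ℚ_[2], (ε = 1 ∨ ε = -1) → Le (EE D ε) (p + 1)) :
    ∃ n, Ok n ∧ n.length ≤ p ∧ D.kap (fun _ => (1 : ℚ_[2])) (v n) ≠ 0 := by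
  by_contra hz
  replace hz : ∀ n, Ok n → n.length ≤ p → D.kap (fun _ => (1 : ℚ_[2])) (v n) = 0 :=
    fun n hn hp => not_not.1 fun e => hz ⟨n, hn, hp, e⟩
  refine top_gain hP hHB hSB D v hK (hz [] List.Pairwise.nil (Nat.zero_le _)) ?_ hL hNV
  intro j m α hj hα A _ _ _ _ ψ A' _ _ _ _ ψ' h h' ha M hM hS
  obtain ⟨j, rfl⟩ := Nat.exists_eq_succ_of_ne_zero hj.ne'
  have c := ((hP.afx.2.2.2.2.2.2 A ψ _ h).1 X _ irreducible_X rfl).1
  have c' := ((hP.afx.2.2.2.2.2.2 _ _ _ h').1 X _ irreducible_X rfl).1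
  rw [natDegree_X] at c'
  obtain ⟨S, s1, s2, s3, s4⟩ := KStr.system hP hKTRIV hDUAL hCH2 hK h h'
  obtain ⟨ν, n1⟩ := KStr.socle hP h'
  obtain ⟨a, e1, e2, e3⟩ := ex_min c.nil (D.kap ψ (v [])) α ha
  obtain ⟨κ, hκ⟩ := (s4 [] a).2 ⟨List.Pairwise.nil, e1.trans_lt hα, e2, e3⟩
  obtain ⟨n', a', κ', b1, b2, b3⟩ := s3.path c' p hκ fun ε hε => by
    refine Le.of_map ((ν.compLeft (Fin 2)).compLeft GS) (q := 0) (hE ε hε) le_bot
      (fun x hx => ⟨(n1 x hx.2.1).2.1 D _ ((s2 _ _).1 hx.1), ?_⟩) fun x hx e => ?_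
    · refine ((n1 x hx.2.1).2.2 D).trans ?_
      rw [show D.nz ψ' (D.xt x) = ε • x from hx.2.2]
      exact funext fun g => funext fun i => ν.map_smul ε _
    · refine (Submodule.mem_bot _).2 (funext fun g => ?_)
      have := (n1 x hx.2.1).1 g 1 1 x g 0 hx.2.1 (by
        rw [zero_smul, add_zero, one_smul]
        exact congrFun e g)
      rwa [zero_smul, add_zero, one_smul] at this
  obtain ⟨g1, -, -, g4⟩ := (s4 n' a').1 ⟨κ', b2⟩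
  have h3 : a' ≠ 0 := by
    rintro rfl
    exact g4 (top_zero hP.afx (hK.1 n') (hz n' g1 (by simpa using b1)) (by omega) h)
  have := b3 M (fun x hx => (s2 _ _).2 (hS x hx)) hM
  omega

theorem eg_iff {D : Dat} {ε : ℚ_[2]} {p : ℕ} (h : Le (EE D ε) p) (r : ℕ) :
    (∃ x : Fin r → GS → V2, (∀ i, D.Sel (fun _ => (1 : ℚ_[2])) [] (x i) ∧
      D.nz (fun _ => (1 : ℚ_[2])) (D.xt (x i)) = ε • x i) ∧ LinearIndependent ℚ_[2] x) ↔
      r ≤ finrank ℚ_[2] (EE D ε) := by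
  have := h.1
  refine ⟨fun ⟨x, h1, h2⟩ => ?_, fun h1 => ?_⟩
  · have h3 : LinearIndependent ℚ_[2] fun i => (⟨x i, h1 i⟩ : EE D ε) :=
      LinearIndependent.of_comp (EE D ε).subtype h2
    simpa using h3.fintype_card_le_finrank
  · obtain ⟨x, hx⟩ := exists_linearIndependent_of_le_finrank h1
    exact ⟨fun i => x i, fun i => (x i).2, hx.map' (EE D ε).subtype (EE D ε).ker_subtype⟩

/-- the structure theorem -/
theorem patch (hP : CP) (hKTRIV : KTRIV) (hDUAL : DUAL) (hCH2 : CH2) (hH2 : H2) (hHB : HB)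
    (hSB : SB) (D : Dat) (v : List (Kp D) → KA) (hK : D.Kol v) (hL : LBd D) (hNV : NVd D (v [])) :
    ∃ r : ℕ, (∃ n, Ok n ∧ n.length = r ∧ D.kap (fun _ => (1 : ℚ_[2])) (v n) ≠ 0) ∧
      (∀ n, Ok n → D.kap (fun _ => (1 : ℚ_[2])) (v n) ≠ 0 → r ≤ n.length) ∧
      (∃ ε : ℚ_[2], (ε = 1 ∨ ε = -1) ∧ ∃ x : Fin (r + 1) → GS → V2,
        (∀ i, D.Sel (fun _ => (1 : ℚ_[2])) [] (x i) ∧
          D.nz (fun _ => (1 : ℚ_[2])) (D.xt (x i)) = ε • x i) ∧ LinearIndependent ℚ_[2] x) ∧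
      ∀ (s : ℕ) (ε : ℚ_[2]), (ε = 1 ∨ ε = -1) → (∃ x : Fin s → GS → V2,
        (∀ i, D.Sel (fun _ => (1 : ℚ_[2])) [] (x i) ∧
          D.nz (fun _ => (1 : ℚ_[2])) (D.xt (x i)) = ε • x i) ∧ LinearIndependent ℚ_[2] x) →
        s ≤ r + 1 := by
  classical
  have ex : ∃ r : ℕ, ∃ n, Ok n ∧ n.length = r ∧ D.kap (fun _ => (1 : ℚ_[2])) (v n) ≠ 0 := by
    obtain ⟨n, h1, h2⟩ := kol_nv hP hKTRIV hDUAL hCH2 hH2 hHB hSB D v hK hL hNV
    exact ⟨_, n, h1, rfl, h2⟩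
  obtain ⟨n, h1, h2, h3⟩ := Nat.find_spec ex
  have mn : ∀ n, Ok n → D.kap (fun _ => (1 : ℚ_[2])) (v n) ≠ 0 → Nat.find ex ≤ n.length :=
    fun n a b => Nat.find_min' ex ⟨n, a, rfl, b⟩
  generalize Nat.find ex = r at h2 mn
  have up := fun ε hε => h2 ▸ kol_conv hP hKTRIV hDUAL hCH2 hH2 D v hK h1 h3 (ε := ε) hε
  refine ⟨r, ⟨n, h1, h2, h3⟩, mn, ?_, fun s ε hε h => ((eg_iff (up ε hε) s).1 h).trans (up ε hε).2⟩
  by_contra hc
  have lo : ∀ ε : ℚ_[2], (ε = 1 ∨ ε = -1) → Le (EE D ε) r := fun ε hε =>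
    ⟨(up ε hε).1, Nat.le_of_lt_succ (not_le.1 fun e => hc ⟨ε, hε, (eg_iff (up ε hε) _).2 e⟩)⟩
  rcases r with _ | r
  · obtain rfl := List.length_eq_zero_iff.1 h2
    have k1 := (hK.2 ℚ_[2] _ isPsi_one [] h1).1
    obtain ⟨c1, c2⟩ := cc_sel hP.toCF isPsi_one (π := 0) (fun _ _ _ => rfl) k1 (zero_smul _ _)
    obtain ⟨S, hS⟩ := Dat.exists_sel (D := D) isPsi_one []
    generalize D.kap (fun _ => (1 : ℚ_[2])) (v []) = x at *
    have p1 : x + cc D isPsi_one x ∈ EE D 1 :=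
      ⟨(hS _).1 (S.add_mem ((hS _).2 k1) ((hS _).2 c1)),
        (map_add (cc D isPsi_one) _ _).trans (by rw [c2, one_smul, add_comm])⟩
    have p2 : x - cc D isPsi_one x ∈ EE D (-1) :=
      ⟨(hS _).1 (S.sub_mem ((hS _).2 k1) ((hS _).2 c1)),
        (map_sub (cc D isPsi_one) _ _).trans (by rw [c2, neg_one_smul, neg_sub])⟩
    rw [(lo _ (.inl rfl)).eq_bot, Submodule.mem_bot] at p1
    rw [(lo _ (.inr rfl)).eq_bot, Submodule.mem_bot] at p2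
    exact h3 (TH1.two_cancel (by linear_combination (norm := module) p1 + p2))
  · obtain ⟨n', a1, a2, a3⟩ := kol_ex hP hKTRIV hDUAL hCH2 hHB hSB D v hK hL hNV lo
    have := mn n' a1 a3
    omega

end Pool.Agent.P.MP_8b7eba_nt.R2.G.KV
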