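import Pool.Agent.P.MP_8b7eba_nt.KV.Iface

/-! Step E1. -/

set_option autoImplicit false

namespace Pool.Agent.P.MP_8b7eba_nt.R2.G.KV

open scoped Matrix
open MP_9c97e9_nt (Pt pm Is)
open Filter TSPLIT TINVP

namespace E1c

open Topology TLOC2

theorem lim_int (K : ℕ) (a : ℕ → ℤ) : ∃ l : ℚ_[2], Tendsto (fun k => (a k : ℚ_[2])) UF (𝓝 l) ∧
    ((∀ᶠ k in UF, ¬ 2 ^ K ∣ a k) → l ≠ 0) := by
  have h := tendsto_ul (f := fun k => (a k : ℚ_[2])) (B := 1)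
    (.of_forall fun k => Padic.norm_int_le_one _)
  refine ⟨_, h, fun h1 e => ?_⟩
  rw [e] at h
  obtain ⟨k, h2, h3⟩ := (h1.and (NormedAddGroup.tendsto_nhds_zero.1 h
    (((2 : ℕ) : ℝ) ^ (-(K : ℤ))) (by positivity))).exists
  exact h2 (by exact_mod_cast (Padic.norm_int_le_pow_iff_dvd (p := 2) (a k) K).1 h3.le)

theorem conv {w : Pl} (T : Tate w) {δ : Om} {m : ℤ} (h2 : w.p = 2) (hδ : δ ^ 2 = m) {u : ℕ → V2}
    {y : GS → V2} (h4 : ∀ g : GS, Tendsto (fun k => T.rq δ (g k) (u k) - u k) UF (𝓝 (y g))) :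
    Cob ⊤ (T.rq δ) y := by
  have hr := T.rep (fix_sq hδ)
  obtain ⟨φ, p1, p2⟩ := TC.Loc.exf T h2 δ
  have p3 : (T.rd δ φ - 1).det ≠ 0 := by
    rw [Matrix.det_fin_two]
    simpa [up T p1, sub_eq_zero] using ⟨p2 0, p2 1⟩
  have h5 := ((Matrix.toLin' (T.rd δ φ - 1)⁻¹).continuous_of_finiteDimensional.tendsto _).comp
    (h4 (cs φ))
  replace h5 := h5.congr (f₂ := u) fun k => by
    have : T.rq δ φ (u k) - u k = (T.rd δ φ - 1) *ᵥ u k := by
      rw [Matrix.sub_mulVec, Matrix.one_mulVec, Tate.rq_apply]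
    simp only [Function.comp_apply, cs, this, Matrix.toLin'_apply, Matrix.mulVec_mulVec,
      Matrix.nonsing_inv_mul _ p3.isUnit, Matrix.one_mulVec]
  exact ⟨_, fun g _ => tendsto_nhds_unique (h4 g) ((hr.tendsto g h5).sub h5)⟩

end E1c

open Topology TLOC2 in
theorem t_E1 :
    S_E1 := by
  rintro w T δ m r h2 hδ hm ⟨x, hx, hi⟩ K
  by_contra hK
  choose c hc using fun j => (hx j).pz.1
  choose e he using fun j => TC.Loc.clas1 T h2 hδ hm (hx j) (hc j)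
  have h1 : ∀ i : ℕ, ∀ᶠ k in UF, ∃ (a : Fin r → ℤ) (u : V2), (∃ j, ¬ 2 ^ K ∣ a j) ∧ ∀ g,
      ‖∑ j, (a j : ℚ_[2]) • c j k g - (T.rq δ g u - u)‖ ≤ (2 ^ i)⁻¹ := fun i => by
    have p : ∀ e : ℕ, (2 : ℚ_[2]) ^ e / 2 ^ (i + e) = (2 ^ i)⁻¹ := fun e => by
      rw [pow_add]; field_simp
    filter_upwards [eventually_all.2 fun j => he j (i + e j)] with k k1
    simp only [p] at k1
    by_contra hn
    refine hK ⟨_, k1, fun a Q n h3 h4 j => ?_⟩
    by_contra hj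
    obtain ⟨u, rfl⟩ := T.surj _ _ h3
    refine hn ⟨a, (2 : ℚ_[2]) ^ i • u, ⟨j, hj⟩, fun g => ?_⟩
    have := h4 g
    simp only [← pt_int] at this
    rw [← map_sum, T.tgal, ← map_sub, T.pt_eq, ← Tate.rq_apply] at this
    rw [← mul_one (2 ^ i : ℝ)⁻¹, le_inv_mul_iff₀ (by positivity), ← npow, ← norm_smul]
    refine le_of_eq_of_le (congrArg _ ?_) this
    rw [smul_sub, Finset.smul_sum, map_smul, ← smul_sub,
      inv_smul_smul₀ (pow_ne_zero _ two_ne_zero)]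
    exact congrArg (· - _) (Finset.sum_congr rfl fun j _ => smul_comm _ _ _)
  obtain ⟨i, hi', h3⟩ := ev_diag h1
  obtain ⟨a, h3⟩ := (h3.mono fun k h => h (i k) le_rfl).choice
  obtain ⟨u, h3⟩ := h3.choice
  choose l l1 l2 using fun j => E1c.lim_int K fun k => a k j
  have h4 : ∀ g : GS, Tendsto (fun k => T.rq δ (g k) (u k) - u k) UF
      (𝓝 ((∑ j, l j • x j) g)) := fun g => by
    have hg : g ∈ S1 ⊤ := .of_forall fun _ => trivial
    simpa using (tendsto_finsetSum Finset.univ fun j _ => (l1 j).smul ((hc j).lim g hg)).sub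
      (squeeze_zero_norm' (h3.mono fun k h => h.2 (g k))
        ((tendsto_inv_atTop_zero.comp (tendsto_pow_atTop_atTop_of_one_lt one_lt_two)).comp hi'))
  have h5 := hi l (E1c.conv T h2 hδ h4)
  have h6 : ∀ᶠ k in UF, ∀ j, 2 ^ K ∣ a k j := eventually_all.2 fun j => by
    by_contra h
    exact l2 j (ev_not.1 h) (congrFun h5 j)
  obtain ⟨k, ⟨⟨j, h7⟩, -⟩, h8⟩ := (h3.and h6).exists
  exact h7 (h8 j)

end Pool.Agent.P.MP_8b7eba_nt.R2.G.KV
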