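import Pool.Agent.P.MP_8b7eba_nt.KV.Iface
import Pool.Agent.P.MP_8b7eba_nt.KV.HInj

/-! Step HPI. -/

set_option autoImplicit false

namespace Pool.Agent.P.MP_8b7eba_nt.R2.G.KV

open scoped Matrix
open MP_9c97e9_nt (Pt pm Is)
open Filter TSPLIT TINVP

theorem t_HPI : S_HPI := fun _ _ _ hc => HP_inj a_CA.tau a_CE.jf a_CE.jinj ⟨hc, trivial⟩

end Pool.Agent.P.MP_8b7eba_nt.R2.G.KV
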