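import Pool.Agent.P.MP_8b7eba_nt.KV.Iface
import Pool.Agent.P.MP_8b7eba_nt.KV.Patch2

/-! Step PATCH. -/

set_option autoImplicit false

namespace Pool.Agent.P.MP_8b7eba_nt.R2.G.KV

open scoped Matrix
open MP_9c97e9_nt (Pt pm Is)
open Filter TSPLIT TINVP

theorem t_PATCH : S_PATCH := by
  intro D v hK hL hN
  have hD := t_DUAL a_CP t_SAH2 g_PKOL g_KTRIV
  obtain ⟨r, h1, h2, ⟨ε, h3, h4⟩, h5⟩ := patch a_CP g_KTRIV hD g_CH2 a_H2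
    (t_HB a_CP g_KTRIV hD g_CH2 a_H1 a_H2) (t_SB a_CP hD) D v hK hL hN
  refine ⟨r, h1, h2, ?_, fun s hs => hs.elim (h5 s 1 (.inl rfl)) (h5 s (-1) (.inr rfl))⟩
  rcases h3 with rfl | rfl
  exacts [.inl h4, .inr h4]

end Pool.Agent.P.MP_8b7eba_nt.R2.G.KV
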